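import Pool.Agent.KGT.WDefs
import Pool.Agent.BassH.CubFG

/-!
# KGT: the cubics `F = T² - T` are smooth cubic hypersurfaces
-/

set_option autoImplicit false

noncomputable section

namespace Pool.Agent.KGT

open MvPolynomial

theorem form_deg {k : Type} [CommRing k] {a b c : ℕ} (t : Fin a → Fin b → Fin c → k) :
    (W.form t).totalDegree ≤ 3 := by
  unfold W.form
  refine (totalDegree_finsetSum_le fun i _ => (totalDegree_finsetSum_le fun j _ =>
    (totalDegree_finsetSum_le fun l _ => ?_)))
  refine (totalDegree_mul _ _).trans ((Nat.add_le_add ((totalDegree_mul _ _).trans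
    (Nat.add_le_add (totalDegree_mul _ _) le_rfl)) le_rfl).trans ?_)
  have hX : ∀ s : Fin a ⊕ Fin b ⊕ Fin c, (X s : MvPolynomial _ k).totalDegree ≤ 1 := fun s => by
    refine (totalDegree_monomial_le _ _).trans ?_
    rw [Finsupp.sum_single_index rfl]
    exact le_rfl
  rw [totalDegree_C]
  have h1 := hX (Sum.inl i)
  have h2 := hX (Sum.inr (Sum.inl j))
  have h3 := hX (Sum.inr (Sum.inr l))
  omega

theorem cubic_smooth {k : Type} [CommRing k] {a b c : ℕ} (t : Fin a → Fin b → Fin c → k) :
    W.SmoothCubic (W.cubic t) := by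
  refine ⟨?_, BassH.thm_CubSm k a b c t⟩
  unfold W.cubic
  have hX : (X none : MvPolynomial (Option (Fin a ⊕ Fin b ⊕ Fin c)) k).totalDegree ≤ 1 := by
    refine (totalDegree_monomial_le _ _).trans ?_
    rw [Finsupp.sum_single_index rfl]
    exact le_rfl
  have h2 : (X none ^ 2 : MvPolynomial (Option (Fin a ⊕ Fin b ⊕ Fin c)) k).totalDegree ≤ 3 :=
    (totalDegree_pow _ _).trans (by omega)
  refine (totalDegree_add _ _).trans (max_le ((totalDegree_sub _ _).trans (max_le
    ((totalDegree_rename_le _ _).trans (form_deg t)) h2)) (by omega))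

end Pool.Agent.KGT
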