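import Pool.Agent.KGT.Zero
import Pool.Agent.KQG.GE

/-!
# KGT: push-forward and restriction of scalars
-/

set_option autoImplicit false

noncomputable section

namespace Pool.Agent.KGT

open CategoryTheory CategoryTheory.Limits Function Pool.Agent.KQ Pool.Agent.KQG AlgebraicGeometry
open Pool.Agent.KTX
open scoped TensorProduct Polynomial

universe u

/-- global sections of the push-forward -/
theorem push_bwd {A B : Type} [CommRing A] [CommRing B] (φ : A →+* B) (hφ : φ.Finite)
    [IsFinite (Sm φ)] :
    NI ((pushE (Sm φ)).comp (ge_equiv A).bwd) ((ge_equiv B).bwd.comp (resE φ hφ)) :=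
  ⟨NatIso.ofComponents (fun M => ObjectProperty.isoMk _ ((ge_right φ).app M.obj.obj)) fun f =>
    ObjectProperty.hom_ext _ ((ge_right φ).hom.naturality f.hom.hom)⟩

/-- an equivalence gives an isomorphism -/
theorem bwd_inj (K : KInt.{u}) (n : ℕ) {E E' : ExCat.{0}} (e : ExEquiv E E') (x : K.K n E')
    (h : K.map n e.bwd x = 0) : x = 0 := by
  have h1 := K.ni n (e.bwd.comp e.fwd) (ExFun.id E') ⟨e.counit⟩ x
  rw [K.map_comp, h, map_zero, K.map_id] at h1
  exact h1.symm

/-- an equivalence gives an isomorphism -/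
def equivK (K : KInt.{u}) (n : ℕ) {E E' : ExCat.{0}} (e : ExEquiv E E') : K.K n E ≃+ K.K n E' :=
  { K.map n e.fwd with
    invFun := K.map n e.bwd
    left_inv := fun x => by
      have h1 := K.ni n (e.fwd.comp e.bwd) (ExFun.id E) ⟨e.unit.symm⟩ x
      rw [K.map_comp, K.map_id] at h1
      exact h1
    right_inv := fun x => by
      have h1 := K.ni n (e.bwd.comp e.fwd) (ExFun.id E') ⟨e.counit⟩ x
      rw [K.map_comp, K.map_id] at h1
      exact h1 }

theorem push_zero (K : KInt.{u}) (n : ℕ) (A : Type) [CommRing A]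
    [IsFinite (Sm (Polynomial.constantCoeff : A[X] →+* A))] (x : K.K n (Coh (Sp A))) :
    K.map n (pushE (Sm (Polynomial.constantCoeff : A[X] →+* A))) x = 0 := by
  apply bwd_inj K n (ge_equiv A[X])
  rw [← K.map_comp, K.ni n _ _ (push_bwd (Polynomial.constantCoeff : A[X] →+* A) (cc_finite A)) x,
    K.map_comp]
  refine res_zero K n A ?_ (cc_finite A) _
  rw [← Polynomial.algebraMap_eq]
  exact (RingHom.flat_algebraMap_iff).2 inferInstance

end Pool.Agent.KGT
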