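import Pool.Agent.KGT.Th
import Pool.Agent.KGT.Push

/-!
# KGT: the groups `K_n` of finitely generated modules over rings are a G-theory
-/

set_option autoImplicit false
set_option linter.style.haveILetI false

noncomputable section

namespace Pool.Agent.KGT

open CategoryTheory CategoryTheory.Limits Function Pool.Agent.KQ Pool.Agent.KQG AlgebraicGeometry
open Pool.Agent.KTX
open scoped TensorProduct Polynomial

universe u

/-- `M ↦ M^~` and base change -/
theorem pull_fwd {A B : Type} [CommRing A] [CommRing B] [IsNoetherianRing A] [IsNoetherianRing B]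
    (φ : A →+* B) (hφ : φ.Flat) [Flat (Sm φ)] :
    NI ((ge_equiv A).fwd.comp (pullE (Sm φ))) ((bcE φ hφ).comp (ge_equiv B).fwd) :=
  ⟨NatIso.ofComponents (fun M => ObjectProperty.isoMk _ (ObjectProperty.isoMk _
    ((ge_bc φ).app M.obj))) fun f => ObjectProperty.hom_ext _ (ObjectProperty.hom_ext _
      ((ge_bc φ).hom.naturality f.hom))⟩

variable (K : KInt.{u})

theorem eq_symm_apply (n : ℕ) {E E' : ExCat.{0}} (e : ExEquiv E E') (x : K.K n E') :
    (equivK K n e).symm x = K.map n e.bwd x := rfl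

theorem eq_apply (n : ℕ) {E E' : ExCat.{0}} (e : ExEquiv E E') (x : K.K n E) :
    equivK K n e x = K.map n e.fwd x := rfl

theorem bc_eq (n : ℕ) {A B : Type} [CommRing A] [CommRing B] [IsNoetherianRing A]
    [IsNoetherianRing B] (φ : A →+* B) (hφ : φ.Flat) [Flat (Sm φ)] (x : K.K n (Coh (Sp A))) :
    (equivK K n (ge_equiv B)).symm (K.map n (pullE (Sm φ)) x) =
      K.map n (bcE φ hφ) ((equivK K n (ge_equiv A)).symm x) := by
  obtain ⟨y, rfl⟩ := (equivK K n (ge_equiv A)).surjective x
  rw [AddEquiv.symm_apply_apply, AddEquiv.symm_apply_eq, eq_apply, eq_apply, ← K.map_comp,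
    ← K.map_comp]
  exact K.ni n _ _ (pull_fwd φ hφ) y

theorem res_eq (n : ℕ) {A B : Type} [CommRing A] [CommRing B] (φ : A →+* B) (hφ : φ.Finite)
    [IsFinite (Sm φ)] (x : K.K n (Coh (Sp B))) :
    (equivK K n (ge_equiv A)).symm (K.map n (pushE (Sm φ)) x) =
      K.map n (resE φ hφ) ((equivK K n (ge_equiv B)).symm x) := by
  rw [eq_symm_apply, eq_symm_apply, ← K.map_comp, ← K.map_comp]
  exact K.ni n _ _ (push_bwd φ hφ) x

/-- The groups `K_n` of the categories of finitely generated modules over noetherian rings are a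
G-theory of every length. -/
theorem thm_G (h : St_THY.{u}) (K : KInt.{u}) (N : WithTop ℤ) :
    ∃ (G : Pool.Agent.GTH.GTheory.{u} N)
      (e : ∀ (n : ℕ) (A : Type) [CommRing A], G.T n A ≃+ K.K n (MA A)),
      (∀ (n : ℕ) (A : Type) [CommRing A] (x : G.T (Int.negSucc n) A), x = 0) ∧
      (∀ (n : ℕ) (A B : Type) [CommRing A] [CommRing B] [IsNoetherianRing A] [IsNoetherianRing B]
        (φ : A →+* B) (hφ : φ.Flat) (x : G.T n A),
        e n B (G.pull n φ x) = K.map n (bcE φ hφ) (e n A x)) ∧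
      (∀ (n : ℕ) (A B : Type) [CommRing A] [CommRing B] (φ : A →+* B) (hφ : φ.Finite)
        (x : G.T n B), e n A (G.push n φ x) = K.map n (resE φ hφ) (e n B x)) := by
  obtain ⟨L, e, h1, h2, h3⟩ := h K
  have hz : ∀ (n : ℤ) (A : Type) [CommRing A] [IsNoetherianRing A] (x : (L.th n).T (Sp A)),
      R0.pu L n (Polynomial.constantCoeff : Polynomial A →+* A) x = 0 := by
    intro n A _ _ x
    haveI := R0.finite_Sm (cc_finite A)
    rw [R0.pu_eq]
    rcases n with n | n
    · apply (e n (Sp A[X])).injective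
      exact (h3 n _ _ _ x).trans ((push_zero K n A _).trans (map_zero _).symm)
    · exact h1 n _ _
  refine ⟨gth L N hz, fun n A _ => (e n (Sp A)).trans (equivK K n (ge_equiv A)).symm,
    fun n A _ x => h1 n _ x, fun n A B _ _ _ _ φ hφ x => ?_, fun n A B _ _ φ hφ x => ?_⟩
  · haveI := R0.flat_Sm hφ
    change (equivK K n (ge_equiv B)).symm (e n (Sp B) (R0.pl L n φ x)) = _
    rw [R0.pl_eq]
    exact (congrArg _ (h2 n _ _ _ x)).trans (bc_eq K n φ hφ _)
  · haveI := R0.finite_Sm hφ
    change (equivK K n (ge_equiv A)).symm (e n (Sp A) (R0.pu L n φ x)) = _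
    rw [R0.pu_eq]
    exact (congrArg _ (h3 n _ _ _ x)).trans (res_eq K n φ hφ _)

end Pool.Agent.KGT
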