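import Pool.Agent.KGT.WReg
import Pool.Agent.KGT.CubDeg
import Pool.Agent.NR.ZAll

/-!
# KGT: the theorem on smooth cubics, trilinear forms and Bass's question, assembly
-/

set_option autoImplicit false

noncomputable section

namespace Pool.Agent.KGT

open Pool.Agent.KQH AlgebraicGeometry Pool.Agent.KPR

theorem all_GenReg : St_GenReg := fun C _ _ _ => gen_reg C

theorem all_NR : St_NR := fun B _ _ hB n => Pool.Agent.NR.all_KA_Zres all_HOMK B hB n

/-- **(C)**, **(D)** -/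
theorem w_CD {𝒮 : (G : Type 1) → [AddCommGroup G] → Prop} (h𝒮 : W.SerreClass 𝒮) (M : ℕ) (m : ℕ)
    (hm : m = 0 ∨ m.Prime) :
    W.ZeroOne 𝒮 M (ZMod m) ∧ ∀ d : ℕ, (W.Level 𝒮 M (ZMod m) d).TFAE :=
  ⟨w_C h𝒮.serre m hm (fun n => h𝒮.fg _ (base_all all_NR m hm n)) M,
    w_D' all_NR all_GenReg h𝒮 M m hm⟩

end Pool.Agent.KGT
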