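import Pool.Agent.KTX.R0
import Pool.Agent.GTH.SFG
import Pool.Agent.KIN.H2

/-!
# KGT: from affine schemes to all schemes, for Serre classes
-/

set_option autoImplicit false
set_option linter.style.haveILetI false

noncomputable section

namespace Pool.Agent.KGT

open CategoryTheory Function AlgebraicGeometry TopologicalSpace Pool.Agent.KTX Pool.Agent.GTH
open Pool.Agent.KIN (h2_noeth)

universe u

/-- isomorphic schemes -/
theorem th_iso (T : STh.{u}) {X Y : Scheme.{0}} [IsNoetherian X] [IsNoetherian Y] (e : X ≅ Y) :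
    Nonempty (T.T Y ≃+ T.T X) :=
  ⟨{ T.pull e.hom with
    invFun := T.pull e.inv
    left_inv := fun x => by
      change T.pull e.inv (T.pull e.hom x) = x
      rw [← T.pull_comp]
      refine (R0.pull_congr T e.inv_hom_id x).trans (T.pull_id Y x)
    right_inv := fun x => by
      change T.pull e.hom (T.pull e.inv x) = x
      rw [← T.pull_comp]
      refine (R0.pull_congr T e.hom_inv_id x).trans (T.pull_id X x) }⟩

/-- an affine scheme of finite type over `k` is the spectrum of a finitely generated algebra -/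
theorem aff_alg {k : Type} [CommRing k] {X : Scheme.{0}} [IsAffine X] (f : X ⟶ Sp k)
    [LocallyOfFiniteType f] :
    ∃ (C : Type) (_ : CommRing C) (_ : Algebra k C), Algebra.FiniteType k C ∧
      Nonempty (X ≅ Sp C) := by
  let g : Sp Γ(X, ⊤) ⟶ Sp k := X.isoSpec.inv ≫ f
  obtain ⟨φ, hφ⟩ : ∃ φ : k →+* Γ(X, ⊤), Sm φ = g :=
    ⟨(Spec.preimage g).hom, Spec.map_preimage g⟩
  have h1 : LocallyOfFiniteType g := inferInstance
  refine ⟨Γ(X, ⊤), inferInstance, φ.toAlgebra, ?_, ⟨X.isoSpec⟩⟩
  rw [← hφ] at h1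
  have h2 : φ.FiniteType := by
    have := (HasRingHomProperty.Spec_iff (P := @LocallyOfFiniteType)).1 h1
    exact this
  exact h2

theorem sch (L : LThy.{u}) {𝒮 : (G : Type u) → [AddCommGroup G] → Prop} (h𝒮 : Serre 𝒮)
    (k : Type) [CommRing k] [IsNoetherianRing k] (n : ℤ)
    (h : ∀ (C : Type) [CommRing C] [Algebra k C] [Algebra.FiniteType k C], 𝒮 ((L.th n).T (Sp C)))
    (X : Scheme.{0}) (f : X ⟶ Sp k) [LocallyOfFiniteType f] [QuasiCompact f] :
    𝒮 ((L.th n).T X) := by
  have hX : IsNoetherian X :=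
    { __ := LocallyOfFiniteType.isLocallyNoetherian f
      toCompactSpace := QuasiCompact.compactSpace_of_compactSpace f }
  have key : ∀ C : Closeds X, ∀ (Z : Scheme.{0}) (i : Z ⟶ X) [IsClosedImmersion i],
      Set.range i = (C : Set X) → 𝒮 ((L.th n).T Z) := by
    intro C
    induction C using WellFoundedLT.induction with
    | ind C ih =>
    intro Z i _ hC
    have hZ : IsNoetherian Z := h2_noeth i
    rcases isEmpty_or_nonempty Z with hem | ⟨⟨z⟩⟩
    · have : Subsingleton ((L.th n).T Z) :=
        ⟨fun x y => (R0.empty (L.th n) Z hem x).trans (R0.empty (L.th n) Z hem y).symm⟩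
      exact h𝒮.zero _
    obtain ⟨W, hW, hzW, -⟩ := exists_isAffineOpen_mem_and_subset (x := z) (U := ⊤) trivial
    have hWa : IsAffine W.toScheme := hW
    have hWn : IsNoetherian W.toScheme := { }
    let j : W.toScheme ⟶ Z := W.ι
    let C0 : Closeds Z := ⟨(W : Set Z)ᶜ, W.isOpen.isClosed_compl⟩
    let I : Z.IdealSheafData := Scheme.IdealSheafData.vanishingIdeal C0
    let i' : I.subscheme ⟶ Z := I.subschemeι
    have hi' : Set.range i' = (W : Set Z)ᶜ := by
      change Set.range I.subschemeι = _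
      rw [Scheme.IdealSheafData.range_subschemeι,
        Scheme.IdealSheafData.coe_support_vanishingIdeal]
      rfl
    have hij : Set.range i' = (Set.range j)ᶜ := by
      rw [hi']
      change _ = (Set.range W.ι)ᶜ
      rw [Scheme.Opens.range_ι]
    let C' : Closeds X := ⟨Set.range (i' ≫ i), (i' ≫ i).isClosedEmbedding.isClosed_range⟩
    have hlt : C' < C := by
      refine lt_of_le_of_ne ?_ ?_
      · rintro _ ⟨x, rfl⟩
        rw [Scheme.Hom.comp_apply]
        change i (i' x) ∈ (C : Set X)
        rw [← hC]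
        exact ⟨_, rfl⟩
      · intro he
        have h1 : i z ∈ (C' : Set X) := by
          rw [he, ← hC]
          exact ⟨z, rfl⟩
        obtain ⟨x, hx⟩ := h1
        rw [Scheme.Hom.comp_apply] at hx
        have h2 := i.isClosedEmbedding.injective hx
        have h3 : z ∈ Set.range i' := ⟨x, h2⟩
        rw [hi'] at h3
        exact h3 hzW
    have h1 : 𝒮 ((L.th n).T I.subscheme) := ih C' hlt I.subscheme (i' ≫ i) rfl
    have h2 : 𝒮 ((L.th n).T W.toScheme) := by
      obtain ⟨D, _, _, hD, ⟨e⟩⟩ := aff_alg (j ≫ i ≫ f)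
      have hDn : IsNoetherianRing D := Algebra.FiniteType.isNoetherianRing k D
      obtain ⟨e'⟩ := th_iso (L.th n) e
      exact (h𝒮.of_bij e'.toAddMonoidHom e'.bijective).1 (h D)
    exact h𝒮.exact _ _ _ ((L.th n).push i') ((L.th n).pull j)
      (fun x => ⟨(L.th n).ex i' j hij x, by
        rintro ⟨y, rfl⟩
        exact (L.th n).ex0 i' j hij y⟩) h1 h2
  exact key ⊤ X (𝟙 X) (by simp)

end Pool.Agent.KGT
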