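import Mathlib

/-!
# KGT: quotients of regular rings by one equation
-/

set_option autoImplicit false

noncomputable section

namespace Pool.Agent.KGT

open Function IsLocalRing

/-- a vector in a finite dimensional space is a member of a spanning set with `dim` elements -/
theorem exists_span {κ V : Type} [Field κ] [AddCommGroup V] [Module κ V] [FiniteDimensional κ V]
    (v : V) (hv : v ≠ 0) : ∃ b : Set V, v ∈ b ∧ b.Finite ∧ Submodule.span κ b = ⊤ ∧
      b.ncard = Module.finrank κ V := by
  classical
  have h0 : LinearIndepOn κ id {v} := (linearIndepOn_singleton_iff (R := κ) (v := id)).2 hv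
  obtain ⟨b, -, hb, hb1, hb2⟩ := exists_linearIndepOn_id_extension h0 (Set.subset_univ _)
  have hs : Submodule.span κ b = ⊤ := by
    rw [eq_top_iff]
    intro x _
    exact hb1 (Set.mem_univ x)
  have hf : b.Finite := hb2.setFinite
  refine ⟨b, hb rfl, hf, hs, ?_⟩
  haveI := hf.fintype
  have h1 := finrank_span_set_eq_card (R := κ) hb2
  rw [hs, finrank_top] at h1
  rw [h1, Set.ncard_eq_toFinset_card']

/-- a regular local ring modulo an element of `m \ m²` is regular -/
theorem reg_local {R : Type} [CommRing R] [IsRegularLocalRing R] (f : R)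
    (hf : f ∈ maximalIdeal R) (hf2 : f ∉ maximalIdeal R ^ 2) :
    IsRegularLocalRing (R ⧸ Ideal.span {f}) := by
  classical
  have hne : Ideal.span {f} ≠ ⊤ := by
    intro h
    have h1 : Ideal.span {f} ≤ maximalIdeal R := (Ideal.span_singleton_le_iff_mem _).2 hf
    rw [h, top_le_iff] at h1
    exact (maximalIdeal.isMaximal R).ne_top h1
  haveI : Nontrivial (R ⧸ Ideal.span {f}) := Ideal.Quotient.nontrivial_iff.2 hne
  haveI : IsLocalRing (R ⧸ Ideal.span {f}) :=
    IsLocalRing.of_surjective' (Ideal.Quotient.mk (Ideal.span {f})) Ideal.Quotient.mk_surjective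
  apply IsRegularLocalRing.of_spanFinrank_maximalIdeal_le
  let F : maximalIdeal R := ⟨f, hf⟩
  have hv : (maximalIdeal R).toCotangent F ≠ 0 := fun h =>
    hf2 ((Ideal.toCotangent_eq_zero _ _).1 h)
  obtain ⟨b, hvb, hbf, hspan, hcard⟩ := exists_span (κ := ResidueField R)
    (V := CotangentSpace R) _ hv
  rw [← spanFinrank_maximalIdeal_eq_finrank_cotangentSpace] at hcard
  -- lifts
  let g : CotangentSpace R → maximalIdeal R := fun w =>
    if w = (maximalIdeal R).toCotangent F then F else
      surjInv (maximalIdeal R).toCotangent_surjective w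
  have hg : ∀ w, (maximalIdeal R).toCotangent (g w) = w := by
    intro w
    by_cases h : w = (maximalIdeal R).toCotangent F
    · change (maximalIdeal R).toCotangent (if _ then _ else _) = _
      rw [if_pos h, h]
    · change (maximalIdeal R).toCotangent (if _ then _ else _) = _
      rw [if_neg h]
      exact surjInv_eq _ _
  have hgF : g ((maximalIdeal R).toCotangent F) = F := if_pos rfl
  have h1 : Submodule.span R (g '' b) = ⊤ := by
    rw [← CotangentSpace.span_image_eq_top_iff, ← Set.image_comp]
    have : (fun w => (maximalIdeal R).toCotangent (g w)) '' b = b := by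
      simp only [hg, Set.image_id']
    exact (congrArg _ this).trans hspan
  have h2 : Submodule.span R (Subtype.val '' (g '' b)) = maximalIdeal R := by
    have h3 := congrArg (Submodule.map (maximalIdeal R).subtype) h1
    rw [Submodule.map_span, Submodule.map_top, Submodule.range_subtype] at h3
    exact h3
  let π := Ideal.Quotient.mk (Ideal.span {f})
  let c : Set (CotangentSpace R) := b \ {(maximalIdeal R).toCotangent F}
  have hcf : c.Finite := hbf.subset Set.diff_subset
  let S : Set (R ⧸ Ideal.span {f}) := (fun w => π (g w).1) '' c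
  have hS : maximalIdeal (R ⧸ Ideal.span {f}) = Ideal.span S := by
    apply le_antisymm
    · intro y hy
      obtain ⟨x, rfl⟩ := Ideal.Quotient.mk_surjective y
      have hx : x ∈ maximalIdeal R := by
        by_contra hx
        have hu : IsUnit x := by
          by_contra hu
          exact hx ((mem_maximalIdeal x).2 hu)
        exact (mem_maximalIdeal _).1 hy (hu.map π)
      rw [← h2] at hx
      have h4 : Ideal.span (Subtype.val '' (g '' b)) ≤ (Ideal.span S).comap π := by
        rw [Ideal.span_le]
        rintro _ ⟨_, ⟨w, hw, rfl⟩, rfl⟩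
        change π (g w).1 ∈ Ideal.span S
        by_cases h : w = (maximalIdeal R).toCotangent F
        · have h5 : (g w).1 = f := by rw [h, hgF]
          rw [h5]
          have h6 : π f = 0 := Ideal.Quotient.eq_zero_iff_mem.2 (Ideal.mem_span_singleton_self f)
          rw [h6]
          exact Ideal.zero_mem _
        · exact Ideal.subset_span ⟨w, ⟨hw, h⟩, rfl⟩
      exact h4 hx
    · rw [Ideal.span_le]
      rintro _ ⟨w, -, rfl⟩
      change π (g w).1 ∈ maximalIdeal _
      rw [mem_maximalIdeal]
      intro hu
      obtain ⟨y, hy⟩ := hu.exists_right_inv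
      obtain ⟨y, rfl⟩ := Ideal.Quotient.mk_surjective y
      have h7 : (g w).1 * y - 1 ∈ Ideal.span {f} := by
        rw [← Ideal.Quotient.eq_zero_iff_mem, map_sub, map_mul, map_one]
        exact sub_eq_zero.2 hy
      have h8 : Ideal.span {f} ≤ maximalIdeal R := (Ideal.span_singleton_le_iff_mem _).2 hf
      have h9 : (1 : R) ∈ maximalIdeal R := by
        have := (maximalIdeal R).sub_mem ((maximalIdeal R).mul_mem_right y (g w).2) (h8 h7)
        rwa [sub_sub_cancel] at this
      exact (maximalIdeal.isMaximal R).ne_top ((Ideal.eq_top_iff_one _).2 h9)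
  have h3 : (maximalIdeal (R ⧸ Ideal.span {f})).spanFinrank ≤ c.ncard := by
    rw [hS]
    exact (Submodule.spanFinrank_span_le_ncard_of_finite (hcf.image _)).trans
      (Set.ncard_image_le hcf)
  have h4 : c.ncard + 1 = (maximalIdeal R).spanFinrank := by
    rw [← hcard]
    exact Set.ncard_diff_singleton_add_one hvb hbf
  have h5 := ringKrullDim_le_ringKrullDim_quotient_add_card ({f} : Finset R) (by
    rw [Finset.coe_singleton, Set.singleton_subset_iff, SetLike.mem_coe,
      IsLocalRing.ringJacobson_eq_maximalIdeal]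
    exact hf)
  rw [Finset.card_singleton, Finset.coe_singleton, ← (isRegularLocalRing_iff R).1 inferInstance,
    ← h4, Nat.cast_add, Nat.cast_one] at h5
  have h6 : (c.ncard : WithBot ℕ∞) ≤ ringKrullDim (R ⧸ Ideal.span {f}) := by
    have h7 := h5
    generalize ringKrullDim (R ⧸ Ideal.span {f}) = x at h7 ⊢
    generalize c.ncard = a at h7 ⊢
    cases x with
    | bot =>
      rw [WithBot.bot_add] at h7
      exact absurd h7 (not_le_of_gt (WithBot.bot_lt_coe ((a : ℕ∞) + 1)))
    | coe x =>
      have h8 : ((a : ℕ∞) + 1 : ℕ∞) ≤ x + 1 := by exact_mod_cast h7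
      have h9 : (a : ℕ∞) ≤ x := (ENat.add_le_add_iff_right ENat.one_ne_top).1 h8
      exact_mod_cast h9
  exact le_trans (by exact_mod_cast h3) h6

/-- derivations and squares of ideals -/
theorem der_sq {R : Type} [CommRing R] (D : Derivation ℤ R R) (q : Ideal R) {x : R}
    (hx : x ∈ q ^ 2) : D x ∈ q := by
  rw [pow_two] at hx
  refine Submodule.mul_induction_on hx (fun a ha b hb => ?_) (fun a b ha hb => ?_)
  · rw [Derivation.leibniz]
    exact q.add_mem (q.mul_mem_right _ ha) (q.mul_mem_right _ hb)
  · rw [map_add]
    exact q.add_mem ha hb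

/-- a regular ring modulo one equation whose derivatives generate the unit ideal is regular -/
theorem reg_quot {R : Type} [CommRing R] [IsRegularRing R] (f : R) {ι : Type} [Fintype ι]
    (D : ι → Derivation ℤ R R) (c : ι → R) (g : R) (h : 1 = ∑ i, D i f * c i + g * f) :
    IsRegularRing (R ⧸ Ideal.span {f}) := by
  rw [isRegularRing_iff]
  intro p _
  let q : Ideal R := p.comap (Ideal.Quotient.mk (Ideal.span {f}))
  have hfq : f ∈ q := by
    change Ideal.Quotient.mk (Ideal.span {f}) f ∈ p
    rw [Ideal.Quotient.eq_zero_iff_mem.2 (Ideal.mem_span_singleton_self f)]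
    exact p.zero_mem
  let L := Localization.AtPrime q
  haveI : IsRegularLocalRing L := inferInstance
  let a := algebraMap R L
  have h1 : a f ∈ maximalIdeal L := by
    rw [← Localization.AtPrime.map_eq_maximalIdeal]
    exact Ideal.mem_map_of_mem _ hfq
  have h2 : a f ∉ maximalIdeal L ^ 2 := by
    intro hf
    rw [← Localization.AtPrime.map_eq_maximalIdeal, ← Ideal.map_pow,
      IsLocalization.algebraMap_mem_map_algebraMap_iff q.primeCompl] at hf
    obtain ⟨s, hs, hsf⟩ := hf
    have h3 : ∀ i, D i f ∈ q := by
      intro i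
      have h4 := der_sq (D i) q hsf
      rw [Derivation.leibniz, smul_eq_mul, smul_eq_mul] at h4
      have h5 : s * D i f ∈ q := by
        have := q.sub_mem h4 (q.mul_mem_right (D i s) hfq)
        rwa [add_sub_cancel_right] at this
      exact ((Ideal.IsPrime.mem_or_mem (inferInstance : q.IsPrime) h5).resolve_left hs)
    have h6 : (1 : R) ∈ q := by
      rw [h]
      exact q.add_mem (q.sum_mem fun i _ => q.mul_mem_right _ (h3 i)) (q.mul_mem_left _ hfq)
    exact (inferInstance : q.IsPrime).ne_top ((Ideal.eq_top_iff_one _).2 h6)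
  haveI h3 := reg_local (a f) h1 h2
  let π := Ideal.Quotient.mk (Ideal.span {f})
  let ρ := Ideal.Quotient.mk (Ideal.span {a f})
  let b : (R ⧸ Ideal.span {f}) →+* (L ⧸ Ideal.span {a f}) := Ideal.Quotient.lift _ (ρ.comp a) (by
    intro x hx
    obtain ⟨y, rfl⟩ := Ideal.mem_span_singleton'.1 hx
    rw [RingHom.comp_apply, map_mul, Ideal.Quotient.eq_zero_iff_mem]
    exact Ideal.mul_mem_left _ _ (Ideal.mem_span_singleton_self _))
  letI : Algebra (R ⧸ Ideal.span {f}) (L ⧸ Ideal.span {a f}) := b.toAlgebra
  haveI : IsLocalization (q.primeCompl.map π) (L ⧸ Ideal.span {a f}) :=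
    IsLocalization.of_surjective q.primeCompl L π Ideal.Quotient.mk_surjective ρ
      Ideal.Quotient.mk_surjective rfl (by
        rw [Ideal.mk_ker, Ideal.mk_ker, Ideal.map_span, Set.image_singleton])
  have h4 : q.primeCompl.map π = p.primeCompl := by
    ext x
    constructor
    · rintro ⟨y, hy, rfl⟩
      exact hy
    · intro hx
      obtain ⟨y, rfl⟩ := Ideal.Quotient.mk_surjective x
      exact ⟨y, hx, rfl⟩
  haveI : IsLocalization p.primeCompl (L ⧸ Ideal.span {a f}) := h4 ▸ this
  exact IsRegularLocalRing.of_ringEquiv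
    (IsLocalization.algEquiv p.primeCompl (L ⧸ Ideal.span {a f})
      (Localization.AtPrime p)).toRingEquiv

end Pool.Agent.KGT
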