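import Pool.Agent.KGT.Reg

/-!
# KGT: generic regularity

Standard étale algebras over regular rings are regular; an algebra of finite presentation over a
regular ring which is smooth at a prime is regular in a neighbourhood of it; a domain of finite type
over `ℤ` is regular after inverting one element.
-/

set_option autoImplicit false
set_option linter.style.haveILetI false

noncomputable section

namespace Pool.Agent.KGT

open Function IsLocalRing

/-- a regular ring modulo one equation is regular at the primes where a derivative does not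
vanish -/
theorem reg_quot_at {R : Type} [CommRing R] [IsRegularRing R] (f : R) (D : Derivation ℤ R R)
    (p : Ideal (R ⧸ Ideal.span {f})) [p.IsPrime]
    (hD : D f ∉ p.comap (Ideal.Quotient.mk (Ideal.span {f}))) :
    IsRegularLocalRing (Localization.AtPrime p) := by
  let q : Ideal R := p.comap (Ideal.Quotient.mk (Ideal.span {f}))
  have hfq : f ∈ q := by
    change Ideal.Quotient.mk (Ideal.span {f}) f ∈ p
    rw [Ideal.Quotient.eq_zero_iff_mem.2 (Ideal.mem_span_singleton_self f)]
    exact p.zero_mem
  let L := Localization.AtPrime q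
  haveI : IsRegularLocalRing L := inferInstance
  let a := algebraMap R L
  have h1 : a f ∈ maximalIdeal L := by
    rw [← Localization.AtPrime.map_eq_maximalIdeal]
    exact Ideal.mem_map_of_mem _ hfq
  have h2 : a f ∉ maximalIdeal L ^ 2 := by
    intro hf
    rw [← Localization.AtPrime.map_eq_maximalIdeal, ← Ideal.map_pow,
      IsLocalization.algebraMap_mem_map_algebraMap_iff q.primeCompl] at hf
    obtain ⟨s, hs, hsf⟩ := hf
    have h4 := der_sq D q hsf
    rw [Derivation.leibniz, smul_eq_mul, smul_eq_mul] at h4
    have h5 : s * D f ∈ q := by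
      have := q.sub_mem h4 (q.mul_mem_right (D s) hfq)
      rwa [add_sub_cancel_right] at this
    exact hD ((Ideal.IsPrime.mem_or_mem (inferInstance : q.IsPrime) h5).resolve_left hs)
  haveI h3 := reg_local (a f) h1 h2
  let π := Ideal.Quotient.mk (Ideal.span {f})
  let ρ := Ideal.Quotient.mk (Ideal.span {a f})
  let b : (R ⧸ Ideal.span {f}) →+* (L ⧸ Ideal.span {a f}) := Ideal.Quotient.lift _ (ρ.comp a) (by
    intro x hx
    obtain ⟨y, rfl⟩ := Ideal.mem_span_singleton'.1 hx
    rw [RingHom.comp_apply, map_mul, Ideal.Quotient.eq_zero_iff_mem]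
    exact Ideal.mul_mem_left _ _ (Ideal.mem_span_singleton_self _))
  letI : Algebra (R ⧸ Ideal.span {f}) (L ⧸ Ideal.span {a f}) := b.toAlgebra
  haveI : IsLocalization (q.primeCompl.map π) (L ⧸ Ideal.span {a f}) :=
    IsLocalization.of_surjective q.primeCompl L π Ideal.Quotient.mk_surjective ρ
      Ideal.Quotient.mk_surjective rfl (by
        rw [Ideal.mk_ker, Ideal.mk_ker, Ideal.map_span, Set.image_singleton])
  have h4 : q.primeCompl.map π = p.primeCompl := by
    ext x
    constructor
    · rintro ⟨y, hy, rfl⟩
      exact hy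
    · intro hx
      obtain ⟨y, rfl⟩ := Ideal.Quotient.mk_surjective x
      exact ⟨y, hx, rfl⟩
  haveI : IsLocalization p.primeCompl (L ⧸ Ideal.span {a f}) := h4 ▸ this
  exact IsRegularLocalRing.of_ringEquiv
    (IsLocalization.algEquiv p.primeCompl (L ⧸ Ideal.span {a f})
      (Localization.AtPrime p)).toRingEquiv

/-- standard étale algebras over regular rings -/
theorem reg_std {R : Type} [CommRing R] [IsRegularRing R] (P : StandardEtalePair R) :
    IsRegularRing P.Ring := by
  let S := AdjoinRoot P.f
  let Sg := Localization.Away (AdjoinRoot.mk P.f P.g)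
  haveI : IsNoetherianRing (Polynomial R) := inferInstance
  haveI : IsNoetherianRing (AdjoinRoot P.f) :=
    isNoetherianRing_of_surjective (Polynomial R) (AdjoinRoot P.f) (AdjoinRoot.mk P.f)
      AdjoinRoot.mk_surjective
  haveI : IsNoetherianRing Sg :=
    IsLocalization.isNoetherianRing (Submonoid.powers (AdjoinRoot.mk P.f P.g)) Sg inferInstance
  have key : IsRegularRing Sg := by
    rw [isRegularRing_iff]
    intro p _
    let p' : Ideal (AdjoinRoot P.f) := p.comap (algebraMap (AdjoinRoot P.f) Sg)
    haveI hp' : p'.IsPrime := Ideal.comap_isPrime (algebraMap (AdjoinRoot P.f) Sg) p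
    have h1 : IsRegularLocalRing (Localization.AtPrime p') := by
      refine @reg_quot_at (Polynomial R) _ _ P.f
        ((Polynomial.derivative' (R := R)).restrictScalars ℤ) p' hp' ?_
      intro hd
      obtain ⟨p₁, p₂, n, e⟩ := P.cond
      have h2 : AdjoinRoot.mk P.f (Polynomial.derivative P.f) ∈ p' := hd
      have h3 : AdjoinRoot.mk P.f (P.g ^ n) ∈ p' := by
        rw [← e, map_add, map_mul, map_mul, AdjoinRoot.mk_self, zero_mul, add_zero]
        exact p'.mul_mem_right _ h2
      rw [map_pow] at h3
      have h4 : AdjoinRoot.mk P.f P.g ∈ p' := Ideal.IsPrime.mem_of_pow_mem inferInstance n h3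
      have h5 : IsUnit (algebraMap (AdjoinRoot P.f) Sg (AdjoinRoot.mk P.f P.g)) :=
        IsLocalization.Away.algebraMap_isUnit _
      exact (inferInstance : p.IsPrime).ne_top (Ideal.eq_top_of_isUnit_mem p h4 h5)
    haveI : IsLocalization.AtPrime (Localization.AtPrime p) p' :=
      IsLocalization.isLocalization_isLocalization_atPrime_isLocalization
        (Submonoid.powers (AdjoinRoot.mk P.f P.g)) (Localization.AtPrime p) p
    exact IsRegularLocalRing.of_ringEquiv
      (IsLocalization.algEquiv p'.primeCompl (Localization.AtPrime p')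
        (Localization.AtPrime p)).toRingEquiv
  exact IsRegularRing.of_ringEquiv P.equivAwayAdjoinRoot.symm.toRingEquiv

/-- smooth at a prime over a regular ring -/
theorem reg_smooth_at {R A : Type} [CommRing R] [IsRegularRing R] [CommRing A] [Algebra R A]
    [Algebra.FinitePresentation R A] (p : Ideal A) [p.IsPrime] [Algebra.IsSmoothAt R p] :
    ∃ f : A, f ∉ p ∧ IsRegularRing (Localization.Away f) := by
  obtain ⟨f, hf, n, _, _, h⟩ := Algebra.IsSmoothAt.exists_isStandardEtale_mvPolynomial (R := R)
    (p := p)
  obtain ⟨P⟩ := h.nonempty_standardEtalePresentation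
  haveI := reg_std P.P
  exact ⟨f, hf, IsRegularRing.of_ringEquiv P.equivRing.symm.toRingEquiv⟩

/-- the generic point of a domain -/
theorem smooth_bot {R C : Type} (L : Type) [CommRing R] [CommRing C] [IsDomain C] [Algebra R C]
    [CommRing L] [Algebra C L] [IsFractionRing C L] [Algebra R L] [IsScalarTower R C L]
    [h : Algebra.FormallySmooth R L] : Algebra.IsSmoothAt R (⊥ : Ideal C) := by
  have h0 : (⊥ : Ideal C).primeCompl = nonZeroDivisors C := by
    ext x
    rw [mem_nonZeroDivisors_iff_ne_zero]
    exact Iff.rfl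
  haveI : IsLocalization (nonZeroDivisors C) (Localization.AtPrime (⊥ : Ideal C)) := by
    rw [← h0]
    infer_instance
  exact Algebra.FormallySmooth.of_equiv ((IsLocalization.algEquiv (nonZeroDivisors C)
    L (Localization.AtPrime (⊥ : Ideal C))).restrictScalars R)

theorem gen_reg_aux (C L : Type) [CommRing C] [IsDomain C] [Algebra.FiniteType ℤ C] [Field L]
    [Algebra C L] [IsFractionRing C L] :
    ∃ s : C, s ≠ 0 ∧ IsRegularRing (Localization.Away s) := by
  haveI : Algebra.EssFiniteType C L := Algebra.EssFiniteType.of_isLocalization _ (nonZeroDivisors C)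
  obtain ⟨p, hp⟩ := CharP.exists C
  rcases CharP.char_is_prime_or_zero C p with h | h
  · haveI : Fact p.Prime := ⟨h⟩
    letI : Algebra (ZMod p) C := ZMod.algebra C p
    letI : Algebra (ZMod p) L := ((algebraMap C L).comp (algebraMap (ZMod p) C)).toAlgebra
    haveI : IsScalarTower (ZMod p) C L := IsScalarTower.of_algebraMap_eq' rfl
    haveI : Algebra.FiniteType (ZMod p) C :=
      Algebra.FiniteType.of_restrictScalars_finiteType ℤ (ZMod p) C
    haveI : Algebra.FinitePresentation (ZMod p) C :=
      Algebra.FinitePresentation.of_finiteType.1 inferInstance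
    haveI : Algebra.EssFiniteType (ZMod p) L := Algebra.EssFiniteType.comp (ZMod p) C L
    haveI : Algebra.FormallySmooth (ZMod p) L := inferInstance
    haveI := smooth_bot (R := ZMod p) (C := C) L
    obtain ⟨f, hf, h1⟩ := reg_smooth_at (R := ZMod p) (⊥ : Ideal C)
    exact ⟨f, fun h2 => hf (h2 ▸ Ideal.zero_mem _), h1⟩
  · subst h
    haveI : CharZero C := CharP.charP_to_charZero C
    haveI : CharZero L := charZero_of_injective_algebraMap (IsFractionRing.injective C L)
    haveI : Algebra.FinitePresentation ℤ C :=
      Algebra.FinitePresentation.of_finiteType.1 inferInstance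
    haveI : Algebra.EssFiniteType ℤ L := Algebra.EssFiniteType.comp ℤ C L
    haveI : Algebra.EssFiniteType ℚ L := Algebra.EssFiniteType.of_comp ℤ ℚ L
    haveI : Algebra.FormallySmooth ℚ L := inferInstance
    haveI : Algebra.FormallySmooth ℤ ℚ := Algebra.FormallySmooth.of_isLocalization
      (nonZeroDivisors ℤ)
    haveI : Algebra.FormallySmooth ℤ L := Algebra.FormallySmooth.comp ℤ ℚ L
    haveI := smooth_bot (R := ℤ) (C := C) L
    obtain ⟨f, hf, h1⟩ := reg_smooth_at (R := ℤ) (⊥ : Ideal C)
    exact ⟨f, fun h2 => hf (h2 ▸ Ideal.zero_mem _), h1⟩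

/-- **generic regularity** -/
theorem gen_reg (C : Type) [CommRing C] [IsDomain C] [Algebra.FiniteType ℤ C] :
    ∃ s : C, s ≠ 0 ∧ IsRegularRing (Localization.Away s) := gen_reg_aux C (FractionRing C)

end Pool.Agent.KGT
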