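import Pool.Agent.GTH.Fin

/-!
# KGT: G-theories of infinite length: the equivalences in all degrees
-/

set_option autoImplicit false
set_option linter.unusedSectionVars false

noncomputable section

namespace Pool.Agent.KGT

open Function Pool.Agent.GTH
open BassH (triF cubF TriRing CubRing CompRing ResDimLE)

universe u

/-! ### localization at a product of variables -/

/-- localization of `A[X]` away from `s X` -/
theorem loc_sX {A V W : Type} [CommRing A] [CommRing V] [Algebra A V] (s : A)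
    [IsLocalization.Away s V] [CommRing W] [Algebra (Polynomial V) W]
    [IsLocalization.Away (Polynomial.X : Polynomial V) W] :
    @IsLocalization.Away (Polynomial A) _ (Polynomial.C s * Polynomial.X) W _
      ((algebraMap (Polynomial V) W).comp (Polynomial.mapRingHom (algebraMap A V))).toAlgebra := by
  letI a1 : Algebra (Polynomial A) (Polynomial V) :=
    (Polynomial.mapRingHom (algebraMap A V)).toAlgebra
  haveI h1 : IsLocalization.Away (Polynomial.C s : Polynomial A) (Polynomial V) := by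
    have h := Polynomial.isLocalization (Submonoid.powers s) V
    have e : (Submonoid.powers s).map (Polynomial.C : A →+* Polynomial A) =
        Submonoid.powers (Polynomial.C s) := Submonoid.map_powers _ _
    have h' : IsLocalization (Submonoid.powers (Polynomial.C s : Polynomial A)) (Polynomial V) := by
      rw [← e]
      exact h
    exact h'
  letI a2 : Algebra (Polynomial A) W :=
    ((algebraMap (Polynomial V) W).comp (Polynomial.mapRingHom (algebraMap A V))).toAlgebra
  haveI : IsScalarTower (Polynomial A) (Polynomial V) W := IsScalarTower.of_algebraMap_eq' rfl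
  have hX : algebraMap (Polynomial A) (Polynomial V) Polynomial.X = Polynomial.X := by
    change Polynomial.map _ Polynomial.X = _
    rw [Polynomial.map_X]
  haveI : IsLocalization.Away (algebraMap (Polynomial A) (Polynomial V) Polynomial.X) W := by
    rw [hX]
    infer_instance
  exact IsLocalization.Away.mul' (Polynomial V) W (Polynomial.C s) Polynomial.X

/-- localizations of isomorphic rings -/
theorem away_equiv {A B : Type} [CommRing A] [CommRing B] (e : A ≃+* B) (s : A) (t : B)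
    (h : e s = t) : Nonempty (Localization.Away s ≃+* Localization.Away t) := by
  refine ⟨IsLocalization.ringEquivOfRingEquiv (M := Submonoid.powers s)
    (T := Submonoid.powers t) _ _ e ?_⟩
  rw [← h]
  exact Submonoid.map_powers _ _

theorem opt_rename {k σ : Type} [CommRing k] (s : MvPolynomial σ k) :
    MvPolynomial.optionEquivLeft k σ (MvPolynomial.rename some s) = Polynomial.C s := by
  induction s using MvPolynomial.induction_on with
  | C a => simp
  | add p q hp hq => rw [map_add, map_add, hp, hq, map_add]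
  | mul_X p i hp => rw [map_mul, map_mul, hp, MvPolynomial.rename_X,
      MvPolynomial.optionEquivLeft_X_some, map_mul]

section

variable {G : (R : Type) → [CommRing R] → Prop} (hG : Cls G)

include hG

theorem strip_X {A : Type} [CommRing A] [IsNoetherianRing A] (s : A)
    (h : G (Localization.Away (Polynomial.C s * Polynomial.X : Polynomial A))) :
    G (Localization.Away s) := by
  let V := Localization.Away s
  let W := Localization.Away (Polynomial.X : Polynomial V)
  haveI hV : IsNoetherianRing V := noeth_away (V := V) s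
  haveI hW : IsNoetherianRing W := noeth_away (V := W) (Polynomial.X : Polynomial V)
  haveI hW' : IsNoetherianRing (Localization.Away (Polynomial.C s * Polynomial.X : Polynomial A)) :=
    noeth_away (Polynomial.C s * Polynomial.X : Polynomial A)
  have h1 := loc_sX (V := V) (W := W) s
  letI a2 : Algebra (Polynomial A) W :=
    ((algebraMap (Polynomial V) W).comp (Polynomial.mapRingHom (algebraMap A V))).toAlgebra
  haveI : IsLocalization.Away (Polynomial.C s * Polynomial.X : Polynomial A) W := h1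
  have e : Localization.Away (Polynomial.C s * Polynomial.X : Polynomial A) ≃+* W :=
    (IsLocalization.algEquiv (Submonoid.powers (Polynomial.C s * Polynomial.X : Polynomial A))
      (Localization.Away (Polynomial.C s * Polynomial.X : Polynomial A)) W).toRingEquiv
  exact hG.of_lau V W (hG.iso _ _ e h)

theorem strip_mv {k σ : Type} [CommRing k] [IsNoetherianRing k] [Finite σ]
    (s : MvPolynomial σ k)
    (h : G (Localization.Away (MvPolynomial.rename some s * MvPolynomial.X none :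
      MvPolynomial (Option σ) k))) : G (Localization.Away s) := by
  apply strip_X hG s
  obtain ⟨e⟩ := away_equiv (MvPolynomial.optionEquivLeft k σ).toRingEquiv
    (MvPolynomial.rename some s * MvPolynomial.X none)
    (Polynomial.C s * Polynomial.X) (by
      change MvPolynomial.optionEquivLeft k σ _ = _
      rw [map_mul, MvPolynomial.optionEquivLeft_X_none, opt_rename])
  haveI := noeth_away (V := Localization.Away (MvPolynomial.rename some s * MvPolynomial.X none :
      MvPolynomial (Option σ) k)) (MvPolynomial.rename some s * MvPolynomial.X none :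
      MvPolynomial (Option σ) k)
  haveI := noeth_away (V := Localization.Away (Polynomial.C s * Polynomial.X :
    Polynomial (MvPolynomial σ k))) (Polynomial.C s * Polynomial.X :
    Polynomial (MvPolynomial σ k))
  exact hG.iso _ _ e h

omit hG in
/-- the form `x₀ y z` -/
def tOne (k : Type) [CommRing k] (d : ℕ) : Fin (d + 1) → Fin 1 → Fin 1 → k :=
  fun i _ _ => if i = 0 then 1 else 0

omit hG in
theorem triF_tOne (k : Type) [CommRing k] (d : ℕ) : triF (tOne k d) =
    MvPolynomial.X (Sum.inl 0) * MvPolynomial.X (Sum.inr (Sum.inl 0)) *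
      MvPolynomial.X (Sum.inr (Sum.inr 0)) := by
  unfold triF
  rw [Finset.sum_eq_single 0]
  · simp [tOne]
  · intro i _ hi
    simp [tOne, hi]
  · intro hi
    exact absurd (Finset.mem_univ _) hi

omit hG in
theorem triF_tOne_ne (k : Type) [CommRing k] [Nontrivial k] (d : ℕ) : triF (tOne k d) ≠ 0 := by
  rw [triF_tOne]
  intro h0
  have h1 := congrArg (MvPolynomial.eval fun _ => (1 : k)) h0
  simp at h1

theorem strip_form' {k : Type} [CommRing k] [IsNoetherianRing k] (d : ℕ)
    (h : G (CompRing (tOne k d))) : G (MvPolynomial (Fin d) k) := by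
  let t := tOne k d
  have ht := triF_tOne k d
  let ε : Fin (d + 1) ⊕ Fin 1 ⊕ Fin 1 ≃ Option (Option (Option (Fin d))) :=
    { toFun := Sum.elim (fun i => Fin.cases (some (some none)) (fun j => some (some (some j))) i)
        (Sum.elim (fun _ => some none) fun _ => none)
      invFun := fun o => match o with
        | none => Sum.inr (Sum.inr 0)
        | some none => Sum.inr (Sum.inl 0)
        | some (some none) => Sum.inl 0
        | some (some (some j)) => Sum.inl j.succ
      left_inv := by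
        rintro (i | i | i)
        · refine Fin.cases rfl (fun j => rfl) i
        · rw [Subsingleton.elim i 0]
          rfl
        · rw [Subsingleton.elim i 0]
          rfl
      right_inv := by
        rintro (_ | _ | _ | j) <;> rfl }
  let s1 : MvPolynomial (Option (Fin d)) k := MvPolynomial.rename some 1 * MvPolynomial.X none
  let s2 : MvPolynomial (Option (Option (Fin d))) k :=
    MvPolynomial.rename some s1 * MvPolynomial.X none
  let s3 : MvPolynomial (Option (Option (Option (Fin d)))) k :=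
    MvPolynomial.rename some s2 * MvPolynomial.X none
  obtain ⟨e⟩ := away_equiv (MvPolynomial.renameEquiv k ε).toRingEquiv (triF t) s3 (by
    change MvPolynomial.renameEquiv k ε (triF t) = s3
    rw [ht, MvPolynomial.renameEquiv_apply, map_mul, map_mul, MvPolynomial.rename_X,
      MvPolynomial.rename_X, MvPolynomial.rename_X]
    simp only [s3, s2, s1, map_mul, map_one, one_mul, MvPolynomial.rename_X]
    rfl)
  haveI := noeth_away (V := CompRing t) (triF t)
  haveI := noeth_away (V := Localization.Away s3) s3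
  have h3 : G (Localization.Away s3) := hG.iso _ _ e h
  have h0 : G (Localization.Away (1 : MvPolynomial (Fin d) k)) :=
    strip_mv hG _ (strip_mv hG _ (strip_mv hG _ h3))
  haveI := noeth_away (V := Localization.Away (1 : MvPolynomial (Fin d) k))
    (1 : MvPolynomial (Fin d) k)
  have e1 : MvPolynomial (Fin d) k ≃ₐ[MvPolynomial (Fin d) k]
      Localization.Away (1 : MvPolynomial (Fin d) k) :=
    IsLocalization.atOne (MvPolynomial (Fin d) k) (Localization.Away (1 : MvPolynomial (Fin d) k))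
  exact hG.iso _ _ e1.symm.toRingEquiv h0

/-- the form `x₀ y z` -/
theorem strip_form {k : Type} [CommRing k] [IsNoetherianRing k] (d : ℕ)
    (h : ∀ t : Fin (d + 1) → Fin 1 → Fin 1 → k, triF t ≠ 0 → G (CompRing t))
    (hk : Nontrivial k) : G (MvPolynomial (Fin d) k) :=
  strip_form' hG d (h _ (triF_tOne_ne k d))

end

/-! ### all degrees -/

/-- all groups are in the class -/
def PA (𝒯 : GTheory.{u} ⊤) (𝒮 : (G : Type u) → [AddCommGroup G] → Prop) (R : Type)
    [CommRing R] : Prop := ∀ n : ℤ, 𝒮 (𝒯.T n R)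

section

variable (𝒯 : GTheory.{u} ⊤) {𝒮 : (G : Type u) → [AddCommGroup G] → Prop} (h𝒮 : Serre 𝒮)

theorem pa_iff (R : Type) [CommRing R] : PA 𝒯 𝒮 R ↔ ∀ M : ℤ, SFG 𝒯 𝒮 M R :=
  ⟨fun h _ n _ => h n, fun h n => h n n le_rfl⟩

include h𝒮

theorem cls_PA : Cls (fun R _ => PA 𝒯 𝒮 R) where
  iso R S _ _ _ _ e h := (pa_iff 𝒯 S).2 fun M => (cls_SFG 𝒯 h𝒮 M).iso R S e ((pa_iff 𝒯 R).1 h M)
  zero R _ _ := (pa_iff 𝒯 R).2 fun M => (cls_SFG 𝒯 h𝒮 M).zero R
  mv R _ _ σ _ h := (pa_iff 𝒯 _).2 fun M => (cls_SFG 𝒯 h𝒮 M).mv R σ ((pa_iff 𝒯 R).1 h M)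
  away R V _ _ _ _ s _ h h' := (pa_iff 𝒯 _).2 fun M =>
    (cls_SFG 𝒯 h𝒮 M).away R V s ((pa_iff 𝒯 R).1 h M) ((pa_iff 𝒯 _).1 h' M)
  of_away R V _ _ _ _ s _ h h' := (pa_iff 𝒯 _).2 fun M =>
    (cls_SFG 𝒯 h𝒮 M).of_away R V s ((pa_iff 𝒯 _).1 h M) ((pa_iff 𝒯 V).1 h' M)
  of_lau R V _ _ _ _ _ h := (pa_iff 𝒯 _).2 fun M =>
    (cls_SFG 𝒯 h𝒮 M).of_lau R V ((pa_iff 𝒯 V).1 h M)

theorem pa_mv (R : Type) [CommRing R] [IsNoetherianRing R] (σ : Type) [Finite σ]
    (h : PA 𝒯 𝒮 (MvPolynomial σ R)) : PA 𝒯 𝒮 R :=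
  (pa_iff 𝒯 R).2 fun M => (SFG.mv h𝒮 σ).2 ((pa_iff 𝒯 _).1 h M)

variable (k : Type) [CommRing k] [IsNoetherianRing k] (n : ℕ)

theorem base_aff (h : AffG (fun R _ => PA 𝒯 𝒮 R) k n) : PA 𝒯 𝒮 k :=
  (pa_iff 𝒯 k).2 fun M => sfg_base 𝒯 h𝒮 M n fun I => (pa_iff 𝒯 _).1 (h I) M

theorem base_tri (h : TriG (fun R _ => PA 𝒯 𝒮 R) k (n + 1)) : PA 𝒯 𝒮 k := by
  let t : Fin (n + 1) → Fin 0 → Fin 0 → k := fun _ _ _ => 0
  have ht : triF t = 0 := by
    unfold triF
    simp
  have h1 : PA 𝒯 𝒮 (TriRing t) := h 0 0 t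
  have e : TriRing t ≃+* MvPolynomial (Fin (n + 1) ⊕ Fin 0 ⊕ Fin 0) k :=
    (Ideal.quotEquivOfEq (by rw [ht]; simp)).trans (RingEquiv.quotientBot _)
  exact pa_mv 𝒯 h𝒮 k _ ((cls_PA 𝒯 h𝒮).iso _ _ e h1)

theorem base_cub (h : CubG (fun R _ => PA 𝒯 𝒮 R) k (n + 1)) : PA 𝒯 𝒮 k := by
  intro i
  let t : Fin (n + 1) → Fin 0 → Fin 0 → k := fun _ _ _ => 0
  obtain ⟨e⟩ := (cub_groups 𝒯 k t i).2 (WithTop.coe_lt_top i)
  exact h𝒮.of_surj ((AddMonoidHom.fst _ _).comp e.toAddMonoidHom)
    (Prod.fst_surjective.comp e.surjective) (h 0 0 t i)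

theorem base_comp (h : CompG (fun R _ => PA 𝒯 𝒮 R) k (n + 1)) : PA 𝒯 𝒮 k := by
  rcases subsingleton_or_nontrivial k with hk | hk
  · exact (cls_PA 𝒯 h𝒮).zero k
  · exact pa_mv 𝒯 h𝒮 k _ (strip_form (cls_PA 𝒯 h𝒮) n (fun t ht => h 1 1 t ht) hk)

/-- (2) to (5) are equivalent, all degrees -/
theorem tfae_all25 : List.TFAE [AffG (fun R _ => PA 𝒯 𝒮 R) k n,
    TriG (fun R _ => PA 𝒯 𝒮 R) k (n + 1), CubG (fun R _ => PA 𝒯 𝒮 R) k (n + 1),
    CompG (fun R _ => PA 𝒯 𝒮 R) k (n + 1)] := by
  have key : ∀ M : ℤ, PA 𝒯 𝒮 k → _ := fun M h0 =>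
    tfae_25 𝒯 h𝒮 (k := k) M (WithTop.coe_lt_top M) (fun i _ => h0 i) n
  tfae_have 1 → 2 := fun h b c t => (pa_iff 𝒯 _).2 fun M =>
    ((key M (base_aff 𝒯 h𝒮 k n h)).out 0 1 rfl rfl).1 (fun I => (pa_iff 𝒯 _).1 (h I) M) b c t
  tfae_have 2 → 4 := fun h b c t ht => (pa_iff 𝒯 _).2 fun M => by
    have h1 := ((key (M - 1) (base_tri 𝒯 h𝒮 k n h)).out 1 3 rfl rfl).1
      (fun b c t => (pa_iff 𝒯 _).1 (h b c t) (M - 1)) b c t ht
    rwa [sub_add_cancel] at h1
  tfae_have 4 → 3 := fun h b c t => (pa_iff 𝒯 _).2 fun M =>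
    ((key M (base_comp 𝒯 h𝒮 k n h)).out 3 2 rfl rfl).1
      (fun b c t ht => (pa_iff 𝒯 _).1 (h b c t ht) (M + 1)) b c t
  tfae_have 3 → 1 := fun h I => (pa_iff 𝒯 _).2 fun M =>
    ((key M (base_cub 𝒯 h𝒮 k n h)).out 2 0 rfl rfl).1
      (fun b c t => (pa_iff 𝒯 _).1 (h b c t) M) I
  tfae_finish

/-- (1) and (2), all degrees -/
theorem tfae_all12 (m : ℕ) (hm : m = 0 ∨ m.Prime) (d : ℕ) :
    ResG (fun R _ => PA 𝒯 𝒮 R) (ZMod m) d ↔ AffG (fun R _ => PA 𝒯 𝒮 R) (ZMod m) (d + 1) := by
  have hG := cls_PA 𝒯 h𝒮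
  exact ⟨fun h I => hG.dim1 m hm d (fun C _ _ _ hC => h C hC) I,
    fun h C _ _ _ hC => hG.dim2 m d h C hC⟩

/-- (1) to (5), all degrees -/
theorem tfae_all (m : ℕ) (hm : m = 0 ∨ m.Prime) (d : ℕ) :
    List.TFAE [ResG (fun R _ => PA 𝒯 𝒮 R) (ZMod m) d, AffG (fun R _ => PA 𝒯 𝒮 R) (ZMod m) (d + 1),
      TriG (fun R _ => PA 𝒯 𝒮 R) (ZMod m) (d + 2), CubG (fun R _ => PA 𝒯 𝒮 R) (ZMod m) (d + 2),
      CompG (fun R _ => PA 𝒯 𝒮 R) (ZMod m) (d + 2)] := by
  have hZ : IsNoetherianRing (ZMod m) := isNoetherianRing_of_surjective ℤ (ZMod m)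
    (Int.castRingHom (ZMod m)) (ZMod.ringHom_surjective _)
  exact List.tfae_cons_of_mem (List.mem_cons_self) |>.2 ⟨tfae_all12 𝒯 h𝒮 m hm d,
    tfae_all25 𝒯 h𝒮 (ZMod m) (d + 1)⟩

end

end Pool.Agent.KGT
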