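import Pool.Agent.KGT.Jac
import Pool.Agent.KGT.Reg
import Pool.Agent.KTX.Defs

/-!
# KGT: smooth hypersurfaces over regular domains are regular schemes
-/

set_option autoImplicit false

noncomputable section

namespace Pool.Agent.KGT

open Function IsLocalRing CategoryTheory AlgebraicGeometry Pool.Agent.KTX

theorem smooth_regular {k : Type} [CommRing k] [IsDomain k] [IsRegularRing k] {ι : Type}
    [Fintype ι] (f : MvPolynomial ι k)
    (h : Algebra.Smooth k (MvPolynomial ι k ⧸ Ideal.span {f})) :
    IsRegularRing (MvPolynomial ι k ⧸ Ideal.span {f}) := by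
  rcases jac f h with rfl | ⟨c, g, hc⟩
  · have e : MvPolynomial ι k ≃+* (MvPolynomial ι k ⧸ Ideal.span {(0 : MvPolynomial ι k)}) :=
      (RingEquiv.quotientBot _).symm.trans (Ideal.quotEquivOfEq (by simp))
    exact IsRegularRing.of_ringEquiv e
  · exact reg_quot f (fun i => (MvPolynomial.pderiv i).restrictScalars ℤ) c g hc

theorem sp_regular (A : Type) [CommRing A] [IsRegularRing A] (x : Sp A) :
    IsRegularLocalRing ((Sp A).presheaf.stalk x) :=
  IsRegularLocalRing.of_ringEquiv
    (Spec.stalkIso (CommRingCat.of A) x).symm.commRingCatIsoToRingEquiv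

end Pool.Agent.KGT
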