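import Pool.Agent.KGT.Asm
import Pool.Agent.KGT.Sch
import Pool.Agent.KGT.AllN
import Pool.Agent.KGT.RegS
import Pool.Agent.KPR.Sch
import Pool.Agent.KQG.KI

/-!
# KGT: Quillen's groups `K'_n(X)`: graded theory on schemes, G-theory on rings

From homotopy invariance `St_HOMK`.
-/

set_option autoImplicit false
set_option linter.style.haveILetI false

noncomputable section

namespace Pool.Agent.KGT

open CategoryTheory CategoryTheory.Limits Function Pool.Agent.KQ Pool.Agent.KQG AlgebraicGeometry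
open Pool.Agent.KTX Pool.Agent.KPR Pool.Agent.GTH
open BassH (triF cubF TriRing CubRing CompRing ResDimLE)

/-- Quillen's groups as a graded theory on schemes and a G-theory on rings -/
theorem real (h : St_HOMK) : ∃ (L : LThy.{1}) (G : GTheory.{1} ⊤),
    (∀ (n : ℕ) (X : Scheme.{0}), Nonempty ((L.th n).T X ≃+ KX n X)) ∧
    (∀ (n : ℤ) (A : Type) [CommRing A], Nonempty (G.T n A ≃+ (L.th n).T (Sp A))) ∧
    (∀ (n : ℕ) (X : Scheme.{0}) (x : (L.th (Int.negSucc n)).T X), x = 0) := by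
  obtain ⟨L, e, h1, h2, h3⟩ := all_THY (kInt h)
  have hz : ∀ (n : ℤ) (A : Type) [CommRing A] [IsNoetherianRing A] (x : (L.th n).T (Sp A)),
      R0.pu L n (Polynomial.constantCoeff : Polynomial A →+* A) x = 0 := by
    intro n A _ _ x
    haveI := R0.finite_Sm (cc_finite A)
    rw [R0.pu_eq]
    rcases n with n | n
    · apply (e n (Sp (Polynomial A))).injective
      exact (h3 n _ _ _ x).trans ((push_zero (kInt h) n A _).trans (map_zero _).symm)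
    · exact h1 n _ _
  exact ⟨L, gth L ⊤ hz, fun n X => ⟨(e n X).trans (kxEquiv n X).symm⟩,
    fun n A _ => ⟨AddEquiv.refl _⟩, h1⟩

section

variable {𝒮 : (G : Type 1) → [AddCommGroup G] → Prop} (h𝒮 : Serre 𝒮)

include h𝒮

theorem serre_iff {A B : Type 1} [AddCommGroup A] [AddCommGroup B] (e : A ≃+ B) : 𝒮 A ↔ 𝒮 B :=
  h𝒮.of_bij e.toAddMonoidHom e.bijective

end

/-- (A) every finitely generated algebra and one smooth affine cubic -/
theorem real_cubic (h : St_HOMK) (k : Type) [CommRing k] [IsNoetherianRing k] (B : Type)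
    [CommRing B] [Algebra k B] [Algebra.FiniteType k B] :
    ∃ (ι : Type) (_ : Fintype ι) (f : MvPolynomial ι k), f.totalDegree ≤ 3 ∧
      Algebra.Smooth k (MvPolynomial ι k ⧸ Ideal.span {f}) ∧
      ∀ n : ℕ, Nonempty (KX n (Sp (MvPolynomial ι k ⧸ Ideal.span {f})) ≃+
        KX n (Sp k) × KX n (Sp B)) := by
  obtain ⟨L, G, e1, e2, -⟩ := real h
  obtain ⟨ι, hι, f, hf, hs, -, hT⟩ := thm_A'.{1} k B
  refine ⟨ι, hι, f, hf, hs, fun n => ?_⟩
  obtain ⟨a⟩ := hT ⊤ G n (WithTop.coe_lt_top _)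
  have key : ∀ (A : Type) [CommRing A], Nonempty (G.T n A ≃+ KX n (Sp A)) := fun A _ => by
    obtain ⟨b⟩ := e2 n A
    obtain ⟨c⟩ := e1 n (Sp A)
    exact ⟨b.trans c⟩
  obtain ⟨b1⟩ := key (MvPolynomial ι k ⧸ Ideal.span {f})
  obtain ⟨b2⟩ := key k
  obtain ⟨b3⟩ := key B
  exact ⟨b1.symm.trans (a.trans (AddEquiv.prodCongr b2 b3))⟩

/-- (B) smooth affine cubics and all schemes, one degree -/
theorem real_sch (h : St_HOMK) {𝒮 : (G : Type 1) → [AddCommGroup G] → Prop} (h𝒮 : Serre 𝒮)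
    (k : Type) [CommRing k] [IsNoetherianRing k] (M : ℕ)
    (hc : ∀ (ι : Type) [Fintype ι] (f : MvPolynomial ι k), f.totalDegree ≤ 3 →
      Algebra.Smooth k (MvPolynomial ι k ⧸ Ideal.span {f}) →
      𝒮 (KX M (Sp (MvPolynomial ι k ⧸ Ideal.span {f}))))
    (X : Scheme.{0}) (f : X ⟶ Sp k) [LocallyOfFiniteType f] [QuasiCompact f] (n : ℕ)
    (hn : n ≤ M) : 𝒮 (KX n X) := by
  obtain ⟨L, G, e1, e2, -⟩ := real h
  have key : ∀ (n : ℕ) (A : Type) [CommRing A], 𝒮 (G.T n A) ↔ 𝒮 (KX n (Sp A)) := fun n A _ => by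
    obtain ⟨b⟩ := e2 n A
    obtain ⟨c⟩ := e1 n (Sp A)
    exact serre_iff h𝒮 (b.trans c)
  obtain ⟨c⟩ := e1 n X
  rw [← serre_iff h𝒮 c]
  refine sch L h𝒮 k n (fun C _ _ _ => ?_) X f
  obtain ⟨b⟩ := e2 n C
  rw [← serre_iff h𝒮 b]
  exact (thm_E k G h𝒮 M (WithTop.coe_lt_top _)).2 (fun ι _ g hg hs => (key M _).2
    (hc ι g hg hs)) C n (by exact_mod_cast hn)

/-- the classes of rings -/
theorem real_PA (h : St_HOMK) {𝒮 : (G : Type 1) → [AddCommGroup G] → Prop} (h𝒮 : Serre 𝒮) :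
    ∃ G : GTheory.{1} ⊤, (fun (R : Type) (i : CommRing R) => ∀ n : ℕ, 𝒮 (KX n (@Sp R i))) =
      fun (R : Type) (i : CommRing R) => @PA G 𝒮 R i := by
  obtain ⟨L, G, e1, e2, e3⟩ := real h
  refine ⟨G, ?_⟩
  funext R i
  apply propext
  constructor
  · intro hh n
    rcases n with n | n
    · obtain ⟨b⟩ := e2 n R
      obtain ⟨c⟩ := e1 n (Sp R)
      exact (serre_iff h𝒮 (b.trans c)).2 (hh n)
    · have : Subsingleton (G.T (Int.negSucc n) R) := by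
        obtain ⟨b⟩ := e2 (Int.negSucc n) R
        exact ⟨fun x y => b.injective ((e3 n _ _).trans (e3 n _ _).symm)⟩
      exact h𝒮.zero _
  · intro hh n
    obtain ⟨b⟩ := e2 n R
    obtain ⟨c⟩ := e1 n (Sp R)
    exact (serre_iff h𝒮 (b.trans c)).1 (hh n)

/-- (2) to (5), all degrees, noetherian rings -/
theorem real_all25 (h : St_HOMK) {𝒮 : (G : Type 1) → [AddCommGroup G] → Prop} (h𝒮 : Serre 𝒮)
    (k : Type) [CommRing k] [IsNoetherianRing k] (a : ℕ) :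
    List.TFAE [AffG (fun R _ => ∀ n : ℕ, 𝒮 (KX n (Sp R))) k a,
      TriG (fun R _ => ∀ n : ℕ, 𝒮 (KX n (Sp R))) k (a + 1),
      CubG (fun R _ => ∀ n : ℕ, 𝒮 (KX n (Sp R))) k (a + 1),
      CompG (fun R _ => ∀ n : ℕ, 𝒮 (KX n (Sp R))) k (a + 1)] := by
  obtain ⟨G, key⟩ := real_PA h h𝒮
  rw [key]
  exact tfae_all25 G h𝒮 k a

/-- (1) to (5), all degrees -/
theorem real_all (h : St_HOMK) {𝒮 : (G : Type 1) → [AddCommGroup G] → Prop} (h𝒮 : Serre 𝒮)
    (m : ℕ) (hm : m = 0 ∨ m.Prime) (d : ℕ) :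
    List.TFAE [ResG (fun R _ => ∀ n : ℕ, 𝒮 (KX n (Sp R))) (ZMod m) d,
      AffG (fun R _ => ∀ n : ℕ, 𝒮 (KX n (Sp R))) (ZMod m) (d + 1),
      TriG (fun R _ => ∀ n : ℕ, 𝒮 (KX n (Sp R))) (ZMod m) (d + 2),
      CubG (fun R _ => ∀ n : ℕ, 𝒮 (KX n (Sp R))) (ZMod m) (d + 2),
      CompG (fun R _ => ∀ n : ℕ, 𝒮 (KX n (Sp R))) (ZMod m) (d + 2)] := by
  obtain ⟨G, key⟩ := real_PA h h𝒮
  rw [key]
  exact tfae_all G h𝒮 m hm d

end Pool.Agent.KGT
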