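import Pool.Agent.KGT.NodeB

/-!
# KGT: one degree: the cubics `F = T² - T` and all finitely generated algebras
-/

set_option autoImplicit false
set_option linter.unusedSectionVars false

noncomputable section

namespace Pool.Agent.KGT

open Function Pool.Agent.GTH
open BassH (triF cubF cgj TriRing CubRing CompRing)

universe u

variable (𝒯 : GTheory.{u} ⊤) {𝒮 : (G : Type u) → [AddCommGroup G] → Prop} (h𝒮 : Serre 𝒮)

include h𝒮

section

variable {k : Type} [CommRing k] [IsNoetherianRing k]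

/-- one degree: the cubic and the linear system -/
theorem lin_of_cub1 {a b c : ℕ} (t : Fin a → Fin b → Fin c → k) (n : ℤ)
    (h : 𝒮 (𝒯.T n (CubRing t))) : 𝒮 (𝒯.T n (LinR t)) := by
  obtain ⟨e⟩ := (cub_groups 𝒯 k t n).2 (WithTop.coe_lt_top n)
  exact h𝒮.of_surj ((AddMonoidHom.snd _ _).comp e.toAddMonoidHom)
    (Prod.snd_surjective.comp e.surjective) h

/-- degree `n + 1` gives degree `n` -/
theorem lin_step {a b c : ℕ} (t : Fin a → Fin b → Fin c → k) (n : ℤ)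
    (h : 𝒮 (𝒯.T (n + 1) (LinR (tNd t)))) : 𝒮 (𝒯.T n (LinR t)) := by
  refine node 𝒯 h𝒮 n (WithTop.coe_lt_top n) ?_
  have h1 := 𝒯.pull_equiv_bijective (n + 1) (linNd t)
  exact (h𝒮.of_bij _ h1).1 h

/-- lower degrees -/
theorem lin_down (Q : ∀ a b c : ℕ, (Fin a → Fin b → Fin c → k) → Prop)
    (hQ : ∀ (a b c : ℕ) (t : Fin a → Fin b → Fin c → k), Q a b c t →
      Q (a + 1) (b + 1) (c + 1) (tNd t)) (M : ℤ)
    (h : ∀ (a b c : ℕ) (t : Fin a → Fin b → Fin c → k), Q a b c t → 𝒮 (𝒯.T M (LinR t)))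
    (n : ℤ) (hn : n ≤ M) :
    ∀ (a b c : ℕ) (t : Fin a → Fin b → Fin c → k), Q a b c t → 𝒮 (𝒯.T n (LinR t)) := by
  induction n, hn using Int.le_induction_down with
  | base => exact h
  | pred n hn ih =>
    intro a b c t ht
    refine lin_step 𝒯 h𝒮 t (n - 1) ?_
    rw [sub_add_cancel]
    exact ih _ _ _ _ (hQ a b c t ht)

/-- closed subschemes of affine spaces give all finitely generated algebras -/
theorem sfg_of_aff (M : ℤ) (h : ∀ (n : ℕ) (I : Ideal (MvPolynomial (Fin n) k)),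
    SFG 𝒯 𝒮 M (MvPolynomial (Fin n) k ⧸ I)) (B : Type) [CommRing B] [Algebra k B]
    [hB : Algebra.FiniteType k B] : SFG 𝒯 𝒮 M B := by
  obtain ⟨n, f, hf⟩ := Algebra.FiniteType.iff_quotient_mvPolynomial''.1 hB
  haveI := Algebra.FiniteType.isNoetherianRing k B
  exact (SFG.equiv h𝒮 (Ideal.quotientKerAlgEquivOfSurjective hf).toRingEquiv).1
    (h n (RingHom.ker f))

/-- the cubics `F = T² - T`, one degree -/
theorem all_of_cubM (M : ℤ) (h : ∀ (a b c : ℕ) (t : Fin a → Fin b → Fin c → k),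
    𝒮 (𝒯.T M (CubRing t))) (B : Type) [CommRing B] [Algebra k B] [Algebra.FiniteType k B] :
    SFG 𝒯 𝒮 M B := by
  have h1 := lin_down 𝒯 h𝒮 (k := k) (fun _ _ _ _ => True) (fun _ _ _ _ _ => trivial) M
    (fun a b c t _ => lin_of_cub1 𝒯 h𝒮 t M (h a b c t))
  exact sfg_of_aff 𝒯 h𝒮 M (fun n I => (cls_SFG 𝒯 h𝒮 M).enc k n
    (fun b c t i hi => h1 i hi _ _ _ t trivial) I) B

/-- **(B)** one degree: all finitely generated algebras, the smooth affine cubics, the cubics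
`F = T² - T` -/
theorem degB (M : ℤ) : List.TFAE [
    ∀ (B : Type) [CommRing B] [Algebra k B] [Algebra.FiniteType k B], SFG 𝒯 𝒮 M B,
    ∀ (ι : Type) [Fintype ι] (f : MvPolynomial ι k), f.totalDegree ≤ 3 →
      Algebra.Smooth k (MvPolynomial ι k ⧸ Ideal.span {f}) →
      𝒮 (𝒯.T M (MvPolynomial ι k ⧸ Ideal.span {f})),
    ∀ (a b c : ℕ) (t : Fin a → Fin b → Fin c → k), 𝒮 (𝒯.T M (CubRing t))] := by
  tfae_have 1 → 2 := fun h ι _ f _ _ => h _ M le_rfl
  tfae_have 2 → 1 := fun h B _ _ _ n hn =>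
    (thm_E k 𝒯 h𝒮 M (WithTop.coe_lt_top _)).2 h B n hn
  tfae_have 1 → 3 := fun h a b c t => h _ M le_rfl
  tfae_have 3 → 1 := fun h B _ _ _ => all_of_cubM 𝒯 h𝒮 M h B
  tfae_finish

end

/-- coefficients `0`, `1`, one degree -/
theorem all_of_cubM01 {k : Type} [CommRing k] [IsNoetherianRing k]
    (hk : Surjective (Int.castRingHom k)) (M : ℤ)
    (h : ∀ (a b c : ℕ) (t : Fin a → Fin b → Fin c → k), Is01 t → 𝒮 (𝒯.T M (CubRing t)))
    (B : Type) [CommRing B] [Algebra k B] [Algebra.FiniteType k B] : SFG 𝒯 𝒮 M B := by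
  have h1 := lin_down 𝒯 h𝒮 (k := k) (fun _ _ _ t => Is01 t) (fun _ _ _ _ h => tNd_is h) M
    (fun a b c t ht => lin_of_cub1 𝒯 h𝒮 t M (h a b c t ht))
  exact enc01k (cls_SFG 𝒯 h𝒮 M) hk (fun a b c t ht i hi => h1 i hi a b c t ht) B

end Pool.Agent.KGT
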