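import Pool.Agent.KGT.Td

/-!
# KGT: regular schemes whose residue fields have bounded transcendence degree
-/

set_option autoImplicit false
set_option linter.style.haveILetI false
set_option linter.unusedSectionVars false

noncomputable section

namespace Pool.Agent.KGT

open CategoryTheory AlgebraicGeometry Pool.Agent.KTX Pool.Agent.GTH Pool.Agent.KPR
open Pool.Agent.KQG Function
open BassH (ResDimLE)

/-- every finitely generated domain is regular on a nonempty open set -/
def St_GenReg : Prop :=
  ∀ (C : Type) [CommRing C] [IsDomain C] [Algebra.FiniteType ℤ C],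
    ∃ s : C, s ≠ 0 ∧ IsRegularRing (Localization.Away s)

theorem res_quot {d : ℕ} {C : Type} [CommRing C] (I : Ideal C) (h : ResDimLE d C) :
    ResDimLE d (C ⧸ I) := by
  rw [← resS_spec] at h ⊢
  haveI : IsClosedImmersion (Sm (Ideal.Quotient.mk I)) :=
    IsClosedImmersion.spec_of_surjective _ Ideal.Quotient.mk_surjective
  exact resS_closed (Sm (Ideal.Quotient.mk I)) h

theorem res_away {d : ℕ} {C : Type} [CommRing C] (s : C) (h : ResDimLE d C) :
    ResDimLE d (Localization.Away s) := by
  rw [← resS_spec] at h ⊢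
  haveI : IsOpenImmersion (Sm (algebraMap C (Localization.Away s))) :=
    inferInstanceAs (IsOpenImmersion (Spec.map (CommRingCat.ofHom
      (algebraMap C (Localization.Away s)))))
  exact resS_open (Sm (algebraMap C (Localization.Away s))) h

theorem ft_Z {k B : Type} [CommRing k] [hk : Algebra.FiniteType ℤ k] [CommRing B] [Algebra k B]
    [Algebra.FiniteType k B] : Algebra.FiniteType ℤ B :=
  Algebra.FiniteType.trans (S := k) hk inferInstance

/-- regular rings give all rings -/
theorem cls_reg (hR : St_GenReg) {G : (R : Type) → [CommRing R] → Prop} (hG : Cls G) {k : Type}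
    [CommRing k] [hk : Algebra.FiniteType ℤ k] (d : ℕ)
    (H : ∀ (C : Type) [CommRing C] [Algebra k C] [Algebra.FiniteType k C], IsRegularRing C →
      ResDimLE d C → G C)
    (C : Type) [CommRing C] [Algebra k C] [Algebra.FiniteType k C] (hC : ResDimLE d C) : G C := by
  haveI hZ : IsNoetherianRing k := Algebra.FiniteType.isNoetherianRing ℤ k
  haveI : IsNoetherianRing C := Algebra.FiniteType.isNoetherianRing k C
  refine hG.induct C fun P hP hJ => ?_
  haveI := hP
  haveI : Algebra.FiniteType k (C ⧸ P) := inferInstance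
  obtain ⟨s, hs, hsr⟩ := @hR (C ⧸ P) _ _ (ft_Z (k := k))
  obtain ⟨r, rfl⟩ := Ideal.Quotient.mk_surjective s
  let V := Localization.Away (Ideal.Quotient.mk P r)
  haveI : Algebra.FiniteType (C ⧸ P) V :=
    IsLocalization.finiteType_of_monoid_fg (Submonoid.powers (Ideal.Quotient.mk P r)) V
  haveI : Algebra.FiniteType k V := Algebra.FiniteType.trans (S := C ⧸ P) inferInstance
    inferInstance
  have h1 : G V := H V hsr (res_away _ (res_quot P hC))
  refine hG.of_away (C ⧸ P) V (Ideal.Quotient.mk P r) (hG.quot_quot P r (hJ _ ?_)) h1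
  refine lt_of_le_of_ne le_sup_left fun he => hs ?_
  have h2 : r ∈ P ⊔ Ideal.span {r} := le_sup_right (a := P) (Ideal.mem_span_singleton_self r)
  rw [← he] at h2
  exact Ideal.Quotient.eq_zero_iff_mem.2 h2

/-- all regular schemes of finite type over `k` whose residue fields have transcendence degree at
most `d` over their prime fields -/
def RegResG (𝒮 : (G : Type 1) → [AddCommGroup G] → Prop) (k : Type) [CommRing k] (d : ℕ) : Prop :=
  ∀ (X : Scheme.{0}) (f : X ⟶ Sp k) [LocallyOfFiniteType f] [QuasiCompact f],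
    (∀ x : X, IsRegularLocalRing (X.presheaf.stalk x)) → ResS d X → ∀ n : ℕ, 𝒮 (KX n X)

theorem reg_res (hR : St_GenReg) (hH : St_HOMK) {𝒮 : (G : Type 1) → [AddCommGroup G] → Prop}
    (h𝒮 : Serre 𝒮) (k : Type) [CommRing k] [Algebra.FiniteType ℤ k] (d : ℕ) :
    RegResG 𝒮 k d ↔ ResG (fun R _ => ∀ n : ℕ, 𝒮 (KX n (Sp R))) k d := by
  haveI hZ : IsNoetherianRing k := Algebra.FiniteType.isNoetherianRing ℤ k
  constructor
  · intro h
    have key : ∀ (C : Type) [CommRing C] [Algebra k C] [Algebra.FiniteType k C],
        IsRegularRing C → ResDimLE d C → ∀ n : ℕ, 𝒮 (KX n (Sp C)) := by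
      intro C _ _ _ hr hC
      haveI := hr
      haveI := ft_Sm (k := k) (C := C)
      exact h (Sp C) (Sm (algebraMap k C)) (fun x => sp_regular C x) ((resS_spec d C).2 hC)
    obtain ⟨T, hT⟩ := real_PA hH h𝒮
    intro C _ _ _ hC
    have h1 : ∀ (C : Type) [CommRing C] [Algebra k C] [Algebra.FiniteType k C],
        IsRegularRing C → ResDimLE d C → PA T 𝒮 C := by
      intro C i _ _ hr hC
      have h2 := congrFun (congrFun hT C) i
      exact h2.mp (key C hr hC)
    have h3 := cls_reg hR (cls_PA T h𝒮) d h1 C hC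
    have h2 := congrFun (congrFun hT C) inferInstance
    exact h2.mpr h3
  · intro h X f _ _ _ hX
    exact (res_sch hH h𝒮 k d).1 h X f hX

end Pool.Agent.KGT
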