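import Pool.Agent.KGT.Td
import Pool.Agent.GQ.FAll

/-!
# KGT: finite generation over finite fields, residue transcendence degree at most one
-/

set_option autoImplicit false
set_option linter.style.haveILetI false

noncomputable section

namespace Pool.Agent.KGT

open CategoryTheory AlgebraicGeometry Pool.Agent.KTX Pool.Agent.GTH Pool.Agent.KPR
open Pool.Agent.KQG Pool.Agent.KQ
open BassH (ResDimLE)

/-- `K'_n(Spec A)` and modules -/
theorem kx_ka (h : St_HOMK) (n : ℕ) (A : Type) [CommRing A] :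
    Nonempty (KX n (Sp A) ≃+ KA n A) := by
  have e : Kn n (MA A) ≃+ Kn n (Coh (Sp A)) := equivK (kInt h) n (ge_equiv A)
  exact ⟨(kxEquiv n (Sp A)).trans (e.symm.trans (kaEquiv n A).symm)⟩

theorem ResDimLE.mono {d e : ℕ} (h : d ≤ e) {C : Type} [CommRing C] (hC : ResDimLE d C) :
    ResDimLE e C := fun P _ => (hC P).trans (by exact_mod_cast h)

theorem small (h : St_HOMK) (p : ℕ) [Fact p.Prime] (d : ℕ) (hd : d ≤ 1) :
    ResG (fun R _ => ∀ n : ℕ, AddGroup.FG (KX n (Sp R))) (ZMod p) d := by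
  intro C _ _ _ hC n
  obtain ⟨e⟩ := kx_ka h n C
  have h1 : AddGroup.FG (KA n C) := Pool.Agent.GQ.fin_KA_res h Pool.Agent.GQ.all_GQ p C
    (ResDimLE.mono hd hC) n
  exact Pool.Agent.GQ.fg_equiv e h1

end Pool.Agent.KGT
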