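import Pool.Agent.KGT.WDefs
import Pool.Agent.KGT.NodeC
import Pool.Agent.KGT.RegD
import Pool.Agent.KGT.Small

import Pool.Agent.KQH.HomAll

/-!
# KGT: the theorem on smooth cubics, trilinear forms and Bass's question
-/

set_option autoImplicit false
set_option linter.style.haveILetI false
set_option linter.unusedSectionVars false

noncomputable section

namespace Pool.Agent.KGT

open CategoryTheory CategoryTheory.Limits Function Pool.Agent.KQ Pool.Agent.KQG AlgebraicGeometry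
open Pool.Agent.KTX Pool.Agent.KPR Pool.Agent.GTH Pool.Agent.KQH
open BassH (triF cubF TriRing CubRing CompRing ResDimLE)

/-! ### classes -/

theorem W.SerreClass.serre {𝒮 : (G : Type 1) → [AddCommGroup G] → Prop} (h : W.SerreClass 𝒮) :
    Serre 𝒮 := ⟨h.zero, h.exact⟩

/-- finitely generated groups -/
theorem W.SerreClass.fg {𝒮 : (G : Type 1) → [AddCommGroup G] → Prop} (h : W.SerreClass 𝒮)
    (G : Type 1) [AddCommGroup G] (hG : AddGroup.FG G) : 𝒮 G := by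
  have h𝒮 := h.serre
  haveI : Module.Finite ℤ G := Module.Finite.iff_addGroup_fg.2 hG
  have key : ∀ N : Submodule ℤ G, N.FG → 𝒮 N := by
    intro N hN
    refine Submodule.fg_induction (motive := fun (N : Submodule ℤ G) _ => 𝒮 N) (fun x => ?_)
      (fun N₁ N₂ _ _ h1 h2 => ?_) N hN
    · let f : ULift.{1} ℤ →+ (ℤ ∙ x) :=
        ((LinearMap.toSpanSingleton ℤ (ℤ ∙ x)
          ⟨x, Submodule.mem_span_singleton_self x⟩).toAddMonoidHom).comp
          (AddEquiv.ulift : ULift.{1} ℤ ≃+ ℤ).toAddMonoidHom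
      refine h𝒮.of_surj f (fun y => ?_) h.int
      obtain ⟨z, hz⟩ := Submodule.mem_span_singleton.1 y.2
      exact ⟨⟨z⟩, Subtype.ext hz⟩
    · let f : (N₁ × N₂) →+ (N₁ ⊔ N₂ : Submodule ℤ G) :=
        ((Submodule.inclusion le_sup_left).coprod (Submodule.inclusion le_sup_right) :
          N₁ × N₂ →ₗ[ℤ] (N₁ ⊔ N₂ : Submodule ℤ G)).toAddMonoidHom
      refine h𝒮.of_surj f (fun y => ?_) (h𝒮.prod h1 h2)
      obtain ⟨a, ha, b, hb, hab⟩ := Submodule.mem_sup.1 y.2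
      exact ⟨(⟨a, ha⟩, ⟨b, hb⟩), Subtype.ext hab⟩
  exact h𝒮.of_surj (⊤ : Submodule ℤ G).subtype.toAddMonoidHom (fun x => ⟨⟨x, trivial⟩, rfl⟩)
    (key ⊤ Module.Finite.fg_top)

theorem W.serre_fg : W.SerreClass (fun G _ => AddGroup.FG G) where
  zero := Pool.Agent.GTH.serre_fg.zero
  exact := Pool.Agent.GTH.serre_fg.exact
  int := by
    have : AddGroup.FG (ULift.{1} ℤ) :=
      AddGroup.fg_of_surjective (f := (AddEquiv.ulift : ULift.{1} ℤ ≃+ ℤ).symm.toAddMonoidHom)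
        (AddEquiv.ulift : ULift.{1} ℤ ≃+ ℤ).symm.surjective
    exact this

/-! ### degrees -/

/-- the groups of one degree -/
theorem real_deg {𝒮 : (G : Type 1) → [AddCommGroup G] → Prop} (h𝒮 : Serre 𝒮) :
    ∃ (L : LThy.{1}) (G : GTheory.{1} ⊤),
      (∀ (n : ℕ) (X : Scheme.{0}), 𝒮 ((L.th n).T X) ↔ 𝒮 (KX n X)) ∧
      (∀ (n : ℕ) (R : Type) [CommRing R], 𝒮 (G.T n R) ↔ 𝒮 (KX n (Sp R))) ∧
      ∀ (M : ℕ) (R : Type) [CommRing R], SFG G 𝒮 M R ↔ W.UpTo 𝒮 M (Sp R) := by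
  obtain ⟨L, G, e1, e2, e3⟩ := real all_HOMK
  have k1 : ∀ (n : ℕ) (X : Scheme.{0}), 𝒮 ((L.th n).T X) ↔ 𝒮 (KX n X) := fun n X => by
    obtain ⟨c⟩ := e1 n X
    exact serre_iff h𝒮 c
  have k2 : ∀ (n : ℕ) (R : Type) [CommRing R], 𝒮 (G.T n R) ↔ 𝒮 (KX n (Sp R)) := fun n R _ => by
    obtain ⟨b⟩ := e2 n R
    exact (serre_iff h𝒮 b).trans (k1 n (Sp R))
  refine ⟨L, G, k1, k2, fun M R _ => ⟨fun hh n hn => ?_, fun hh n hn => ?_⟩⟩
  · exact (k2 n R).1 (hh n (by exact_mod_cast hn))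
  · rcases n with n | n
    · exact (k2 n R).2 (hh n (by
        have h1 : (n : ℤ) ≤ M := hn
        exact_mod_cast h1))
    · have : Subsingleton (G.T (Int.negSucc n) R) := by
        obtain ⟨b⟩ := e2 (Int.negSucc n) R
        exact ⟨fun x y => b.injective ((e3 n _ _).trans (e3 n _ _).symm)⟩
      exact h𝒮.zero _

/-! ### rings and schemes -/

theorem w_ft {k C : Type} [CommRing k] [CommRing C] [Algebra k C] [Algebra.FiniteType k C] :
    W.FinType k (Sp C) := ⟨Sm (algebraMap k C), ft_Sm, inferInstance⟩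

/-- isomorphic rings -/
theorem kx_equiv (n : ℕ) {R S : Type} [CommRing R] [CommRing S] [IsNoetherianRing R]
    [IsNoetherianRing S] (e : R ≃+* S) : Nonempty (KX n (Sp R) ≃+ KX n (Sp S)) := by
  obtain ⟨L, G, e1, e2, -⟩ := real all_HOMK
  have e' : Sp S ≅ Sp R := Scheme.Spec.mapIso e.toCommRingCatIso.op
  obtain ⟨a⟩ := e1 n (Sp R)
  obtain ⟨b⟩ := e1 n (Sp S)
  obtain ⟨c⟩ := th_iso (L.th n) e'
  exact ⟨a.symm.trans (c.trans b)⟩

/-- numbered variables -/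
theorem fin_ren {k : Type} [CommRing k] {ι : Type} [Fintype ι] (f : MvPolynomial ι k)
    (hf : f.totalDegree ≤ 3) (hs : Algebra.Smooth k (MvPolynomial ι k ⧸ Ideal.span {f})) :
    ∃ (m : ℕ) (g : MvPolynomial (Fin m) k), W.SmoothCubic g ∧
      Nonempty ((MvPolynomial (Fin m) k ⧸ Ideal.span {g}) ≃+*
        (MvPolynomial ι k ⧸ Ideal.span {f})) := by
  let e := Fintype.equivFin ι
  let E : (MvPolynomial ι k ⧸ Ideal.span {f}) ≃ₐ[k]
      (MvPolynomial (Fin (Fintype.card ι)) k ⧸ Ideal.span {MvPolynomial.rename e f}) :=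
    Ideal.quotientEquivAlg _ _ (MvPolynomial.renameEquiv k e) (by
      rw [Ideal.map_span, Set.image_singleton]
      rfl)
  refine ⟨_, MvPolynomial.rename e f, ⟨?_, Algebra.Smooth.of_equiv E⟩, ⟨E.symm.toRingEquiv⟩⟩
  exact (MvPolynomial.totalDegree_rename_le e f).trans hf

/-- **(A)** -/
theorem w_A (k : Type) [CommRing k] [IsNoetherianRing k] (B : Type) [CommRing B] [Algebra k B]
    [Algebra.FiniteType k B] : W.Encoded k B := by
  obtain ⟨ι, hι, f, hf, hs, hT⟩ := real_cubic all_HOMK k B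
  obtain ⟨m, g, hg, ⟨e⟩⟩ := fin_ren f hf hs
  refine ⟨m, g, hg, fun n => ?_⟩
  obtain ⟨a⟩ := kx_equiv n e
  obtain ⟨b⟩ := hT n
  exact ⟨a.trans b⟩

section

variable {𝒮 : (G : Type 1) → [AddCommGroup G] → Prop} (h𝒮 : Serre 𝒮)

include h𝒮

/-- from rings to schemes -/
theorem w_sch (M : ℕ) {k : Type} [CommRing k] [IsNoetherianRing k]
    (h : ∀ (C : Type) [CommRing C] [Algebra k C] [Algebra.FiniteType k C], W.UpTo 𝒮 M (Sp C))
    (X : Scheme.{0}) (hX : W.FinType k X) : W.UpTo 𝒮 M X := by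
  obtain ⟨L, G, k1, k2, k3⟩ := real_deg h𝒮
  obtain ⟨f, hf1, hf2⟩ := hX
  intro n hn
  rw [← k1]
  exact sch L h𝒮 k n (fun C _ _ _ => (k1 n (Sp C)).2 (h C n hn)) X f

/-- **(B)** -/
theorem w_B (M : ℕ) (k : Type) [CommRing k] [IsNoetherianRing k] : W.OneDegree 𝒮 M k := by
  obtain ⟨L, G, k1, k2, k3⟩ := real_deg h𝒮
  have key := degB (k := k) G h𝒮 M
  have hrs : (∀ X : Scheme.{0}, W.FinType k X → W.UpTo 𝒮 M X) ↔
      ∀ (B : Type) [CommRing B] [Algebra k B] [Algebra.FiniteType k B], SFG G 𝒮 M B :=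
    ⟨fun h B _ _ _ => (k3 M B).2 (h _ w_ft), fun h X hX => w_sch h𝒮 M
      (fun C _ _ _ => (k3 M C).1 (h C)) X hX⟩
  show List.TFAE _
  tfae_have 1 → 2 := fun h m f _ => h _ w_ft M le_rfl
  tfae_have 2 → 1 := fun h => hrs.2 ((key.out 1 0 rfl rfl).1 fun ι _ f hf hs => by
    obtain ⟨m, g, hg, ⟨e⟩⟩ := fin_ren f hf hs
    obtain ⟨a⟩ := kx_equiv M e
    exact (k2 M _).2 ((serre_iff h𝒮 a).1 (h m g hg)))
  tfae_have 1 → 3 := fun h a b c t => h _ w_ft M le_rfl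
  tfae_have 3 → 1 := fun h => hrs.2 ((key.out 2 0 rfl rfl).1 fun a b c t =>
    (k2 M _).2 (h a b c t))
  tfae_finish

omit h𝒮 in
theorem upTo_cast {G : GTheory.{1} ⊤} (k3 : ∀ (M : ℕ) (R : Type) [CommRing R],
    SFG G 𝒮 M R ↔ W.UpTo 𝒮 M (Sp R)) (M : ℕ) (R : Type) [CommRing R] :
    SFG G 𝒮 ((M : ℤ) + 1) R ↔ W.UpTo 𝒮 (M + 1) (Sp R) := by
  have h := k3 (M + 1) R
  rwa [Nat.cast_add, Nat.cast_one] at h

/-- from rings to schemes, residue fields of bounded transcendence degree -/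
theorem w_res (M : ℕ) (k : Type) [CommRing k] [IsNoetherianRing k] (d : ℕ) :
    (∀ X : Scheme.{0}, W.FinType k X → W.ResDim d X → W.UpTo 𝒮 M X) ↔
      ResG (fun R _ => W.UpTo 𝒮 M (Sp R)) k d := by
  constructor
  · intro h C _ _ _ hC
    exact h _ w_ft ((resS_spec d C).2 hC)
  · intro h X hX hd n hn
    obtain ⟨f, hf1, hf2⟩ := hX
    obtain ⟨L, G, e1, e2, -⟩ := real all_HOMK
    haveI : IsNoetherian (Sp k) := inferInstance
    haveI : IsNoetherian X := Pool.Agent.KIN.h2_noeth f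
    refine Pool.Agent.GQ.sch_ind (X := X) (fun Z => 𝒮 (KX n Z))
      (fun Z W i j _ _ _ => ?_) (fun Z' Z W _ i j _ _ hij h1 h2 => ?_)
    · haveI hZ : IsNoetherian Z := Pool.Agent.KIN.h2_noeth i
      haveI : LocallyOfFiniteType (j ≫ i ≫ f) := inferInstance
      haveI : QuasiCompact j := inferInstance
      haveI : IsNoetherian W := Pool.Agent.KIN.h2_noeth j
      obtain ⟨D, _, _, hD, ⟨e⟩⟩ := aff_alg (j ≫ i ≫ f)
      haveI : IsNoetherianRing D := Algebra.FiniteType.isNoetherianRing k D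
      have hW : ResS d W := resS_open j (resS_closed i hd)
      have hD' : ResDimLE d D := (resS_spec d D).1 (resS_open e.inv hW)
      obtain ⟨a⟩ := e1 n W
      obtain ⟨b⟩ := e1 n (Sp D)
      obtain ⟨c⟩ := th_iso (L.th n) e
      exact (serre_iff h𝒮 (a.symm.trans (c.symm.trans b))).2 (h D hD' n hn)
    · obtain ⟨a⟩ := e1 n Z'
      obtain ⟨b⟩ := e1 n Z
      obtain ⟨c⟩ := e1 n W
      rw [← serre_iff h𝒮 b]
      exact h𝒮.exact _ _ _ ((L.th n).push i) ((L.th n).pull j)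
        (fun x => ⟨(L.th n).ex i j hij x, by
          rintro ⟨y, rfl⟩
          exact (L.th n).ex0 i j hij y⟩) ((serre_iff h𝒮 a).2 h1) ((serre_iff h𝒮 c).2 h2)

/-- **(D)** -/
theorem w_D (hR : St_GenReg) (m : ℕ) (hm : m = 0 ∨ m.Prime) (hb : ∀ n : ℕ, 𝒮 (KX n (Sp (ZMod m))))
    (M d : ℕ) : (W.Level 𝒮 M (ZMod m) d).TFAE := by
  obtain ⟨L, G, k1, k2, k3⟩ := real_deg h𝒮
  have k4 := upTo_cast k3
  have h0 : ∀ i : ℤ, i ≤ (M : ℤ) + 1 → 𝒮 (G.T i (ZMod m)) := (k4 M (ZMod m)).2 fun n _ => hb n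
  have key := fin_15 G h𝒮 m hm M (WithTop.coe_lt_top _) h0 d
  haveI : IsNoetherianRing (ZMod m) := isNoetherianRing_of_surjective ℤ (ZMod m)
    (Int.castRingHom (ZMod m)) (ZMod.ringHom_surjective _)
  haveI : Algebra.FiniteType ℤ (ZMod m) :=
    Algebra.FiniteType.of_surjective (Algebra.ofId ℤ (ZMod m)) (ZMod.ringHom_surjective _)
  have hres := w_res h𝒮 M (ZMod m) d
  have hres' : (∀ X : Scheme.{0}, W.FinType (ZMod m) X → W.ResDim d X → W.UpTo 𝒮 M X) ↔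
      ResG (fun R _ => SFG G 𝒮 M R) (ZMod m) d :=
    hres.trans ⟨fun h C _ _ _ hC => (k3 M C).2 (h C hC), fun h C _ _ _ hC => (k3 M C).1 (h C hC)⟩
  have hG := cls_SFG G h𝒮 M
  unfold W.Level
  tfae_have 2 → 1 := fun h X hX _ hd => h X hX hd
  tfae_have 1 → 2 := by
    intro h
    have h1 : ∀ (C : Type) [CommRing C] [Algebra (ZMod m) C] [Algebra.FiniteType (ZMod m) C],
        IsRegularRing C → ResDimLE d C → SFG G 𝒮 M C := by
      intro C _ _ _ hr hC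
      haveI := hr
      exact (k3 M C).2 (h _ w_ft (fun x => sp_regular C x) ((resS_spec d C).2 hC))
    refine hres'.2 ?_
    intro C _ _ _ hC
    exact cls_reg hR hG d h1 C hC
  tfae_have 2 → 3 := fun h I => (k3 M _).1 ((key.out 0 1 rfl rfl).1 (hres'.1 h) I)
  tfae_have 3 → 2 := fun h => hres'.2 ((key.out 1 0 rfl rfl).1 fun I => (k3 M _).2 (h I))
  tfae_have 2 → 4 := fun h b c t => (k3 M _).1 ((key.out 0 2 rfl rfl).1 (hres'.1 h) b c t)
  tfae_have 4 → 2 := fun h => hres'.2 ((key.out 2 0 rfl rfl).1 fun b c t => (k3 M _).2 (h b c t))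
  tfae_have 2 → 5 := fun h b c t => (k3 M _).1 ((key.out 0 3 rfl rfl).1 (hres'.1 h) b c t)
  tfae_have 5 → 2 := fun h => hres'.2 ((key.out 3 0 rfl rfl).1 fun b c t => (k3 M _).2 (h b c t))
  tfae_have 2 → 6 := fun h b c t ht =>
    (k4 M _).1 ((key.out 0 4 rfl rfl).1 (hres'.1 h) b c t ht)
  tfae_have 6 → 2 := fun h => hres'.2 ((key.out 4 0 rfl rfl).1 fun b c t ht =>
    (k4 M _).2 (h b c t ht))
  tfae_finish

end

/-! ### the known cases -/

/-- `K'_n`, residue fields of transcendence degree `0` over the integers -/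
def St_NR : Prop := ∀ (B : Type) [CommRing B] [Algebra.FiniteType ℤ B], ResDimLE 0 B →
  ∀ n : ℕ, AddGroup.FG (KA n B)

theorem small_all (hN : St_NR) (m d : ℕ) (h : (m = 0 ∧ d = 0) ∨ (m.Prime ∧ d ≤ 1)) :
    ResG (fun R _ => ∀ n : ℕ, AddGroup.FG (KX n (Sp R))) (ZMod m) d := by
  rcases h with ⟨rfl, rfl⟩ | ⟨hp, hd⟩
  · intro C _ i j hC n
    obtain ⟨e⟩ := kx_ka all_HOMK n C
    have h1 : @Algebra.FiniteType ℤ C _ _ (Ring.toIntAlgebra C) :=
      @ft_int_alg C _ i j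
    exact Pool.Agent.GQ.fg_equiv e (@hN C _ h1 hC n)
  · haveI : Fact m.Prime := ⟨hp⟩
    exact small all_HOMK m d hd

/-- the base rings -/
theorem base_all (hN : St_NR) (m : ℕ) (hm : m = 0 ∨ m.Prime) (n : ℕ) :
    AddGroup.FG (KX n (Sp (ZMod m))) := by
  haveI : IsNoetherianRing (ZMod m) := isNoetherianRing_of_surjective ℤ (ZMod m)
    (Int.castRingHom (ZMod m)) (ZMod.ringHom_surjective _)
  have h1 := small_all hN m 0 (by
    rcases hm with h | h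
    · exact Or.inl ⟨h, rfl⟩
    · exact Or.inr ⟨h, Nat.zero_le _⟩) (ZMod m ⧸ (⊥ : Ideal (ZMod m))) (resDimLE_zmod m ⊥ 0) n
  obtain ⟨e⟩ := kx_equiv n (RingEquiv.quotientBot (ZMod m))
  exact AddGroup.fg_of_surjective (f := e.toAddMonoidHom) e.surjective

/-- **(D)** -/
theorem w_D' (hN : St_NR) (hR : St_GenReg) {𝒮 : (G : Type 1) → [AddCommGroup G] → Prop}
    (h𝒮 : W.SerreClass 𝒮) (M : ℕ) (m : ℕ) (hm : m = 0 ∨ m.Prime) (d : ℕ) :
    (W.Level 𝒮 M (ZMod m) d).TFAE :=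
  w_D h𝒮.serre hR m hm (fun n => h𝒮.fg _ (base_all hN m hm n)) M d

/-- **(E)** -/
theorem w_E (hN : St_NR) (hR : St_GenReg) (m d : ℕ)
    (h : (m = 0 ∧ d = 0) ∨ (m.Prime ∧ d ≤ 1)) (M : ℕ) :
    ∀ P ∈ W.Level (fun G _ => AddGroup.FG G) M (ZMod m) d, P := by
  haveI : IsNoetherianRing (ZMod m) := isNoetherianRing_of_surjective ℤ (ZMod m)
    (Int.castRingHom (ZMod m)) (ZMod.ringHom_surjective _)
  have hm : m = 0 ∨ m.Prime := h.imp (fun h => h.1) (fun h => h.1)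
  have h1 : ∀ X : Scheme.{0}, W.FinType (ZMod m) X → W.ResDim d X →
      W.UpTo (fun G _ => AddGroup.FG G) M X :=
    (w_res W.serre_fg.serre M (ZMod m) d).2 fun C _ _ _ hC n _ => small_all hN m d h C hC n
  have h2 := w_D' hN hR W.serre_fg M m hm d
  intro P hP
  exact (h2 _ (by simp [W.Level]) P hP).1 h1

end Pool.Agent.KGT
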