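import Mathlib

/-!
# KGT: the Jacobian criterion for smooth hypersurfaces
-/

set_option autoImplicit false

noncomputable section

namespace Pool.Agent.KGT

open MvPolynomial Function TensorProduct KaehlerDifferential

/-- a derivation of a polynomial ring is determined by its values on the variables -/
theorem der_sum {k : Type} [CommRing k] {ι : Type} [Fintype ι] {M : Type} [AddCommGroup M]
    [Module k M] [Module (MvPolynomial ι k) M] [IsScalarTower k (MvPolynomial ι k) M]
    (δ : Derivation k (MvPolynomial ι k) M) (f : MvPolynomial ι k) :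
    δ f = ∑ i, pderiv i f • δ (X i) := by
  classical
  induction f using MvPolynomial.induction_on with
  | C a =>
    rw [← MvPolynomial.algebraMap_eq, Derivation.map_algebraMap]
    simp
  | add p q hp hq => simp only [map_add, add_smul, Finset.sum_add_distrib, hp, hq]
  | mul_X p j hp =>
    rw [Derivation.leibniz, hp, Finset.smul_sum]
    have h1 : ∀ i, pderiv i (p * X j) = X j * pderiv i p + (if i = j then p else 0) := by
      intro i
      rw [Derivation.leibniz, pderiv_X, smul_eq_mul, smul_eq_mul, add_comm]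
      congr 1
      by_cases h : i = j
      · subst h
        simp
      · rw [if_neg h, Pi.single_eq_of_ne (Ne.symm h), mul_zero]
    simp only [h1, add_smul, Finset.sum_add_distrib, ite_smul, zero_smul, Finset.sum_ite_eq',
      Finset.mem_univ, if_true, mul_smul]
    rw [add_comm]

/-- **Jacobian criterion.** -/
theorem jac {k : Type} [CommRing k] [IsDomain k] {ι : Type} [Fintype ι] (f : MvPolynomial ι k)
    (h : Algebra.Smooth k (MvPolynomial ι k ⧸ Ideal.span {f})) :
    f = 0 ∨ ∃ (c : ι → MvPolynomial ι k) (g : MvPolynomial ι k),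
      1 = ∑ i, pderiv i f * c i + g * f := by
  by_cases hf : f = 0
  · exact Or.inl hf
  right
  have hs : Surjective (algebraMap (MvPolynomial ι k) (MvPolynomial ι k ⧸ Ideal.span {f})) :=
    Ideal.Quotient.mk_surjective
  have hF : Algebra.FormallySmooth k (MvPolynomial ι k ⧸ Ideal.span {f}) := h.formallySmooth
  obtain ⟨l, hl⟩ := (Algebra.FormallySmooth.iff_split_injection (R := k) hs).1 hF
  have hI : RingHom.ker (algebraMap (MvPolynomial ι k) (MvPolynomial ι k ⧸ Ideal.span {f})) =
      Ideal.span {f} := Ideal.mk_ker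
  let I := RingHom.ker (algebraMap (MvPolynomial ι k) (MvPolynomial ι k ⧸ Ideal.span {f}))
  have hfI : f ∈ I := by
    rw [show I = Ideal.span {f} from hI]
    exact Ideal.mem_span_singleton_self f
  let δ : Derivation k (MvPolynomial ι k) I.Cotangent :=
    (l ∘ₗ (TensorProduct.mk (MvPolynomial ι k) (MvPolynomial ι k ⧸ Ideal.span {f})
      (Ω[MvPolynomial ι k⁄k]) 1)).compDer (D k (MvPolynomial ι k))
  have hδ : δ f = I.toCotangent ⟨f, hfI⟩ := DFunLike.congr_fun hl (I.toCotangent ⟨f, hfI⟩)
  have hc : ∀ i, ∃ c : MvPolynomial ι k, δ (X i) = c • I.toCotangent ⟨f, hfI⟩ := by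
    intro i
    obtain ⟨⟨y, hy⟩, hy2⟩ := I.toCotangent_surjective (δ (X i))
    have hy' := hy
    rw [show I = Ideal.span {f} from hI, Ideal.mem_span_singleton'] at hy'
    obtain ⟨a, ha⟩ := hy'
    refine ⟨a, ?_⟩
    rw [← hy2, ← map_smul]
    congr 1
    exact Subtype.ext ha.symm
  choose c hc using hc
  rw [der_sum] at hδ
  simp only [hc, ← mul_smul, ← Finset.sum_smul] at hδ
  have h1 : I.toCotangent ((1 - ∑ i, pderiv i f * c i) • (⟨f, hfI⟩ : I)) = 0 := by
    rw [map_smul, sub_smul, one_smul, hδ, sub_self]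
  rw [Ideal.toCotangent_eq_zero] at h1
  have h2 : (1 - ∑ i, pderiv i f * c i) * f ∈ Ideal.span {f} ^ 2 := by
    rw [← hI]
    exact h1
  rw [Ideal.span_singleton_pow, Ideal.mem_span_singleton'] at h2
  obtain ⟨g, hg⟩ := h2
  refine ⟨c, g, ?_⟩
  have h3 : (1 - ∑ i, pderiv i f * c i) * f = (g * f) * f := by
    rw [← hg]
    ring
  have h4 := mul_right_cancel₀ hf h3
  rw [← h4]
  ring

end Pool.Agent.KGT
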