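import Pool.Agent.GTH.Cls

/-!
# KGT: the node: degree `n + 1` over `A[u, w] / (u w)` gives degree `n` over `A`
-/

set_option autoImplicit false
set_option linter.unusedSectionVars false

noncomputable section

namespace Pool.Agent.KGT

open Function Polynomial Pool.Agent.GTH

universe u

variable (A : Type) [CommRing A]

/-- the equation of the node -/
def ndI : Ideal A[X][X] := Ideal.span {C X * X}

/-- the node over `A` -/
def Nd : Type := A[X][X] ⧸ ndI A

instance : CommRing (Nd A) := Ideal.Quotient.commRing (ndI A)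

/-- the class of a polynomial -/
def mkN : A[X][X] →+* Nd A := Ideal.Quotient.mk (ndI A)

theorem mkN_surj : Surjective (mkN A) := Ideal.Quotient.mk_surjective

theorem cc_mem (φ : A[X][X] →+* A[X]) (h : φ (C X * X) = 0) (x : A[X][X]) (hx : x ∈ ndI A) :
    φ x = 0 := by
  obtain ⟨y, rfl⟩ := Ideal.mem_span_singleton'.1 hx
  rw [map_mul, h, mul_zero]

/-- the branch `u = 0` (`u` is the outer variable) -/
def pu : Nd A →+* A[X] := Ideal.Quotient.lift (ndI A) constantCoeff
  (cc_mem A _ (by simp))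

/-- the branch `w = 0` -/
def pw : Nd A →+* A[X] := Ideal.Quotient.lift (ndI A) (mapRingHom constantCoeff)
  (cc_mem A _ (by simp))

theorem pu_mk (f : A[X][X]) : pu A (mkN A f) = f.coeff 0 := rfl

theorem pw_mk (f : A[X][X]) : pw A (mkN A f) = f.map constantCoeff := rfl

/-- Laurent polynomials -/
abbrev Lau : Type := Localization.Away (X : A[X])

theorem lau_inj : Injective (algebraMap A[X] (Lau A)) := by
  refine IsLocalization.injective (Lau A) (M := Submonoid.powers (X : A[X])) ?_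
  rintro _ ⟨n, rfl⟩
  exact (isRegular_X_pow n).mem_nonZeroDivisors

theorem mkN_zero {f : A[X][X]} (h : f ∈ ndI A) : mkN A f = 0 :=
  Ideal.Quotient.eq_zero_iff_mem.2 h

theorem pu_eq_zero (f : A[X][X]) (h : f.coeff 0 = 0) : ∃ g, f = X * g := by
  obtain ⟨g, hg⟩ := X_dvd_iff.2 h
  exact ⟨g, hg⟩

theorem pw_eq_zero (f : A[X][X]) (h : f.map constantCoeff = 0) : ∃ g, f = C X * g := by
  have h1 : (C X : A[X][X]) ∣ f := by
    rw [C_dvd_iff_dvd_coeff]
    intro i
    rw [X_dvd_iff]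
    have h2 := congrArg (fun p => Polynomial.coeff p i) h
    simpa using h2
  exact h1

theorem isLoc_of {π : Nd A →+* A[X]} (s : Nd A) (hπ : Surjective π)
    (hk : ∀ a, π a = 0 ↔ ∃ b, a = s * b) (ρ : Nd A →+* A[X]) (hs : ρ s = X)
    (hρ : ∀ p : A[X], ∃ a, ρ a = p) (h0 : ∀ a, ρ a = 0 → s * a = 0) :
    IsLoc s π ((algebraMap A[X] (Lau A)).comp ρ) := by
  have h := isLoc_std (X : A[X])
  refine isLoc_mk hπ hk ?_ (fun z => ?_) (fun a ha => ⟨1, ?_⟩)
  · rw [RingHom.comp_apply, hs]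
    exact h.unit
  · obtain ⟨k, p, hp⟩ := h.surjL z
    obtain ⟨a, rfl⟩ := hρ p
    refine ⟨k, a, ?_⟩
    rw [RingHom.comp_apply, hs, hp]
    rfl
  · rw [pow_one]
    apply h0
    apply lau_inj A
    rw [map_zero]
    exact ha

theorem surj_pu : Surjective (pu A) := fun p => ⟨mkN A (C p), by rw [pu_mk, coeff_C_zero]⟩

theorem surj_pw : Surjective (pw A) := fun p => ⟨mkN A (p.map C), by
  rw [pw_mk, map_map]
  have : (constantCoeff : A[X] →+* A).comp C = RingHom.id A := by
    ext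
    simp
  rw [this, map_id]⟩

theorem isLoc_u : IsLoc (mkN A X) (pu A) ((algebraMap A[X] (Lau A)).comp (pw A)) := by
  refine isLoc_of A _ (surj_pu A) (fun a => ?_) (pw A) ?_ (surj_pw A) (fun a ha => ?_)
  · obtain ⟨f, rfl⟩ := mkN_surj A a
    constructor
    · intro h
      obtain ⟨g, rfl⟩ := pu_eq_zero A f h
      exact ⟨mkN A g, map_mul _ _ _⟩
    · rintro ⟨b, hb⟩
      rw [hb, map_mul, pu_mk, coeff_X_zero, zero_mul]
  · rw [pw_mk, map_X]
  · obtain ⟨f, rfl⟩ := mkN_surj A a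
    obtain ⟨g, rfl⟩ := pw_eq_zero A f ha
    rw [← map_mul]
    refine mkN_zero A ?_
    have : X * (C X * g) = g * (C X * X) := by ring
    rw [this]
    exact Ideal.mul_mem_left _ _ (Ideal.mem_span_singleton_self _)

theorem isLoc_w : IsLoc (mkN A (C X)) (pw A) ((algebraMap A[X] (Lau A)).comp (pu A)) := by
  refine isLoc_of A _ (surj_pw A) (fun a => ?_) (pu A) ?_ (surj_pu A) (fun a ha => ?_)
  · obtain ⟨f, rfl⟩ := mkN_surj A a
    constructor
    · intro h
      obtain ⟨g, rfl⟩ := pw_eq_zero A f h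
      exact ⟨mkN A g, map_mul _ _ _⟩
    · rintro ⟨b, hb⟩
      rw [hb, map_mul, pw_mk, map_C]
      simp
  · rw [pu_mk, coeff_C_zero]
  · obtain ⟨f, rfl⟩ := mkN_surj A a
    obtain ⟨g, rfl⟩ := pu_eq_zero A f ha
    rw [← map_mul]
    refine mkN_zero A ?_
    have : C X * (X * g) = g * (C X * X) := by ring
    rw [this]
    exact Ideal.mul_mem_left _ _ (Ideal.mem_span_singleton_self _)

variable {A}
variable [IsNoetherianRing A]

instance : IsNoetherianRing (Nd A) := isNoetherianRing_of_surjective _ _ (mkN A) (mkN_surj A)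

variable {N : WithTop ℤ} (𝒯 : GTheory.{u} N)
  {𝒮 : (G : Type u) → [AddCommGroup G] → Prop} (h𝒮 : Serre 𝒮)

/-- the push-forward of a branch is injective -/
theorem push_pu_inj (n : ℤ) (x : 𝒯.T n A[X]) (hx : 𝒯.push n (pu A) x = 0) : x = 0 := by
  haveI : IsNoetherianRing (Lau A) := noeth_away (V := Lau A) (X : A[X])
  have hfl : ((algebraMap A[X] (Lau A)).comp (pu A)).Flat := (isLoc_w A).flat
  have hfl' : (algebraMap A[X] (Lau A)).Flat := (isLoc_std (X : A[X])).flat
  have h1 := 𝒯.base_change n ((algebraMap A[X] (Lau A)).comp (pu A)) hfl (pu A) (surj_pu A)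
    (RingHom.id (Lau A)) surjective_id (by
      rw [(isLoc_u A).ker, Ideal.map_span, Set.image_singleton, RingHom.comp_apply, pu_mk,
        coeff_X_zero, map_zero]
      ext z
      simp) (algebraMap A[X] (Lau A)) hfl' rfl x
  rw [hx, map_zero, 𝒯.push_id] at h1
  have h2 : SFG.IsLau (algebraMap A[X] (Lau A)) := SFG.isLau_std
  obtain ⟨y, hy⟩ := (𝒯.exA n h2 x).1 h1.symm
  rw [← hy]
  exact 𝒯.push_zero n y

include h𝒮 in
/-- degree `n + 1` over the node gives degree `n` over the base -/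
theorem node (n : ℤ) (hn : (n : WithTop ℤ) < N) (h : 𝒮 (𝒯.T (n + 1) (Nd A))) : 𝒮 (𝒯.T n A) := by
  haveI : IsNoetherianRing (Lau A) := noeth_away (V := Lau A) (X : A[X])
  have hb : ∀ y, 𝒯.bd (n + 1) n (mkN A X) (pu A) ((algebraMap A[X] (Lau A)).comp (pw A)) y = 0 :=
    fun y => push_pu_inj 𝒯 n _ ((𝒯.exC (n + 1) n rfl hn (isLoc_u A) _).2 ⟨y, rfl⟩)
  have hs : Surjective (𝒯.pull (n + 1) ((algebraMap A[X] (Lau A)).comp (pw A))) := fun y =>
    (𝒯.exL (n + 1) n rfl (isLoc_u A) y).1 (hb y)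
  exact SFG.of_lau_succ h𝒮 SFG.isLau_std n hn (h𝒮.of_surj _ hs h)

end Pool.Agent.KGT
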