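import Pool.Agent.KGT.PresD
import Pool.Agent.KGT.AllN

/-!
# KGT: all finitely generated rings from trilinear forms with coefficients 0 and 1
-/

set_option autoImplicit false
set_option linter.unusedSectionVars false

noncomputable section

namespace Pool.Agent.KGT

open Function MvPolynomial Pool.Agent.GTH
open BassH (triF cubF cgj TriRing CubRing CompRing)
open Pool.Agent.Helper11 (homog homog_C homog_X)

universe u

/-- adding the bilinear form `x₀ v_{l₀}` -/
theorem exists_add01 {k : Type} [CommRing k] (n b c : ℕ) (t : Fin (n + 1) → Fin b → Fin c → k)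
    (ht : Is01 t) (l₀ : Fin c) : ∃ t' : Fin (n + 1) → Fin (b + 1) → Fin c → k, Is01 t' ∧
      Ideal.span (Set.range (cgj t')) = Ideal.span (Set.range (cgj t)) ⊔
        Ideal.span {X (Sum.inl 0) * X (Sum.inr l₀)} := by
  classical
  let t' : Fin (n + 1) → Fin (b + 1) → Fin c → k := fun i j l =>
    Fin.lastCases (motive := fun _ => k) (if i = 0 ∧ l = l₀ then 1 else 0)
      (fun j => t i j l) j
  have g1 : ∀ i j l, t' i (Fin.castSucc j) l = t i j l := fun i j l =>
    Fin.lastCases_castSucc ..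
  have g2 : ∀ i l, t' i (Fin.last b) l = if i = 0 ∧ l = l₀ then 1 else 0 := fun i l =>
    Fin.lastCases_last ..
  have h1 : ∀ j : Fin b, cgj t' j.castSucc = cgj t j := by
    intro j
    unfold cgj
    refine Finset.sum_congr rfl fun i _ => Finset.sum_congr rfl fun l _ => ?_
    rw [g1]
  have h2 : cgj t' (Fin.last b) = X (Sum.inl 0) * X (Sum.inr l₀) := by
    unfold cgj
    rw [Finset.sum_eq_single 0, Finset.sum_eq_single l₀]
    · rw [g2, if_pos ⟨rfl, rfl⟩, map_one, one_mul]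
    · intro l _ hl
      rw [g2, if_neg (fun h => hl h.2), map_zero, zero_mul, zero_mul]
    · intro h
      exact absurd (Finset.mem_univ _) h
    · intro i _ hi
      refine Finset.sum_eq_zero fun l _ => ?_
      rw [g2, if_neg (fun h => hi h.1), map_zero, zero_mul, zero_mul]
    · intro h
      exact absurd (Finset.mem_univ _) h
  refine ⟨t', ?_, ?_⟩
  · intro i j l
    refine Fin.lastCases ?_ (fun j => ?_) j
    · rw [g2]
      split_ifs
      · exact Or.inr rfl
      · exact Or.inl rfl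
    · rw [g1]
      exact ht i j l
  · rw [← Ideal.span_union]
    congr 1
    ext p
    constructor
    · rintro ⟨j, rfl⟩
      refine Fin.lastCases ?_ (fun j => ?_) j
      · right
        exact h2
      · left
        exact ⟨j, (h1 j).symm⟩
    · rintro (⟨j, rfl⟩ | rfl)
      · exact ⟨j.castSucc, h1 j⟩
      · exact ⟨Fin.last b, h2⟩

/-- from the bilinear systems with coefficients `0`, `1` to all finitely generated rings -/
theorem enc01k {G : (R : Type) → [CommRing R] → Prop} (hG : Cls G) {k : Type} [CommRing k]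
    [IsNoetherianRing k] (hk : Surjective (Int.castRingHom k))
    (h : ∀ (a b c : ℕ) (t : Fin a → Fin b → Fin c → k), Is01 t →
      G (MvPolynomial (Fin a ⊕ Fin c) k ⧸ Ideal.span (Set.range (cgj t))))
    (B : Type) [CommRing B] [Algebra k B] [hB : Algebra.FiniteType k B] : G B := by
  obtain ⟨n, b, c, t, l₀, ev, ht, hev, hker⟩ := exists_pres01k hk B
  obtain ⟨t', ht1, ht'⟩ := exists_add01 n b c t ht l₀
  haveI : IsNoetherianRing B := Algebra.FiniteType.isNoetherianRing k B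
  let e1 : MvPolynomial (Fin (n + 1) ⊕ Fin c) k := X (Sum.inl 0)
  let e2 : MvPolynomial (Fin (n + 1) ⊕ Fin c) k := X (Sum.inr l₀)
  have h1 := h (n + 1) b c t ht
  have h2 := h (n + 1) (b + 1) c t' ht1
  rw [ht'] at h2
  have h3 : G ((MvPolynomial (Fin (n + 1) ⊕ Fin c) k ⧸ Ideal.span (Set.range (cgj t))) ⧸
      Ideal.span {Ideal.Quotient.mk (Ideal.span (Set.range (cgj t))) (e1 * e2)}) := by
    have h4 : Ideal.span {Ideal.Quotient.mk (Ideal.span (Set.range (cgj t))) (e1 * e2)} =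
        (Ideal.span {e1 * e2}).map (Ideal.Quotient.mk (Ideal.span (Set.range (cgj t)))) := by
      rw [Ideal.map_span, Set.image_singleton]
    rw [h4]
    exact hG.iso _ _ (DoubleQuot.quotQuotEquivQuotSup _ _).symm h2
  have h5 : G (Localization.Away (Ideal.Quotient.mk (Ideal.span (Set.range (cgj t)))
      (e1 * e2))) :=
    hG.away _ _ (Ideal.Quotient.mk (Ideal.span (Set.range (cgj t))) (e1 * e2)) h1 h3
  have h6 := hG.deh (Sum.elim (fun _ => 1) (fun _ => 0)) (Set.range (cgj t)) (by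
      rintro _ ⟨j, rfl⟩
      exact ⟨1, homog_cgj _ (fun _ _ => rfl) t j⟩) e1 e2 (homog_X _ _) (homog_X _ _) h5
  have h7 : Ideal.span (Set.range (cgj t) ∪ {e1 - 1}) =
      Ideal.span (Set.range (cgj t)) ⊔ Ideal.span {e1 - 1} := Ideal.span_union _ _
  have h8 : G (Localization.Away (Ideal.Quotient.mk (Ideal.span (Set.range (cgj t) ∪ {e1 - 1}))
      (e2 * 1))) := by
    rw [h7, mul_one]
    exact h6
  have h9 := hG.deh (Sum.elim (fun _ => 0) (fun _ => 1)) (Set.range (cgj t) ∪ {e1 - 1}) (by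
      rintro _ (⟨j, rfl⟩ | rfl)
      · exact ⟨1, homog_cgj _ (fun _ _ => rfl) t j⟩
      · refine ⟨0, ?_⟩
        have h10 : homog (Sum.elim (fun _ => 0) (fun _ => 1) : Fin (n + 1) ⊕ Fin c → ℕ) e1 =
            Polynomial.C e1 := by
          have h11 := homog_X (k := k) (Sum.elim (fun _ => 0) (fun _ => 1) :
            Fin (n + 1) ⊕ Fin c → ℕ) (Sum.inl 0)
          have h12 : (Sum.elim (fun _ => 0) (fun _ => 1) : Fin (n + 1) ⊕ Fin c → ℕ)
            (Sum.inl 0) = 0 := rfl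
          rw [h12, pow_zero, mul_one] at h11
          exact h11
        rw [map_sub, map_one, h10, map_sub, map_one, pow_zero, mul_one]) e2 1 (homog_X _ _)
      (by rw [map_one, map_one, pow_zero, mul_one]) h8
  rw [h7] at h9
  have h10 : Ideal.span (Set.range (cgj t)) ⊔ Ideal.span {e1 - 1} ⊔ Ideal.span {e2 - 1} =
      RingHom.ker ev := hker.symm
  rw [h10, map_one] at h9
  have : IsNoetherianRing (Localization.Away
      (1 : MvPolynomial (Fin (n + 1) ⊕ Fin c) k ⧸ RingHom.ker ev)) := noeth_away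
      (1 : MvPolynomial (Fin (n + 1) ⊕ Fin c) k ⧸ RingHom.ker ev)
  exact hG.iso _ _ ((IsLocalization.atOne (MvPolynomial (Fin (n + 1) ⊕ Fin c) k ⧸ RingHom.ker ev)
    (Localization.Away (1 : MvPolynomial (Fin (n + 1) ⊕ Fin c) k ⧸
      RingHom.ker ev))).toRingEquiv.symm.trans
    (RingHom.quotientKerEquivOfSurjective hev)) h9

/-- finitely generated rings -/
theorem ft_int_alg (B : Type) [CommRing B] [i : Algebra ℤ B] [h : Algebra.FiniteType ℤ B] :
    @Algebra.FiniteType ℤ B _ _ (Ring.toIntAlgebra B) := by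
  obtain rfl := Subsingleton.elim i (Ring.toIntAlgebra B)
  exact h

theorem surj_Z : Surjective (Int.castRingHom ℤ) := fun x => ⟨x, by simp⟩

/-- from the bilinear systems with coefficients `0`, `1` to all finitely generated rings -/
theorem enc01 {G : (R : Type) → [CommRing R] → Prop} (hG : Cls G)
    (h : ∀ (a b c : ℕ) (t : Fin a → Fin b → Fin c → ℤ), Is01 t →
      G (MvPolynomial (Fin a ⊕ Fin c) ℤ ⧸ Ideal.span (Set.range (cgj t))))
    (B : Type) [CommRing B] [hB : Algebra.FiniteType ℤ B] : G B :=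
  enc01k hG surj_Z h B

/-! ### all degrees -/

section

variable (𝒯 : GTheory.{u} ⊤) {𝒮 : (G : Type u) → [AddCommGroup G] → Prop} (h𝒮 : Serre 𝒮)

include h𝒮

/-- the cubic and the linear system -/
theorem lin_of_cub {k : Type} [CommRing k] [IsNoetherianRing k] {a b c : ℕ}
    (t : Fin a → Fin b → Fin c → k) (h : PA 𝒯 𝒮 (CubRing t)) :
    PA 𝒯 𝒮 (MvPolynomial (Fin a ⊕ Fin c) k ⧸ Ideal.span (Set.range (cgj t))) := by
  intro i
  obtain ⟨e⟩ := (cub_groups 𝒯 k t i).2 (WithTop.coe_lt_top i)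
  exact h𝒮.of_surj ((AddMonoidHom.snd _ _).comp e.toAddMonoidHom)
    (Prod.snd_surjective.comp e.surjective) (h i)

/-- the form and its complement -/
theorem comp_of_tri {k : Type} [CommRing k] [IsNoetherianRing k] (h0 : PA 𝒯 𝒮 k) {a b c : ℕ}
    (t : Fin a → Fin b → Fin c → k) (h : PA 𝒯 𝒮 (TriRing t)) : PA 𝒯 𝒮 (CompRing t) := by
  refine (pa_iff 𝒯 _).2 fun M => ?_
  have h1 := sfg_comp h𝒮 𝒯 (M - 1) k ((pa_iff 𝒯 k).1 h0 _) t ((pa_iff 𝒯 _).1 h (M - 1))
  rwa [sub_add_cancel] at h1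

/-- the complement and the cubic -/
theorem cub_of_comp {k : Type} [CommRing k] [IsNoetherianRing k] (h0 : PA 𝒯 𝒮 k) {a b c : ℕ}
    (t : Fin a → Fin b → Fin c → k) (h : triF t ≠ 0 → PA 𝒯 𝒮 (CompRing t)) :
    PA 𝒯 𝒮 (CubRing t) :=
  (pa_iff 𝒯 _).2 fun M => sfg_cub_of_comp 𝒯 h𝒮 M (WithTop.coe_lt_top M) ((pa_iff 𝒯 k).1 h0 M) t
    fun hF => (pa_iff 𝒯 _).1 (h hF) (M + 1)

section

variable {k : Type} [CommRing k] [IsNoetherianRing k] (hk : Surjective (Int.castRingHom k))

include hk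

/-- cubics with coefficients `0`, `1` -/
theorem all_of_cub01 (h : ∀ (a b c : ℕ) (t : Fin a → Fin b → Fin c → k), Is01 t →
    PA 𝒯 𝒮 (CubRing t)) (B : Type) [CommRing B] [Algebra k B] [Algebra.FiniteType k B] :
    PA 𝒯 𝒮 B :=
  enc01k (cls_PA 𝒯 h𝒮) hk (fun a b c t ht => lin_of_cub 𝒯 h𝒮 t (h a b c t ht)) B

omit hk h𝒮 in
theorem is01_tOne (k : Type) [CommRing k] (d : ℕ) : Is01 (tOne k d) := by
  intro i j l
  unfold tOne
  split_ifs
  · exact Or.inr rfl
  · exact Or.inl rfl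

/-- complements with coefficients `0`, `1` -/
theorem all_of_comp01 (h : ∀ (a b c : ℕ) (t : Fin a → Fin b → Fin c → k), Is01 t → triF t ≠ 0 →
    PA 𝒯 𝒮 (CompRing t)) (B : Type) [CommRing B] [Algebra k B] [Algebra.FiniteType k B] :
    PA 𝒯 𝒮 B := by
  rcases subsingleton_or_nontrivial k with hs | hn
  · haveI : Subsingleton B := (algebraMap k B).codomain_trivial
    exact (cls_PA 𝒯 h𝒮).zero B
  have h0 : PA 𝒯 𝒮 k := pa_mv 𝒯 h𝒮 k _ (strip_form' (cls_PA 𝒯 h𝒮) 0
    (h 1 1 1 _ (is01_tOne k 0) (triF_tOne_ne k 0)))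
  exact all_of_cub01 𝒯 h𝒮 hk (fun a b c t ht => cub_of_comp 𝒯 h𝒮 h0 t (h a b c t ht)) B

/-- trilinear forms with coefficients `0`, `1` -/
theorem all_of_tri01 (h : ∀ (a b c : ℕ) (t : Fin a → Fin b → Fin c → k), Is01 t →
    PA 𝒯 𝒮 (TriRing t)) (B : Type) [CommRing B] [Algebra k B] [Algebra.FiniteType k B] :
    PA 𝒯 𝒮 B := by
  have h0 : PA 𝒯 𝒮 k := by
    let t : Fin 0 → Fin 0 → Fin 0 → k := fun _ _ _ => 0
    have ht : triF t = 0 := by
      unfold triF
      simp
    have h1 : PA 𝒯 𝒮 (TriRing t) := h 0 0 0 t fun _ _ _ => Or.inl rfl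
    have e : TriRing t ≃+* MvPolynomial (Fin 0 ⊕ Fin 0 ⊕ Fin 0) k :=
      (Ideal.quotEquivOfEq (by rw [ht]; simp)).trans (RingEquiv.quotientBot _)
    exact pa_mv 𝒯 h𝒮 k _ ((cls_PA 𝒯 h𝒮).iso _ _ e h1)
  exact all_of_comp01 𝒯 h𝒮 hk (fun a b c t ht _ => comp_of_tri 𝒯 h𝒮 h0 t (h a b c t ht)) B

end

end

end Pool.Agent.KGT
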