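import Pool.Agent.KGT.Node
import Pool.Agent.KGT.PresE

/-!
# KGT: the bilinear systems: one more equation `u w = 0`
-/

set_option autoImplicit false
set_option linter.unusedSectionVars false

noncomputable section

namespace Pool.Agent.KGT

open Function Pool.Agent.GTH
open BassH (triF cubF cgj TriRing CubRing CompRing)

universe u

section

variable {k : Type} [CommRing k] {a b c : ℕ}

open Classical in
/-- the tensor of the forms of `t` and of `u w`, `u` and `w` the last variables -/
def tNd (t : Fin a → Fin b → Fin c → k) : Fin (a + 1) → Fin (b + 1) → Fin (c + 1) → k :=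
  fun i j l => Fin.lastCases (motive := fun _ => k)
    (if i = Fin.last a ∧ l = Fin.last c then 1 else 0)
    (fun j => Fin.lastCases (motive := fun _ => k) 0
      (fun i => Fin.lastCases (motive := fun _ => k) 0 (fun l => t i j l) l) i) j

theorem tNd_last (t : Fin a → Fin b → Fin c → k) (i : Fin (a + 1)) (l : Fin (c + 1)) :
    tNd t i (Fin.last b) l = if i = Fin.last a ∧ l = Fin.last c then 1 else 0 := by
  unfold tNd
  rw [Fin.lastCases_last]

theorem tNd_cast (t : Fin a → Fin b → Fin c → k) (i : Fin a) (j : Fin b) (l : Fin c) :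
    tNd t i.castSucc j.castSucc l.castSucc = t i j l := by
  unfold tNd
  rw [Fin.lastCases_castSucc, Fin.lastCases_castSucc, Fin.lastCases_castSucc]

theorem tNd_li (t : Fin a → Fin b → Fin c → k) (j : Fin b) (l : Fin (c + 1)) :
    tNd t (Fin.last a) j.castSucc l = 0 := by
  unfold tNd
  rw [Fin.lastCases_castSucc, Fin.lastCases_last]

theorem tNd_ll (t : Fin a → Fin b → Fin c → k) (i : Fin (a + 1)) (j : Fin b) :
    tNd t i j.castSucc (Fin.last c) = 0 := by
  refine Fin.lastCases ?_ (fun i => ?_) i
  · exact tNd_li t j _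
  · unfold tNd
    rw [Fin.lastCases_castSucc, Fin.lastCases_castSucc, Fin.lastCases_last]

theorem tNd_is {t : Fin a → Fin b → Fin c → k} (ht : Is01 t) : Is01 (tNd t) := by
  intro i j l
  refine Fin.lastCases ?_ (fun j => ?_) j
  · rw [tNd_last]
    split_ifs
    · exact Or.inr rfl
    · exact Or.inl rfl
  · refine Fin.lastCases ?_ (fun i => ?_) i
    · exact Or.inl (tNd_li t j l)
    · refine Fin.lastCases ?_ (fun l => ?_) l
      · exact Or.inl (tNd_ll t _ j)
      · rw [tNd_cast]
        exact ht i j l

/-- the inclusion of the variables -/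
def vr : Fin a ⊕ Fin c → Fin (a + 1) ⊕ Fin (c + 1) := Sum.map Fin.castSucc Fin.castSucc

theorem cgj_tNd_last (t : Fin a → Fin b → Fin c → k) : cgj (tNd t) (Fin.last b) =
    MvPolynomial.X (Sum.inl (Fin.last a)) * MvPolynomial.X (Sum.inr (Fin.last c)) := by
  unfold cgj
  rw [Finset.sum_eq_single (Fin.last a), Finset.sum_eq_single (Fin.last c)]
  · rw [tNd_last, if_pos ⟨rfl, rfl⟩, map_one, one_mul]
  · intro l _ hl
    rw [tNd_last, if_neg (fun h => hl h.2), map_zero, zero_mul, zero_mul]
  · intro h
    exact absurd (Finset.mem_univ _) h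
  · intro i _ hi
    refine Finset.sum_eq_zero fun l _ => ?_
    rw [tNd_last, if_neg (fun h => hi h.1), map_zero, zero_mul, zero_mul]
  · intro h
    exact absurd (Finset.mem_univ _) h

theorem cgj_tNd_cast (t : Fin a → Fin b → Fin c → k) (j : Fin b) :
    cgj (tNd t) j.castSucc = MvPolynomial.rename vr (cgj t j) := by
  unfold cgj
  rw [Fin.sum_univ_castSucc]
  have h1 : ∀ l, MvPolynomial.C (tNd t (Fin.last a) j.castSucc l) *
      MvPolynomial.X (Sum.inl (Fin.last a)) * MvPolynomial.X (Sum.inr l) =
      (0 : MvPolynomial (Fin (a + 1) ⊕ Fin (c + 1)) k) := fun l => by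
    rw [tNd_li, map_zero, zero_mul, zero_mul]
  simp only [h1, Finset.sum_const_zero, add_zero]
  rw [map_sum]
  refine Finset.sum_congr rfl fun i _ => ?_
  rw [Fin.sum_univ_castSucc, tNd_ll, map_zero, zero_mul, zero_mul, add_zero, map_sum]
  refine Finset.sum_congr rfl fun l _ => ?_
  rw [tNd_cast, map_mul, map_mul, MvPolynomial.rename_C, MvPolynomial.rename_X,
    MvPolynomial.rename_X]
  rfl

/-- the variables -/
def eVr (a c : ℕ) : Fin (a + 1) ⊕ Fin (c + 1) ≃ Option (Option (Fin a ⊕ Fin c)) where
  toFun := Sum.elim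
    (fun i => Fin.lastCases (motive := fun _ => Option (Option (Fin a ⊕ Fin c))) none
      (fun i => some (some (Sum.inl i))) i)
    (fun l => Fin.lastCases (motive := fun _ => Option (Option (Fin a ⊕ Fin c))) (some none)
      (fun l => some (some (Sum.inr l))) l)
  invFun o := match o with
    | none => Sum.inl (Fin.last a)
    | some none => Sum.inr (Fin.last c)
    | some (some (Sum.inl i)) => Sum.inl i.castSucc
    | some (some (Sum.inr l)) => Sum.inr l.castSucc
  left_inv := by
    rintro (i | l)
    · refine Fin.lastCases ?_ (fun i => ?_) i <;> simp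
    · refine Fin.lastCases ?_ (fun l => ?_) l <;> simp
  right_inv := by
    rintro (_ | _ | i | l) <;> simp

theorem eVr_vr (s : Fin a ⊕ Fin c) : eVr a c (vr s) = some (some s) := by
  rcases s with i | l <;> simp [eVr, vr]

theorem eVr_u : eVr a c (Sum.inl (Fin.last a)) = none := by simp [eVr]

theorem eVr_w : eVr a c (Sum.inr (Fin.last c)) = some none := by simp [eVr]

variable (k) (a c) in
/-- two more variables -/
def e2v : MvPolynomial (Fin (a + 1) ⊕ Fin (c + 1)) k ≃+*
    Polynomial (Polynomial (MvPolynomial (Fin a ⊕ Fin c) k)) :=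
  ((MvPolynomial.renameEquiv k (eVr a c)).toRingEquiv.trans
    (MvPolynomial.optionEquivLeft k (Option (Fin a ⊕ Fin c))).toRingEquiv).trans
    (Polynomial.mapEquiv (MvPolynomial.optionEquivLeft k (Fin a ⊕ Fin c)).toRingEquiv)

theorem e2v_eq (p : MvPolynomial (Fin (a + 1) ⊕ Fin (c + 1)) k) : e2v k a c p =
    (MvPolynomial.optionEquivLeft k (Option (Fin a ⊕ Fin c))
      (MvPolynomial.rename (eVr a c) p)).map
      (MvPolynomial.optionEquivLeft k (Fin a ⊕ Fin c) : _ →+* _) := rfl

theorem e2v_u : e2v k a c (MvPolynomial.X (Sum.inl (Fin.last a))) = Polynomial.X := by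
  rw [e2v_eq, MvPolynomial.rename_X, eVr_u, MvPolynomial.optionEquivLeft_X_none,
    Polynomial.map_X]

theorem e2v_w : e2v k a c (MvPolynomial.X (Sum.inr (Fin.last c))) =
    Polynomial.C Polynomial.X := by
  rw [e2v_eq, MvPolynomial.rename_X, eVr_w, MvPolynomial.optionEquivLeft_X_some,
    Polynomial.map_C]
  congr 1
  exact MvPolynomial.optionEquivLeft_X_none ..

theorem e2v_C (p : MvPolynomial (Fin a ⊕ Fin c) k) :
    e2v k a c (MvPolynomial.rename vr p) = Polynomial.C (Polynomial.C p) := by
  rw [e2v_eq, MvPolynomial.rename_rename]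
  have h1 : eVr a c ∘ vr = some ∘ some := by
    funext s
    exact eVr_vr s
  rw [h1, ← MvPolynomial.rename_rename, opt_rename, Polynomial.map_C]
  congr 1
  exact opt_rename p

variable (t : Fin a → Fin b → Fin c → k)

/-- the bilinear system -/
abbrev LinR (t : Fin a → Fin b → Fin c → k) : Type :=
  MvPolynomial (Fin a ⊕ Fin c) k ⧸ Ideal.span (Set.range (cgj t))

/-- the map to the node -/
def toNd : MvPolynomial (Fin (a + 1) ⊕ Fin (c + 1)) k →+* Nd (LinR t) :=
  (mkN (LinR t)).comp ((Polynomial.mapRingHom (Polynomial.mapRingHom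
    (Ideal.Quotient.mk (Ideal.span (Set.range (cgj t)))))).comp (e2v k a c).toRingHom)

theorem surj_map {R S : Type} [CommRing R] [CommRing S] (f : R →+* S) (hf : Surjective f) :
    Surjective (Polynomial.mapRingHom (Polynomial.mapRingHom f)) :=
  Polynomial.map_surjective _ (Polynomial.map_surjective _ hf)

theorem toNd_surj : Surjective (toNd t) :=
  (mkN_surj _).comp ((surj_map _ Ideal.Quotient.mk_surjective).comp (e2v k a c).surjective)

theorem toNd_ker : RingHom.ker (toNd t) = Ideal.span (Set.range (cgj (tNd t))) := by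
  let P := MvPolynomial (Fin a ⊕ Fin c) k
  let I : Ideal P := Ideal.span (Set.range (cgj t))
  let g := Polynomial.mapRingHom (Polynomial.mapRingHom (Ideal.Quotient.mk I))
  have hg : Surjective g := surj_map _ Ideal.Quotient.mk_surjective
  -- the kernel of `g`
  have h1 : RingHom.ker g = (I.map Polynomial.C).map Polynomial.C := by
    rw [Polynomial.ker_mapRingHom, Polynomial.ker_mapRingHom, Ideal.mk_ker]
  have h2 : RingHom.ker ((mkN (LinR t)).comp g) =
      (I.map Polynomial.C).map Polynomial.C ⊔
        Ideal.span {(Polynomial.C Polynomial.X * Polynomial.X :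
          Polynomial (Polynomial P))} := by
    rw [← RingHom.comap_ker]
    have h3 : RingHom.ker (mkN (LinR t)) = (Ideal.span {(Polynomial.C Polynomial.X *
        Polynomial.X : Polynomial (Polynomial P))}).map g := by
      rw [Ideal.map_span, Set.image_singleton]
      have h4 : g (Polynomial.C Polynomial.X * Polynomial.X) =
          Polynomial.C Polynomial.X * Polynomial.X := by
        rw [map_mul]
        change Polynomial.map _ _ * Polynomial.map _ _ = _
        rw [Polynomial.map_C, Polynomial.map_X]
        congr 2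
        exact Polynomial.map_X _
      rw [h4]
      exact Ideal.mk_ker
    rw [h3, Ideal.comap_map_of_surjective g hg, sup_comm]
    congr 1
  have h5 : RingHom.ker (toNd t) =
      (RingHom.ker ((mkN (LinR t)).comp g)).comap (e2v k a c).toRingHom := rfl
  have h6 : (RingHom.ker ((mkN (LinR t)).comp g)).comap (e2v k a c).toRingHom =
      (RingHom.ker ((mkN (LinR t)).comp g)).map (e2v k a c).symm.toRingHom :=
    (Ideal.map_symm (e2v k a c)).symm
  rw [h5, h6, h2, Ideal.map_sup, Ideal.map_map, Ideal.map_map, Ideal.map_span, Ideal.map_span,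
    Set.image_singleton, ← Ideal.span_union]
  have h7 : ∀ p : P, (((e2v k a c).symm.toRingHom).comp (Polynomial.C.comp Polynomial.C)) p =
      MvPolynomial.rename vr p := by
    intro p
    change (e2v k a c).symm (Polynomial.C (Polynomial.C p)) = _
    rw [← e2v_C, RingEquiv.symm_apply_apply]
  have h8 : (e2v k a c).symm.toRingHom (Polynomial.C Polynomial.X * Polynomial.X) =
      cgj (tNd t) (Fin.last b) := by
    change (e2v k a c).symm (Polynomial.C Polynomial.X * Polynomial.X) = _
    rw [← e2v_u, ← e2v_w, ← map_mul, RingEquiv.symm_apply_apply, cgj_tNd_last, mul_comm]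
  rw [h8]
  congr 1
  ext p
  constructor
  · rintro (⟨_, ⟨j, rfl⟩, rfl⟩ | rfl)
    · exact ⟨j.castSucc, (cgj_tNd_cast t j).trans (h7 _).symm⟩
    · exact ⟨_, rfl⟩
  · rintro ⟨j, rfl⟩
    refine Fin.lastCases ?_ (fun j => ?_) j
    · exact Or.inr rfl
    · exact Or.inl ⟨cgj t j, ⟨j, rfl⟩, (h7 _).trans (cgj_tNd_cast t j).symm⟩

/-- the system with the additional equation is the node over the system -/
def linNd : LinR (tNd t) ≃+* Nd (LinR t) :=
  (Ideal.quotEquivOfEq (toNd_ker t).symm).trans
    (RingHom.quotientKerEquivOfSurjective (toNd_surj t))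

end

end Pool.Agent.KGT
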