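import Pool.Agent.GTH.Enc

/-!
# KGT: presentations of rings by bilinear forms with coefficients 0 and 1: definitions, one step
-/

set_option autoImplicit false

noncomputable section

namespace Pool.Agent.KGT

open Function MvPolynomial

/-- the variables `x_i`, `v_i` -/
abbrev Vr (σ : Type) : Type := MvPolynomial (σ ⊕ σ) ℤ

/-- the bilinear form `∑ x_i v_l` over the pairs of `T` -/
def bf {σ : Type} (T : Finset (σ × σ)) : Vr σ := ∑ s ∈ T, X (Sum.inl s.1) * X (Sum.inr s.2)

/-- the evaluation `x_i, v_i ↦ z_i` -/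
def ev2 {σ B : Type} [CommRing B] (z : σ → B) : Vr σ →+* B :=
  (MvPolynomial.aeval (Sum.elim z z) : Vr σ →ₐ[ℤ] B).toRingHom

/-- `z` generates the relations of `B`: the kernel of `x_i, v_i ↦ z_i` is generated by bilinear forms
with coefficients `0` and `1` and by `x_o - 1`, `v_o - 1` -/
structure Pr {B : Type} [CommRing B] (σ : Type) (o : σ) (z : σ → B) : Prop where
  one : z o = 1
  ker : ∃ R : Set (Finset (σ × σ)), RingHom.ker (ev2 z) =
    Ideal.span (bf '' R) ⊔ Ideal.span {X (Sum.inl o) - 1} ⊔ Ideal.span {X (Sum.inr o) - 1}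

/-- elimination of variables -/
theorem elim {P P' B : Type} [CommRing P] [CommRing P'] [CommRing B] (ι : P →+* P')
    (e : P' →+* B) (I' : Ideal P') (h1 : I' ≤ RingHom.ker e)
    (h2 : (RingHom.ker (e.comp ι)).map ι ≤ I')
    (h3 : Surjective ((Ideal.Quotient.mk I').comp ι)) : RingHom.ker e = I' := by
  refine le_antisymm (fun p hp => ?_) h1
  obtain ⟨q, hq⟩ := h3 (Ideal.Quotient.mk I' p)
  rw [RingHom.comp_apply, Ideal.Quotient.eq] at hq
  have h4 : ι q ∈ RingHom.ker e := by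
    have h5 := (RingHom.mem_ker).1 (h1 hq)
    rw [map_sub, (RingHom.mem_ker).1 hp, sub_zero] at h5
    exact h5
  have h5 : ι q ∈ I' := h2 (Ideal.mem_map_of_mem ι h4)
  have := I'.sub_mem h5 hq
  rwa [sub_sub_cancel] at this

theorem ev2_X {σ B : Type} [CommRing B] (z : σ → B) (s : σ ⊕ σ) : ev2 z (X s) = Sum.elim z z s :=
  MvPolynomial.aeval_X _ _

theorem ev2_bf {σ B : Type} [CommRing B] (z : σ → B) (T : Finset (σ × σ)) :
    ev2 z (bf T) = ∑ s ∈ T, z s.1 * z s.2 := by
  unfold bf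
  rw [map_sum]
  refine Finset.sum_congr rfl fun s _ => ?_
  rw [map_mul, ev2_X, ev2_X]
  rfl

/-- the inclusion of the variables -/
def inc {σ τ : Type} (φ : σ → τ) : Vr σ →+* Vr τ :=
  (MvPolynomial.rename (Sum.map φ φ) : Vr σ →ₐ[ℤ] Vr τ).toRingHom

theorem inc_X {σ τ : Type} (φ : σ → τ) (s : σ ⊕ σ) : inc φ (X s) = X (Sum.map φ φ s) :=
  MvPolynomial.rename_X _ _

theorem inc_bf {σ τ : Type} [DecidableEq τ] (φ : σ → τ) (hφ : Injective φ)
    (T : Finset (σ × σ)) : inc φ (bf T) = bf (T.image (Prod.map φ φ)) := by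
  unfold bf
  rw [map_sum, Finset.sum_image ((hφ.prodMap hφ).injOn)]
  refine Finset.sum_congr rfl fun s _ => ?_
  rw [map_mul, inc_X, inc_X]
  rfl

/-- One step: new generators `τ ⊇ σ`; each new variable is determined by new bilinear forms. -/
theorem Pr.step {B : Type} [CommRing B] {σ τ : Type} [DecidableEq τ] {o : σ} {z : σ → B}
    (h : Pr σ o z) (φ : σ → τ) (hφ : Injective φ) (z' : τ → B) (hz : ∀ i, z' (φ i) = z i)
    (N : Set (Finset (τ × τ))) (hN : ∀ T ∈ N, ∑ s ∈ T, z' s.1 * z' s.2 = 0)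
    (hS : ∀ (Q : Type) [CommRing Q] (f : Vr τ →+* Q), f (X (Sum.inl (φ o))) = 1 →
      f (X (Sum.inr (φ o))) = 1 → (∀ T ∈ N, f (bf T) = 0) → ∀ s, f (X s) ∈ (f.comp (inc φ)).range) :
    Pr τ (φ o) z' := by
  refine ⟨(hz o).trans h.one, ?_⟩
  obtain ⟨R, hR⟩ := h.ker
  let R' : Set (Finset (τ × τ)) := (fun T => T.image (Prod.map φ φ)) '' R ∪ N
  have ho : z' (φ o) = 1 := (hz o).trans h.one
  have hc : (ev2 z').comp (inc φ) = ev2 z := by
    apply MvPolynomial.ringHom_ext'
    · exact Subsingleton.elim _ _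
    · intro s
      rw [RingHom.comp_apply, inc_X, ev2_X, ev2_X]
      rcases s with i | i <;> exact hz i
  have hz0 : ∀ i l, z' (φ i) * z' (φ l) = z i * z l := fun i l => by rw [hz, hz]
  refine ⟨R', elim (inc φ) (ev2 z') _ ?_ ?_ ?_⟩
  · refine sup_le (sup_le ?_ ?_) ?_
    · rw [Ideal.span_le]
      rintro _ ⟨T, hT | hT, rfl⟩
      · obtain ⟨T, hT, rfl⟩ := hT
        change _ ∈ RingHom.ker _
        rw [← inc_bf φ hφ, RingHom.mem_ker, ← RingHom.comp_apply, hc, ← RingHom.mem_ker, hR]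
        exact Ideal.mem_sup_left (Ideal.mem_sup_left (Ideal.subset_span ⟨T, hT, rfl⟩))
      · change _ ∈ RingHom.ker _
        rw [RingHom.mem_ker, ev2_bf]
        exact hN T hT
    · rw [Ideal.span_le, Set.singleton_subset_iff]
      change _ ∈ RingHom.ker _
      rw [RingHom.mem_ker, map_sub, map_one, ev2_X]
      exact sub_eq_zero.2 ho
    · rw [Ideal.span_le, Set.singleton_subset_iff]
      change _ ∈ RingHom.ker _
      rw [RingHom.mem_ker, map_sub, map_one, ev2_X]
      exact sub_eq_zero.2 ho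
  · rw [hc, hR, Ideal.map_sup, Ideal.map_sup, Ideal.map_span, Ideal.map_span, Ideal.map_span,
      Set.image_singleton, Set.image_singleton, map_sub, map_one, inc_X, map_sub, map_one, inc_X]
    refine sup_le_sup (sup_le_sup (Ideal.span_mono ?_) le_rfl) le_rfl
    rintro _ ⟨_, ⟨T, hT, rfl⟩, rfl⟩
    exact ⟨T.image (Prod.map φ φ), Or.inl ⟨T, hT, rfl⟩, (inc_bf φ hφ T).symm⟩
  · intro p
    obtain ⟨p, rfl⟩ := Ideal.Quotient.mk_surjective p
    set J := Ideal.span (bf '' R') ⊔ Ideal.span {X (Sum.inl (φ o)) - 1} ⊔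
      Ideal.span {X (Sum.inr (φ o)) - 1} with hJ
    have hX := hS (Vr τ ⧸ J) (Ideal.Quotient.mk J) (by
      rw [← map_one (Ideal.Quotient.mk J), Ideal.Quotient.eq]
      exact Ideal.mem_sup_left (Ideal.mem_sup_right (Ideal.mem_span_singleton_self _))) (by
      rw [← map_one (Ideal.Quotient.mk J), Ideal.Quotient.eq]
      exact Ideal.mem_sup_right (Ideal.mem_span_singleton_self _)) (fun T hT =>
      Ideal.Quotient.eq_zero_iff_mem.2 (Ideal.mem_sup_left (Ideal.mem_sup_left
        (Ideal.subset_span ⟨T, Or.inr hT, rfl⟩))))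
    change Ideal.Quotient.mk J p ∈ ((Ideal.Quotient.mk J).comp (inc φ)).range
    induction p using MvPolynomial.induction_on with
    | C a => exact ⟨C a, by simp [inc]⟩
    | add p q hp hq => rw [map_add]; exact Subring.add_mem _ hp hq
    | mul_X p s hp => rw [map_mul]; exact Subring.mul_mem _ hp (hX s)

end Pool.Agent.KGT
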