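import Pool.Agent.KGT.PresA

/-!
# KGT: presentations by bilinear forms with coefficients 0 and 1: adjoining elements
-/

set_option autoImplicit false

noncomputable section

namespace Pool.Agent.KGT

open Function MvPolynomial

/-- adjoining `w` and `-w` -/
def ext2 {σ B : Type} [CommRing B] (z : σ → B) (w : B) : Option (Option σ) → B
  | none => w
  | some none => -w
  | some (some i) => z i

theorem Pr.new {B : Type} [CommRing B] {σ : Type} {o : σ} {z : σ → B}
    (h : Pr σ o z) (U : Finset (σ × σ)) (w : B) (hw : ∑ s ∈ U, z s.1 * z s.2 = w) :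
    Pr (Option (Option σ)) (some (some o)) (ext2 z w) := by
  classical
  let φ : σ → Option (Option σ) := fun i => some (some i)
  have hφ : Injective φ := fun a b hab => Option.some_injective _ (Option.some_injective _ hab)
  have h1 : z o = 1 := h.one
  let T1 : Finset (Option (Option σ) × Option (Option σ)) :=
    insert (φ o, some none) (U.image (Prod.map φ φ))
  let T2 : Finset (Option (Option σ) × Option (Option σ)) := {(φ o, none), (φ o, some none)}
  let T3 : Finset (Option (Option σ) × Option (Option σ)) := {(none, φ o), (φ o, some none)}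
  let T4 : Finset (Option (Option σ) × Option (Option σ)) := {(some none, φ o), (φ o, none)}
  have n1 : (φ o, (some none : Option (Option σ))) ∉ U.image (Prod.map φ φ) := by
    intro hm
    obtain ⟨⟨a, b⟩, -, hab⟩ := Finset.mem_image.1 hm
    have := congrArg Prod.snd hab
    cases this
  have n2 : ((φ o, none) : Option (Option σ) × Option (Option σ)) ∉
      ({(φ o, some none)} : Finset (Option (Option σ) × Option (Option σ))) := by
    simp
  have n3 : ((none, φ o) : Option (Option σ) × Option (Option σ)) ∉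
      ({(φ o, some none)} : Finset (Option (Option σ) × Option (Option σ))) := by
    simp [φ]
  have n4 : ((some none, φ o) : Option (Option σ) × Option (Option σ)) ∉
      ({(φ o, none)} : Finset (Option (Option σ) × Option (Option σ))) := by
    simp [φ]
  refine h.step φ hφ (ext2 z w) (fun i => rfl) {T1, T2, T3, T4} ?_ ?_
  · rintro T (rfl | rfl | rfl | rfl)
    · rw [Finset.sum_insert n1, Finset.sum_image ((hφ.prodMap hφ).injOn)]
      change z o * -w + ∑ s ∈ U, z s.1 * z s.2 = 0
      rw [hw, h1]
      ring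
    · rw [Finset.sum_insert n2, Finset.sum_singleton]
      change z o * w + z o * -w = 0
      ring
    · rw [Finset.sum_insert n3, Finset.sum_singleton]
      change w * z o + z o * -w = 0
      ring
    · rw [Finset.sum_insert n4, Finset.sum_singleton]
      change -w * z o + z o * w = 0
      ring
  · intro Q _ f f1 f2 fN s
    have g1 := fN T1 (by simp)
    have g2 := fN T2 (by simp)
    have g3 := fN T3 (by simp)
    have g4 := fN T4 (by simp)
    unfold bf at g1 g2 g3 g4
    rw [Finset.sum_insert n1, map_add, map_mul, f1, one_mul] at g1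
    rw [Finset.sum_insert n2, Finset.sum_singleton, map_add, map_mul, map_mul, f1, one_mul,
      one_mul] at g2
    rw [Finset.sum_insert n3, Finset.sum_singleton, map_add, map_mul, map_mul, f1, f2, one_mul,
      mul_one] at g3
    rw [Finset.sum_insert n4, Finset.sum_singleton, map_add, map_mul, map_mul, f1, f2, one_mul,
      mul_one] at g4
    have hU : f (∑ s ∈ U.image (Prod.map φ φ), X (Sum.inl s.1) * X (Sum.inr s.2)) =
        f (inc φ (bf U)) := congrArg f (inc_bf φ hφ U).symm
    rw [hU] at g1
    have r1 : f (X (Sum.inr (some none))) ∈ (f.comp (inc φ)).range := by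
      rw [eq_neg_of_add_eq_zero_left g1]
      exact Subring.neg_mem _ ⟨bf U, rfl⟩
    have r2 : f (X (Sum.inr none)) ∈ (f.comp (inc φ)).range := by
      rw [eq_neg_of_add_eq_zero_left g2]
      exact Subring.neg_mem _ r1
    rcases s with (_ | _ | i) | (_ | _ | i)
    · rw [eq_neg_of_add_eq_zero_left g3]
      exact Subring.neg_mem _ r1
    · rw [eq_neg_of_add_eq_zero_left g4]
      exact Subring.neg_mem _ r2
    · exact ⟨X (Sum.inl i), by rw [RingHom.comp_apply, inc_X]; rfl⟩
    · exact r2
    · exact r1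
    · exact ⟨X (Sum.inr i), by rw [RingHom.comp_apply, inc_X]; rfl⟩

/-- an extension of a system of generators -/
structure Ext {B σ τ : Type} (o : σ) (z : σ → B) (o' : τ) (z' : τ → B) where
  φ : σ → τ
  hz : ∀ i, z' (φ i) = z i
  ho : φ o = o'

/-- adjoining an element -/
def extE {B : Type} [CommRing B] {σ : Type} (o : σ) (z : σ → B) (w : B) :
    Ext o z (some (some o)) (ext2 z w) := ⟨fun i => some (some i), fun _ => rfl, rfl⟩

def Ext.trans {B σ τ ρ : Type} {o : σ} {z : σ → B} {o' : τ} {z' : τ → B} {o'' : ρ} {z'' : ρ → B}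
    (e : Ext o z o' z') (e' : Ext o' z' o'' z'') : Ext o z o'' z'' :=
  ⟨e'.φ ∘ e.φ, fun i => by rw [comp_apply, e'.hz, e.hz], by rw [comp_apply, e.ho, e'.ho]⟩

section

variable {B : Type} [CommRing B] {σ₀ : Type} (o₀ : σ₀) (z₀ : σ₀ → B)

/-- the element can be adjoined to every extension of `z₀` -/
def Reach (w : B) : Prop :=
  ∀ (σ : Type) [Finite σ] (o : σ) (z : σ → B), Ext o₀ z₀ o z → Pr σ o z →
    ∃ (τ : Type) (_ : Finite τ) (o' : τ) (z' : τ → B) (_ : Ext o z o' z') (i : τ),
      Pr τ o' z' ∧ z' i = w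

variable {o₀ z₀}

theorem reach_z (i : σ₀) : Reach o₀ z₀ (z₀ i) := fun σ _ o z e h =>
  ⟨σ, inferInstance, o, z, ⟨id, fun _ => rfl, rfl⟩, e.φ i, h, e.hz i⟩

theorem reach_zero : Reach o₀ z₀ (0 : B) := fun σ _ o z _ h =>
  ⟨_, inferInstance, _, _, extE o z 0, none, h.new ∅ 0 (by simp), rfl⟩

theorem reach_one : Reach o₀ z₀ (1 : B) := fun σ _ o z _ h =>
  ⟨_, inferInstance, _, _, extE o z 1, none, h.new {(o, o)} 1 (by simp [h.one]), rfl⟩

theorem Reach.neg {w : B} (h : Reach o₀ z₀ w) : Reach o₀ z₀ (-w) := fun σ _ o z e0 hp => by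
  obtain ⟨τ, _, o', z', e, i, hp', hi⟩ := h σ o z e0 hp
  refine ⟨_, inferInstance, _, _, e.trans (extE o' z' w), some none, hp'.new {(o', i)} w ?_, rfl⟩
  rw [Finset.sum_singleton, hp'.one, one_mul, hi]

theorem Reach.mul {w w' : B} (h : Reach o₀ z₀ w) (h' : Reach o₀ z₀ w') :
    Reach o₀ z₀ (w * w') := fun σ _ o z e0 hp => by
  obtain ⟨τ, _, o1, z1, e1, i, hp1, hi⟩ := h σ o z e0 hp
  obtain ⟨ρ, _, o2, z2, e2, j, hp2, hj⟩ := h' τ o1 z1 (e0.trans e1) hp1
  refine ⟨_, inferInstance, _, _, (e1.trans e2).trans (extE o2 z2 (w * w')), none,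
    hp2.new {(e2.φ i, j)} (w * w') ?_, rfl⟩
  rw [Finset.sum_singleton, e2.hz, hi, hj]

theorem Reach.add {w w' : B} (h : Reach o₀ z₀ w) (h' : Reach o₀ z₀ w') :
    Reach o₀ z₀ (w + w') := fun σ _ o z e0 hp => by
  obtain ⟨τ, _, o1, z1, e1, i, hp1, hi⟩ := h σ o z e0 hp
  obtain ⟨ρ, _, o2, z2, e2, j, hp2, hj⟩ := h' τ o1 z1 (e0.trans e1) hp1
  -- a copy of the second element
  have hp3 : Pr (Option (Option ρ)) (some (some o2)) (ext2 z2 w') := hp2.new {(o2, j)} w' (by
    rw [Finset.sum_singleton, hp2.one, one_mul, hj])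
  classical
  refine ⟨_, inferInstance, _, _, ((e1.trans e2).trans (extE o2 z2 w')).trans
    (extE _ _ (w + w')), none, hp3.new {(some (some o2), some (some (e2.φ i))),
      (some (some o2), none)} (w + w') ?_, rfl⟩
  rw [Finset.sum_insert (by simp), Finset.sum_singleton]
  change z2 o2 * z2 (e2.φ i) + z2 o2 * w' = w + w'
  rw [hp2.one, one_mul, one_mul, e2.hz, hi]

variable (o₀ z₀) in
/-- the elements which can be adjoined are a subring -/
def reachSub : Subring B where
  carrier := {w | Reach o₀ z₀ w}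
  mul_mem' := fun h h' => h.mul h'
  one_mem' := reach_one
  add_mem' := fun h h' => h.add h'
  zero_mem' := reach_zero
  neg_mem' := fun h => h.neg

theorem reach_all (hs : Surjective (ev2 z₀)) (w : B) : Reach o₀ z₀ w := by
  obtain ⟨p, rfl⟩ := hs w
  change ev2 z₀ p ∈ reachSub o₀ z₀
  induction p using MvPolynomial.induction_on with
  | C a =>
    have h1 : (ev2 z₀) (C a) = (a : B) := by
      have := MvPolynomial.aeval_C (R := ℤ) (Sum.elim z₀ z₀) a
      refine this.trans ?_
      simp
    rw [h1]
    exact intCast_mem _ a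
  | add p q hp hq => rw [map_add]; exact Subring.add_mem _ hp hq
  | mul_X p s hp =>
    rw [map_mul, ev2_X]
    refine Subring.mul_mem _ hp ?_
    rcases s with i | i
    · exact reach_z i
    · exact reach_z i

end

end Pool.Agent.KGT
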