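import Pool.Agent.KGT.PresB

/-!
# KGT: presentations by bilinear forms with coefficients 0 and 1: polynomial rings, quotients
-/

set_option autoImplicit false

noncomputable section

namespace Pool.Agent.KGT

open Function MvPolynomial

/-- the generators `±1`, `±X_i` of a polynomial ring -/
def z0 (ι : Type) : Option ι ⊕ Option ι → MvPolynomial ι ℤ
  | Sum.inl none => 1
  | Sum.inl (some i) => X i
  | Sum.inr none => -1
  | Sum.inr (some i) => -X i

theorem z0_neg {ι : Type} (a : Option ι) : z0 ι (Sum.inr a) = -z0 ι (Sum.inl a) := by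
  rcases a with _ | i <;> rfl

theorem pr_base (ι : Type) : Pr (Option ι ⊕ Option ι) (Sum.inl none) (z0 ι) := by
  classical
  let o : Option ι ⊕ Option ι := Sum.inl none
  let P1 : Option ι → Finset ((Option ι ⊕ Option ι) × (Option ι ⊕ Option ι)) := fun a =>
    {(Sum.inl a, o), (o, Sum.inr a)}
  let P2 : Option ι → Finset ((Option ι ⊕ Option ι) × (Option ι ⊕ Option ι)) := fun a =>
    {(o, Sum.inl a), (o, Sum.inr a)}
  let P3 : Option ι → Finset ((Option ι ⊕ Option ι) × (Option ι ⊕ Option ι)) := fun a =>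
    {(Sum.inr a, o), (o, Sum.inl a)}
  have n1 : ∀ a, ((Sum.inl a, o) : (Option ι ⊕ Option ι) × (Option ι ⊕ Option ι)) ∉
      ({(o, Sum.inr a)} : Finset _) := fun a => by simp [o]
  have n2 : ∀ a, ((o, Sum.inl a) : (Option ι ⊕ Option ι) × (Option ι ⊕ Option ι)) ∉
      ({(o, Sum.inr a)} : Finset _) := fun a => by simp [o]
  have n3 : ∀ a, ((Sum.inr a, o) : (Option ι ⊕ Option ι) × (Option ι ⊕ Option ι)) ∉
      ({(o, Sum.inl a)} : Finset _) := fun a => by simp [o]
  have ho : z0 ι o = 1 := rfl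
  let j : MvPolynomial ι ℤ →+* Vr (Option ι ⊕ Option ι) :=
    (MvPolynomial.rename (fun i => Sum.inl (Sum.inl (some i))) :
      MvPolynomial ι ℤ →ₐ[ℤ] Vr (Option ι ⊕ Option ι)).toRingHom
  have hj : ∀ i, j (X i) = X (Sum.inl (Sum.inl (some i))) := fun i => MvPolynomial.rename_X _ _
  have hc : (ev2 (z0 ι)).comp j = RingHom.id _ := by
    apply MvPolynomial.ringHom_ext'
    · exact Subsingleton.elim _ _
    · intro s
      rw [RingHom.comp_apply, hj, ev2_X]
      rfl
  refine ⟨ho, Set.range P1 ∪ Set.range P2 ∪ Set.range P3, elim j (ev2 (z0 ι)) _ ?_ ?_ ?_⟩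
  · refine sup_le (sup_le ?_ ?_) ?_
    · rw [Ideal.span_le]
      rintro _ ⟨T, (⟨a, rfl⟩ | ⟨a, rfl⟩) | ⟨a, rfl⟩, rfl⟩
      · change _ ∈ RingHom.ker _
        rw [RingHom.mem_ker, ev2_bf, Finset.sum_insert (n1 a), Finset.sum_singleton, ho, z0_neg]
        ring
      · change _ ∈ RingHom.ker _
        rw [RingHom.mem_ker, ev2_bf, Finset.sum_insert (n2 a), Finset.sum_singleton, ho, z0_neg]
        ring
      · change _ ∈ RingHom.ker _
        rw [RingHom.mem_ker, ev2_bf, Finset.sum_insert (n3 a), Finset.sum_singleton, ho, z0_neg]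
        ring
    · rw [Ideal.span_le, Set.singleton_subset_iff]
      change _ ∈ RingHom.ker _
      rw [RingHom.mem_ker, map_sub, map_one, ev2_X]
      exact sub_eq_zero.2 ho
    · rw [Ideal.span_le, Set.singleton_subset_iff]
      change _ ∈ RingHom.ker _
      rw [RingHom.mem_ker, map_sub, map_one, ev2_X]
      exact sub_eq_zero.2 ho
  · rw [hc]
    have : RingHom.ker (RingHom.id (MvPolynomial ι ℤ)) = ⊥ :=
      (RingHom.injective_iff_ker_eq_bot _).1 injective_id
    rw [this, Ideal.map_bot]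
    exact bot_le
  · intro p
    obtain ⟨p, rfl⟩ := Ideal.Quotient.mk_surjective p
    set J := Ideal.span (bf '' (Set.range P1 ∪ Set.range P2 ∪ Set.range P3)) ⊔
      Ideal.span {X (Sum.inl o) - 1} ⊔ Ideal.span {X (Sum.inr o) - 1} with hJ
    let f := Ideal.Quotient.mk J
    have f1 : f (X (Sum.inl o)) = 1 := by
      rw [← map_one f, Ideal.Quotient.eq]
      exact Ideal.mem_sup_left (Ideal.mem_sup_right (Ideal.mem_span_singleton_self _))
    have f2 : f (X (Sum.inr o)) = 1 := by
      rw [← map_one f, Ideal.Quotient.eq]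
      exact Ideal.mem_sup_right (Ideal.mem_span_singleton_self _)
    have fN : ∀ T ∈ Set.range P1 ∪ Set.range P2 ∪ Set.range P3, f (bf T) = 0 := fun T hT =>
      Ideal.Quotient.eq_zero_iff_mem.2 (Ideal.mem_sup_left (Ideal.mem_sup_left
        (Ideal.subset_span ⟨T, hT, rfl⟩)))
    have r0 : ∀ a, f (X (Sum.inl (Sum.inl a))) ∈ (f.comp j).range := by
      rintro (_ | i)
      · rw [f1]
        exact Subring.one_mem _
      · exact ⟨X i, by rw [RingHom.comp_apply, hj]⟩
    have r1 : ∀ a, f (X (Sum.inr (Sum.inr a))) ∈ (f.comp j).range := by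
      intro a
      have g := fN (P1 a) (Or.inl (Or.inl ⟨a, rfl⟩))
      unfold bf at g
      rw [Finset.sum_insert (n1 a), Finset.sum_singleton, map_add, map_mul, map_mul, f1, f2,
        one_mul, mul_one] at g
      rw [eq_neg_of_add_eq_zero_right g]
      exact Subring.neg_mem _ (r0 a)
    have r2 : ∀ a, f (X (Sum.inr (Sum.inl a))) ∈ (f.comp j).range := by
      intro a
      have g := fN (P2 a) (Or.inl (Or.inr ⟨a, rfl⟩))
      unfold bf at g
      rw [Finset.sum_insert (n2 a), Finset.sum_singleton, map_add, map_mul, map_mul, f1,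
        one_mul, one_mul] at g
      rw [eq_neg_of_add_eq_zero_left g]
      exact Subring.neg_mem _ (r1 a)
    have r3 : ∀ a, f (X (Sum.inl (Sum.inr a))) ∈ (f.comp j).range := by
      intro a
      have g := fN (P3 a) (Or.inr ⟨a, rfl⟩)
      unfold bf at g
      rw [Finset.sum_insert (n3 a), Finset.sum_singleton, map_add, map_mul, map_mul, f1, f2,
        one_mul, mul_one] at g
      rw [eq_neg_of_add_eq_zero_left g]
      exact Subring.neg_mem _ (r2 a)
    change f p ∈ (f.comp j).range
    induction p using MvPolynomial.induction_on with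
    | C a => exact ⟨C a, by simp [j]⟩
    | add p q hp hq => rw [map_add]; exact Subring.add_mem _ hp hq
    | mul_X p s hp =>
      rw [map_mul]
      refine Subring.mul_mem _ hp ?_
      rcases s with (a | a) | (a | a)
      · exact r0 a
      · exact r3 a
      · exact r2 a
      · exact r1 a

/-- quotients by generators -/
theorem Pr.quot {R B : Type} [CommRing R] [CommRing B] {σ : Type} {o : σ} {z : σ → R}
    (h : Pr σ o z) (hs : Surjective (ev2 z)) (S : Set σ) (π : R →+* B)
    (hπ : RingHom.ker π = Ideal.span (z '' S)) : Pr σ o (π ∘ z) := by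
  refine ⟨by rw [comp_apply, h.one, map_one], ?_⟩
  obtain ⟨Rl, hR⟩ := h.ker
  refine ⟨Rl ∪ (fun i => {(o, i)}) '' S, ?_⟩
  have hc : ev2 (π ∘ z) = π.comp (ev2 z) := by
    apply MvPolynomial.ringHom_ext'
    · exact Subsingleton.elim _ _
    · intro s
      rw [RingHom.comp_apply, ev2_X, ev2_X]
      rcases s with i | i <;> rfl
  have hb : ∀ i, bf ({(o, i)} : Finset (σ × σ)) = X (Sum.inl o) * X (Sum.inr i) := fun i =>
    Finset.sum_singleton _ _
  have e1 : z '' S = ev2 z '' (bf '' ((fun i => ({(o, i)} : Finset (σ × σ))) '' S)) := by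
    rw [← Set.image_comp, ← Set.image_comp]
    refine Set.image_congr fun i _ => ?_
    rw [comp_apply, comp_apply, hb, map_mul, ev2_X, ev2_X]
    change z i = z o * z i
    rw [h.one, one_mul]
  have e2 : RingHom.ker (ev2 (π ∘ z)) =
      Ideal.span (bf '' ((fun i => ({(o, i)} : Finset (σ × σ))) '' S)) ⊔ RingHom.ker (ev2 z) := by
    rw [hc, ← RingHom.comap_ker, hπ, e1, ← Ideal.map_span, Ideal.comap_map_of_surjective _ hs,
      RingHom.ker_eq_comap_bot]
  rw [e2, hR, Set.image_union, Ideal.span_union]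
  ac_rfl

/-- extensions generate -/
theorem Ext.surj {B σ τ : Type} [CommRing B] {o : σ} {z : σ → B} {o' : τ} {z' : τ → B}
    (e : Ext o z o' z') (hs : Surjective (ev2 z)) : Surjective (ev2 z') := by
  have hc : (ev2 z').comp (inc e.φ) = ev2 z := by
    apply MvPolynomial.ringHom_ext'
    · exact Subsingleton.elim _ _
    · intro s
      rw [RingHom.comp_apply, inc_X, ev2_X, ev2_X]
      rcases s with i | i <;> exact e.hz i
  intro b
  obtain ⟨p, hp⟩ := hs b
  exact ⟨inc e.φ p, by rw [← RingHom.comp_apply, hc, hp]⟩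

/-- finitely many elements can be adjoined -/
theorem reach_fin {B : Type} [CommRing B] (H : Finset B) (σ : Type)
    [Finite σ] (o : σ) (z : σ → B) (h : Pr σ o z) (hs : Surjective (ev2 z)) :
    ∃ (τ : Type) (_ : Finite τ) (o' : τ) (z' : τ → B) (_ : Ext o z o' z'), Pr τ o' z' ∧
      ∀ w ∈ H, ∃ i, z' i = w := by
  classical
  induction H using Finset.induction_on with
  | empty => exact ⟨σ, inferInstance, o, z, ⟨id, fun _ => rfl, rfl⟩, h, by simp⟩
  | insert w H _ ih =>
    obtain ⟨τ, _, o1, z1, e1, h1, hH⟩ := ih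
    obtain ⟨ρ, _, o2, z2, e2, i, h2, hi⟩ := reach_all (o₀ := o) hs w τ o1 z1 e1 h1
    refine ⟨ρ, inferInstance, o2, z2, e1.trans e2, h2, fun v hv => ?_⟩
    rcases Finset.mem_insert.1 hv with rfl | hv
    · exact ⟨i, hi⟩
    · obtain ⟨j, hj⟩ := hH v hv
      exact ⟨e2.φ j, by rw [e2.hz, hj]⟩

/-- every finitely generated ring has such a presentation -/
theorem exists_pr (B : Type) [CommRing B] [hB : Algebra.FiniteType ℤ B] :
    ∃ (σ : Type) (_ : Finite σ) (o : σ) (z : σ → B), Pr σ o z ∧ Surjective (ev2 z) := by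
  obtain ⟨n, f, hf⟩ := Algebra.FiniteType.iff_quotient_mvPolynomial''.1 hB
  have hs0 : Surjective (ev2 (z0 (Fin n))) := by
    intro p
    refine ⟨MvPolynomial.rename (fun i => Sum.inl (Sum.inl (some i))) p, ?_⟩
    induction p using MvPolynomial.induction_on with
    | C a =>
      rw [MvPolynomial.rename_C]
      exact MvPolynomial.aeval_C _ _
    | add p q hp hq => rw [map_add, map_add, hp, hq]
    | mul_X p i hp =>
      rw [map_mul, map_mul, hp, MvPolynomial.rename_X, ev2_X]
      rfl
  obtain ⟨H, hH⟩ := IsNoetherian.noetherian (RingHom.ker f.toRingHom)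
  obtain ⟨τ, _, o, z, e, h, hz⟩ := reach_fin H _ _ _ (pr_base (Fin n)) hs0
  have hs := e.surj hs0
  let S : Set τ := {i | z i ∈ H}
  have hS : z '' S = H := by
    ext w
    constructor
    · rintro ⟨i, hi, rfl⟩
      exact hi
    · intro hw
      obtain ⟨i, rfl⟩ := hz w hw
      exact ⟨i, hw, rfl⟩
  refine ⟨τ, inferInstance, o, f.toRingHom ∘ z, h.quot hs S f.toRingHom ?_, ?_⟩
  · rw [hS]
    exact hH.symm
  · have hc : ev2 (f.toRingHom ∘ z) = f.toRingHom.comp (ev2 z) := by
      apply MvPolynomial.ringHom_ext'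
      · exact Subsingleton.elim _ _
      · intro s
        rw [RingHom.comp_apply, ev2_X, ev2_X]
        rcases s with i | i <;> rfl
    rw [hc]
    exact hf.comp hs

end Pool.Agent.KGT
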