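import Pool.Agent.KGT.PresC

/-!
# KGT: presentations by bilinear forms with coefficients 0 and 1: tensors
-/

set_option autoImplicit false
set_option linter.unusedSectionVars false

noncomputable section

namespace Pool.Agent.KGT

open Function MvPolynomial Pool.Agent.GTH
open BassH (triF cubF cgj TriRing CubRing CompRing)
open Pool.Agent.Helper11 (homog homog_C homog_X)

/-- the coefficients are `0` and `1` -/
def Is01 {k : Type} [CommRing k] {a b c : ℕ} (t : Fin a → Fin b → Fin c → k) : Prop :=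
  ∀ i j l, t i j l = 0 ∨ t i j l = 1

open Classical in
/-- the tensor of a family of sets of pairs -/
def tOf {σ : Type} {m b : ℕ} (e : σ ≃ Fin m) (T : Fin b → Finset (σ × σ)) :
    Fin m → Fin b → Fin m → ℤ := fun i j l =>
  if (e.symm i, e.symm l) ∈ T j then 1 else 0

theorem tOf_is {σ : Type} {m b : ℕ} (e : σ ≃ Fin m) (T : Fin b → Finset (σ × σ)) :
    Is01 (tOf e T) := by
  intro i j l
  unfold tOf
  split_ifs
  · exact Or.inr rfl
  · exact Or.inl rfl

/-- renaming of the variables -/
def rho {σ : Type} {m : ℕ} (e : σ ≃ Fin m) : Vr σ ≃+* MvPolynomial (Fin m ⊕ Fin m) ℤ :=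
  (MvPolynomial.renameEquiv ℤ (Equiv.sumCongr e e)).toRingEquiv

theorem rho_X {σ : Type} {m : ℕ} (e : σ ≃ Fin m) (s : σ ⊕ σ) :
    rho e (X s) = X (Sum.map e e s) := by
  change MvPolynomial.renameEquiv ℤ (Equiv.sumCongr e e) (X s) = _
  rw [MvPolynomial.renameEquiv_apply, MvPolynomial.rename_X]
  rfl

theorem cgj_tOf {σ : Type} {m b : ℕ} (e : σ ≃ Fin m) (T : Fin b → Finset (σ × σ)) (j : Fin b) :
    cgj (tOf e T) j = rho e (bf (T j)) := by
  classical
  have h1 : ∀ i l, C (tOf e T i j l) * X (Sum.inl i) * X (Sum.inr l) =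
      (if (e.symm i, e.symm l) ∈ T j then X (Sum.inl i) * X (Sum.inr l) else 0 :
        MvPolynomial (Fin m ⊕ Fin m) ℤ) := by
    intro i l
    have h2 : tOf e T i j l = if (e.symm i, e.symm l) ∈ T j then 1 else 0 := by
      unfold tOf
      congr
    rw [h2]
    split_ifs
    · rw [map_one, one_mul]
    · rw [map_zero, zero_mul, zero_mul]
  have h3 : cgj (tOf e T) j = ∑ i, ∑ l, C (tOf e T i j l) * X (Sum.inl i) * X (Sum.inr l) := rfl
  have h4 : rho e (bf (T j)) = ∑ s ∈ T j, X (Sum.inl (e s.1)) * X (Sum.inr (e s.2)) := by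
    unfold bf
    rw [map_sum]
    refine Finset.sum_congr rfl fun s _ => ?_
    rw [map_mul, rho_X, rho_X]
    rfl
  rw [h3, h4]
  simp only [h1]
  rw [← Finset.sum_product', ← Finset.sum_filter]
  symm
  refine Finset.sum_bij (fun s _ => (e s.1, e s.2)) ?_ ?_ ?_ ?_
  · intro s hs
    rw [Finset.mem_filter]
    refine ⟨Finset.mem_product.2 ⟨Finset.mem_univ _, Finset.mem_univ _⟩, ?_⟩
    simpa using hs
  · intro a _ b _ hab
    exact Prod.ext (e.injective (congrArg Prod.fst hab)) (e.injective (congrArg Prod.snd hab))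
  · intro b hb
    rw [Finset.mem_filter] at hb
    exact ⟨(e.symm b.1, e.symm b.2), hb.2, by simp⟩
  · intro s _
    rfl

theorem exists_pres01 (B : Type) [CommRing B] [Algebra.FiniteType ℤ B] :
    ∃ (n b c : ℕ) (t : Fin (n + 1) → Fin b → Fin c → ℤ) (l₀ : Fin c)
      (ev : MvPolynomial (Fin (n + 1) ⊕ Fin c) ℤ →+* B), Is01 t ∧
      Surjective ev ∧ RingHom.ker ev = Ideal.span (Set.range (cgj t)) ⊔
        Ideal.span {X (Sum.inl 0) - 1} ⊔ Ideal.span {X (Sum.inr l₀) - 1} := by
  classical
  obtain ⟨σ, _, o, z, h, hs⟩ := exists_pr B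
  obtain ⟨R, hR⟩ := h.ker
  -- finitely many forms
  obtain ⟨s, hs', hs2⟩ := (Submodule.fg_span_iff_fg_span_finset_subset
    (R := Vr σ) (bf '' R)).mp (IsNoetherian.noetherian (Ideal.span (bf '' R)))
  let g : Fin s.card → Vr σ := fun i => (s.equivFin.symm i).val
  have hg : Set.range g = (s : Set (Vr σ)) := by
    ext p
    constructor
    · rintro ⟨i, rfl⟩
      exact (s.equivFin.symm i).2
    · intro hp
      exact ⟨s.equivFin ⟨p, hp⟩, by simp [g]⟩
  have hgs : ∀ i, ∃ T : Finset (σ × σ), bf T = g i := fun i => by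
    obtain ⟨T, -, hT⟩ := hs' (s.equivFin.symm i).2
    exact ⟨T, hT⟩
  choose T hT using hgs
  have hspan : Ideal.span (bf '' R) = Ideal.span (Set.range g) := by
    rw [hg]
    exact hs2
  -- enumeration
  haveI := Fintype.ofFinite σ
  obtain ⟨n, hn⟩ : ∃ n, Fintype.card σ = n + 1 :=
    Nat.exists_eq_succ_of_ne_zero (Fintype.card_pos_iff.2 ⟨o⟩).ne'
  obtain ⟨e, he⟩ : ∃ e : σ ≃ Fin (n + 1), e o = 0 := by
    let e := Fintype.equivFinOfCardEq hn
    exact ⟨e.trans (Equiv.swap (e o) 0), by simp⟩
  have ht : ∀ j, rho e (g j) = cgj (tOf e T) j := fun j => by rw [cgj_tOf, hT]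
  refine ⟨n, s.card, n + 1, tOf e T, 0, (ev2 z).comp (rho e).symm.toRingHom, tOf_is e T,
    hs.comp (rho e).symm.surjective, ?_⟩
  have h1 : RingHom.ker ((ev2 z).comp (rho e).symm.toRingHom) =
      (RingHom.ker (ev2 z)).map (rho e).toRingHom := by
    rw [← RingHom.comap_ker]
    exact Ideal.comap_symm (rho e)
  have h2 : (rho e).toRingHom '' (Set.range g) = Set.range (cgj (tOf e T)) := by
    rw [← Set.range_comp]
    congr 1
    funext j
    exact ht j
  have h3 : ∀ s, (rho e).toRingHom (X s - 1) = X (Sum.map e e s) - 1 := by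
    intro s
    rw [map_sub, map_one]
    congr 1
    exact rho_X e s
  rw [h1, hR, hspan, Ideal.map_sup, Ideal.map_sup, Ideal.map_span, Ideal.map_span,
    Ideal.map_span, Set.image_singleton, Set.image_singleton, h2, h3, h3, Sum.map_inl,
    Sum.map_inr, he]

/-! ### quotients of the integers -/

section

variable {k : Type} [CommRing k]

/-- the reduction of a tensor -/
def redT (k : Type) [CommRing k] {a b c : ℕ} (t : Fin a → Fin b → Fin c → ℤ) :
    Fin a → Fin b → Fin c → k := fun i j l => (t i j l : k)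

theorem redT_is {a b c : ℕ} {t : Fin a → Fin b → Fin c → ℤ} (ht : Is01 t) :
    Is01 (redT k t) := by
  intro i j l
  unfold redT
  rcases ht i j l with h | h
  · rw [h]
    exact Or.inl Int.cast_zero
  · rw [h]
    exact Or.inr Int.cast_one

theorem cgj_redT {a b c : ℕ} (t : Fin a → Fin b → Fin c → ℤ) (j : Fin b) :
    cgj (redT k t) j = MvPolynomial.map (Int.castRingHom k) (cgj t j) := by
  unfold cgj
  rw [map_sum]
  refine Finset.sum_congr rfl fun i _ => ?_
  rw [map_sum]
  refine Finset.sum_congr rfl fun l _ => ?_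
  rw [map_mul, map_mul, MvPolynomial.map_C, MvPolynomial.map_X, MvPolynomial.map_X]
  rfl

/-- presentations over a quotient of the integers -/
theorem exists_pres01k (hk : Surjective (Int.castRingHom k)) (B : Type) [CommRing B]
    [Algebra k B] [hB : Algebra.FiniteType k B] :
    ∃ (n b c : ℕ) (t : Fin (n + 1) → Fin b → Fin c → k) (l₀ : Fin c)
      (ev : MvPolynomial (Fin (n + 1) ⊕ Fin c) k →+* B), Is01 t ∧
      Surjective ev ∧ RingHom.ker ev = Ideal.span (Set.range (cgj t)) ⊔
        Ideal.span {X (Sum.inl 0) - 1} ⊔ Ideal.span {X (Sum.inr l₀) - 1} := by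
  haveI : Algebra.FiniteType ℤ B := by
    have h1 : (algebraMap k B).FiniteType := (RingHom.finiteType_algebraMap (A := k) (B := B)).2 hB
    have h2 : (Int.castRingHom k).FiniteType := RingHom.FiniteType.of_surjective _ hk
    have h3 := h1.comp h2
    have h4 : (algebraMap k B).comp (Int.castRingHom k) = algebraMap ℤ B :=
      RingHom.ext_int _ _
    rw [h4] at h3
    exact (RingHom.finiteType_algebraMap (A := ℤ) (B := B)).1 h3
  obtain ⟨n, b, c, t, l₀, ev, ht, hev, hker⟩ := exists_pres01 B
  let m := MvPolynomial.map (σ := Fin (n + 1) ⊕ Fin c) (Int.castRingHom k)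
  have hm : Surjective m := MvPolynomial.map_surjective _ hk
  let evk : MvPolynomial (Fin (n + 1) ⊕ Fin c) k →+* B :=
    eval₂Hom (algebraMap k B) fun s => ev (X s)
  have h1 : evk.comp m = ev := by
    apply MvPolynomial.ringHom_ext
    · intro a
      change evk (MvPolynomial.map (Int.castRingHom k) (C a)) = ev (C a)
      rw [MvPolynomial.map_C]
      have h2 : (evk.comp (C : k →+* _)).comp (Int.castRingHom k) = ev.comp C :=
        RingHom.ext_int _ _
      exact RingHom.congr_fun h2 a
    · intro s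
      change evk (MvPolynomial.map (Int.castRingHom k) (X s)) = ev (X s)
      rw [MvPolynomial.map_X]
      exact eval₂Hom_X' _ _ s
  have h2 : RingHom.ker evk = (RingHom.ker ev).map m := by
    rw [← h1, ← RingHom.comap_ker, Ideal.map_comap_of_surjective m hm]
  have h3 : ∀ s, m (X s - 1) = X s - 1 := by
    intro s
    rw [map_sub, map_one]
    congr 1
    exact MvPolynomial.map_X _ s
  refine ⟨n, b, c, redT k t, l₀, evk, redT_is ht, ?_, ?_⟩
  · intro y
    obtain ⟨x, hx⟩ := hev y
    exact ⟨m x, (RingHom.congr_fun h1 x).trans hx⟩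
  · rw [h2, hker, Ideal.map_sup, Ideal.map_sup, Ideal.map_span, Ideal.map_span, Ideal.map_span,
      Set.image_singleton, Set.image_singleton, h3, h3, ← Set.range_comp]
    congr 4
    funext j
    exact (cgj_redT t j).symm

end

end Pool.Agent.KGT
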