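import Pool.Agent.KGT.Real

/-!
# KGT: Quillen's groups: the equivalences over a noetherian ring, Bass's question
-/

set_option autoImplicit false
set_option linter.style.haveILetI false

noncomputable section

namespace Pool.Agent.KGT

open CategoryTheory CategoryTheory.Limits Function Pool.Agent.KQ Pool.Agent.KQG AlgebraicGeometry
open Pool.Agent.KTX Pool.Agent.KPR Pool.Agent.GTH
open BassH (triF cubF TriRing CubRing CompRing ResDimLE)

theorem ft_Sm {k C : Type} [CommRing k] [CommRing C] [Algebra k C] [h : Algebra.FiniteType k C] :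
    LocallyOfFiniteType (Sm (algebraMap k C)) := by
  refine (HasRingHomProperty.Spec_iff (P := @LocallyOfFiniteType)).2 ?_
  exact (RingHom.finiteType_algebraMap (A := k) (B := C)).2 h

/-- a property of all closed subschemes of affine spaces is a property of all affine schemes of
finite type -/
theorem aff_all {k : Type} [CommRing k] [IsNoetherianRing k] {G : (R : Type) → [CommRing R] → Prop}
    (hi : ∀ (R S : Type) [CommRing R] [CommRing S] [IsNoetherianRing R] [IsNoetherianRing S],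
      (R ≃+* S) → G R → G S)
    (h : ∀ n, AffG G k n) (C : Type) [CommRing C] [Algebra k C] [hC : Algebra.FiniteType k C] :
    G C := by
  obtain ⟨n, f, hf⟩ := Algebra.FiniteType.iff_quotient_mvPolynomial''.1 hC
  haveI := Algebra.FiniteType.isNoetherianRing k C
  exact hi _ _ (Ideal.quotientKerAlgEquivOfSurjective hf).toRingEquiv (h n (RingHom.ker f))

/-- all schemes of finite type over `k` -/
def SchG (𝒮 : (G : Type 1) → [AddCommGroup G] → Prop) (k : Type) [CommRing k] : Prop :=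
  ∀ (X : Scheme.{0}) (f : X ⟶ Sp k) [LocallyOfFiniteType f] [QuasiCompact f] (n : ℕ),
    𝒮 (KX n X)

/-- all smooth affine cubic hypersurfaces over `k`, degree `M` -/
def SmG (𝒮 : (G : Type 1) → [AddCommGroup G] → Prop) (k : Type) [CommRing k] (M : ℕ) : Prop :=
  ∀ (ι : Type) [Fintype ι] (f : MvPolynomial ι k), f.totalDegree ≤ 3 →
    Algebra.Smooth k (MvPolynomial ι k ⧸ Ideal.span {f}) →
    𝒮 (KX M (Sp (MvPolynomial ι k ⧸ Ideal.span {f})))

variable (hH : St_HOMK) {𝒮 : (G : Type 1) → [AddCommGroup G] → Prop} (h𝒮 : Serre 𝒮)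

include hH h𝒮

/-- isomorphic rings -/
theorem kx_iso (n : ℕ) {R S : Type} [CommRing R] [CommRing S] [IsNoetherianRing R]
    [IsNoetherianRing S] (e : R ≃+* S) (h : 𝒮 (KX n (Sp R))) : 𝒮 (KX n (Sp S)) := by
  obtain ⟨L, G, e1, e2, -⟩ := real hH
  have e' : Sp S ≅ Sp R := Scheme.Spec.mapIso e.toCommRingCatIso.op
  obtain ⟨a⟩ := e1 n (Sp R)
  obtain ⟨b⟩ := e1 n (Sp S)
  obtain ⟨c⟩ := th_iso (L.th n) e'
  exact (serre_iff h𝒮 (a.symm.trans (c.trans b))).1 h

/-- the closed subschemes of affine spaces give all schemes of finite type -/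
theorem sch_of_aff (k : Type) [CommRing k] [IsNoetherianRing k]
    (h : ∀ a, AffG (fun R _ => ∀ n : ℕ, 𝒮 (KX n (Sp R))) k a) : SchG 𝒮 k := by
  intro X f _ _ n
  obtain ⟨L, G, e1, e2, -⟩ := real hH
  obtain ⟨c⟩ := e1 n X
  rw [← serre_iff h𝒮 c]
  refine sch L h𝒮 k n (fun C _ _ _ => ?_) X f
  obtain ⟨b⟩ := e1 n (Sp C)
  rw [serre_iff h𝒮 b]
  exact aff_all (G := fun R _ => ∀ n : ℕ, 𝒮 (KX n (Sp R)))
    (fun R S _ _ _ _ e h n => kx_iso hH h𝒮 n e (h n)) h C n

omit hH h𝒮 in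
/-- finitely generated algebras -/
theorem ft_of_sch {k : Type} [CommRing k] (h : SchG 𝒮 k) (C : Type) [CommRing C] [Algebra k C]
    [Algebra.FiniteType k C] (n : ℕ) : 𝒮 (KX n (Sp C)) := by
  haveI := ft_Sm (k := k) (C := C)
  exact h (Sp C) (Sm (algebraMap k C)) n

theorem tfae_k (k : Type) [CommRing k] [IsNoetherianRing k] :
    List.TFAE [SchG 𝒮 k,
      ∀ N : ℕ, ∃ M, N ≤ M ∧ SmG 𝒮 k M,
      ∀ a, TriG (fun R _ => ∀ n : ℕ, 𝒮 (KX n (Sp R))) k a,
      ∀ a, CubG (fun R _ => ∀ n : ℕ, 𝒮 (KX n (Sp R))) k a,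
      ∀ a, CompG (fun R _ => ∀ n : ℕ, 𝒮 (KX n (Sp R))) k a] := by
  have key := fun a => real_all25 hH h𝒮 k a
  tfae_have 1 → 2 := fun h N => ⟨N, le_rfl, fun ι _ f _ _ => ft_of_sch h _ N⟩
  tfae_have 2 → 1 := fun h X f _ _ n => by
    obtain ⟨M, hM, h1⟩ := h n
    exact real_sch hH h𝒮 k M (fun ι _ f hf hs => h1 ι f hf hs) X f n hM
  tfae_have 1 → 3 := fun h a b c t n => ft_of_sch h _ n
  tfae_have 1 → 4 := fun h a b c t n => ft_of_sch h _ n
  tfae_have 1 → 5 := fun h a b c t _ n => by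
    haveI : Algebra.FiniteType k (CompRing t) :=
      Algebra.FiniteType.trans (R := k) (S := MvPolynomial (Fin a ⊕ Fin b ⊕ Fin c) k)
        (A := CompRing t) inferInstance
        (IsLocalization.finiteType_of_monoid_fg (Submonoid.powers (triF t)) (CompRing t))
    exact ft_of_sch h _ n
  tfae_have 3 → 1 := fun h => sch_of_aff hH h𝒮 k fun a =>
    ((key a).out 1 0 rfl rfl).1 (h (a + 1))
  tfae_have 4 → 1 := fun h => sch_of_aff hH h𝒮 k fun a =>
    ((key a).out 2 0 rfl rfl).1 (h (a + 1))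
  tfae_have 5 → 1 := fun h => sch_of_aff hH h𝒮 k fun a =>
    ((key a).out 3 0 rfl rfl).1 (h (a + 1))
  tfae_finish

omit hH h𝒮 in
/-- all regular schemes of finite type over `k` -/
def RegG (𝒮 : (G : Type 1) → [AddCommGroup G] → Prop) (k : Type) [CommRing k] : Prop :=
  ∀ (X : Scheme.{0}) (f : X ⟶ Sp k) [LocallyOfFiniteType f] [QuasiCompact f],
    (∀ x : X, IsRegularLocalRing (X.presheaf.stalk x)) → ∀ n : ℕ, 𝒮 (KX n X)

/-- regular schemes over a regular domain -/
theorem reg_iff (k : Type) [CommRing k] [IsDomain k] [IsRegularRing k] :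
    RegG 𝒮 k ↔ SchG 𝒮 k := by
  refine ⟨fun h => ?_, fun h X f _ _ _ n => h X f n⟩
  refine ((tfae_k hH h𝒮 k).out 1 0 rfl rfl).1 fun N => ⟨N, le_rfl, fun ι _ f _ hs => ?_⟩
  haveI := smooth_regular f hs
  haveI := hs.finitePresentation
  haveI := ft_Sm (k := k) (C := MvPolynomial ι k ⧸ Ideal.span {f})
  exact h _ (Sm (algebraMap k (MvPolynomial ι k ⧸ Ideal.span {f}))) (fun x => sp_regular _ x) N

end Pool.Agent.KGT
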