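import Pool.Agent.KGT.GenReg

/-!
# KGT: smooth algebras over regular rings are regular
-/

set_option autoImplicit false
set_option linter.style.haveILetI false

noncomputable section

namespace Pool.Agent.KGT

/-- an algebra which is regular in a neighbourhood of a prime is regular at the prime -/
theorem reg_of_away {A : Type} [CommRing A] (p : Ideal A) [hp : p.IsPrime] (f : A) (hf : f ∉ p)
    [IsRegularRing (Localization.Away f)] : IsRegularLocalRing (Localization.AtPrime p) := by
  have hd : Disjoint (Submonoid.powers f : Set A) (p : Set A) :=
    (Ideal.disjoint_powers_iff_notMem_of_isPrime f).2 hf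
  let P : Ideal (Localization.Away f) := p.map (algebraMap A (Localization.Away f))
  haveI hP : P.IsPrime := IsLocalization.isPrime_of_isPrime_disjoint (Submonoid.powers f) _ p hp hd
  have hc : P.comap (algebraMap A (Localization.Away f)) = p :=
    IsLocalization.under_map_of_isPrime_disjoint (Submonoid.powers f) _ hp hd
  haveI h1 : IsLocalization.AtPrime (Localization.AtPrime P)
      (P.comap (algebraMap A (Localization.Away f))) :=
    IsLocalization.isLocalization_isLocalization_atPrime_isLocalization
      (Submonoid.powers f) (Localization.AtPrime P) P
  have h2 : (P.comap (algebraMap A (Localization.Away f))).primeCompl = p.primeCompl := by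
    ext x
    change (x ∉ P.comap _) ↔ x ∉ p
    rw [hc]
  haveI h3 : IsLocalization p.primeCompl (Localization.AtPrime P) := h2 ▸ h1
  haveI : IsRegularLocalRing (Localization.AtPrime P) := inferInstance
  exact IsRegularLocalRing.of_ringEquiv
    (IsLocalization.algEquiv p.primeCompl (Localization.AtPrime P)
      (Localization.AtPrime p)).toRingEquiv

/-- **smooth algebras over regular rings are regular** -/
theorem smooth_reg {k A : Type} [CommRing k] [IsRegularRing k] [CommRing A] [Algebra k A]
    [h : Algebra.Smooth k A] : IsRegularRing A := by
  haveI := h.finitePresentation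
  haveI := h.formallySmooth
  haveI : IsNoetherianRing A := Algebra.FiniteType.isNoetherianRing k A
  rw [isRegularRing_iff]
  intro p _
  haveI : Algebra.FormallySmooth A (Localization.AtPrime p) :=
    Algebra.FormallySmooth.of_isLocalization p.primeCompl
  haveI : Algebra.IsSmoothAt k p := Algebra.FormallySmooth.comp k A (Localization.AtPrime p)
  obtain ⟨f, hf, h1⟩ := reg_smooth_at (R := k) p
  exact reg_of_away p f hf

end Pool.Agent.KGT
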