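import Pool.Agent.BassH.Defs
import Pool.Agent.GQ.FSch
import Pool.Agent.KGT.Real2

/-!
# KGT: schemes whose residue fields have bounded transcendence degree
-/

set_option autoImplicit false
set_option linter.style.haveILetI false

noncomputable section

namespace Pool.Agent.KGT

open CategoryTheory AlgebraicGeometry Pool.Agent.KTX Pool.Agent.GTH Pool.Agent.KPR
open Pool.Agent.KQG
open BassH (ResDimLE)

/-- transcendence degree at most `d` over the prime field -/
def TD (d : ℕ) (K : Type) [Field K] : Prop :=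
  Algebra.trdeg (⊥ : Subfield K) K ≤ d

theorem TD.iso {d : ℕ} {K L : Type} [Field K] [Field L] (e : K ≃+* L) (h : TD d K) : TD d L := by
  obtain ⟨ι, x, hx⟩ := exists_isTranscendenceBasis' (⊥ : Subfield L) L
  have h1 : (⊥ : Subfield L).map (e.symm : L →+* K) = ⊥ := Subfield.map_bot _
  have h2 : (⊥ : Subfield K).map (e : K →+* L) = ⊥ := Subfield.map_bot _
  let f : (⊥ : Subfield L) →+* (⊥ : Subfield K) :=
    ((e.symm : L →+* K).comp (⊥ : Subfield L).subtype).codRestrict _ (fun y => by
      rw [← h1]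
      exact ⟨y, y.2, rfl⟩)
  have hf : Function.Surjective f := by
    intro z
    have hz : e z ∈ (⊥ : Subfield L) := by
      rw [← h2]
      exact ⟨z, z.2, rfl⟩
    exact ⟨⟨e z, hz⟩, Subtype.ext (e.symm_apply_apply _)⟩
  have h3 : AlgebraicIndependent (⊥ : Subfield K) ((e.symm : L →+* K) ∘ x) :=
    hx.1.ringHom_of_comp_eq f (e.symm : L →+* K) hf e.symm.injective rfl
  have h4 := h3.cardinalMk_le_trdeg
  rw [hx.cardinalMk_eq_trdeg] at h4
  exact h4.trans h

/-- all residue fields of `X` have transcendence degree at most `d` over their prime fields -/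
def ResS (d : ℕ) (X : Scheme.{0}) : Prop := ∀ x : X, TD d (X.residueField x)

/-- the residue fields of a domain -/
theorem frac_res {C : Type} [CommRing C] (P : Ideal C) [P.IsPrime] :
    Nonempty (FractionRing (C ⧸ P) ≃+* P.ResidueField) := by
  exact ⟨(IsLocalization.algEquiv (nonZeroDivisors (C ⧸ P)) (FractionRing (C ⧸ P))
    P.ResidueField).toRingEquiv⟩

theorem resS_spec (d : ℕ) (C : Type) [CommRing C] : ResS d (Sp C) ↔ ResDimLE d C := by
  have key : ∀ x : Sp C, Nonempty (FractionRing (C ⧸ x.asIdeal) ≃+* (Sp C).residueField x) := by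
    intro x
    obtain ⟨e⟩ := frac_res x.asIdeal
    exact ⟨e.trans (Scheme.Spec.residueFieldIso (CommRingCat.of C) x).symm.commRingCatIsoToRingEquiv⟩
  constructor
  · intro h P hP
    obtain ⟨e⟩ := key ⟨P, hP⟩
    exact TD.iso e.symm (h ⟨P, hP⟩)
  · intro h x
    obtain ⟨e⟩ := key x
    exact TD.iso e (h x.asIdeal)

/-- open subschemes -/
theorem resS_open {d : ℕ} {X Y : Scheme.{0}} (j : Y ⟶ X) [IsOpenImmersion j] (h : ResS d X) :
    ResS d Y := fun y =>
  TD.iso (asIso (j.residueFieldMap y)).commRingCatIsoToRingEquiv (h (j y))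

/-- closed subschemes -/
theorem resS_closed {d : ℕ} {X Y : Scheme.{0}} (i : Y ⟶ X) [IsClosedImmersion i]
    (h : ResS d X) : ResS d Y := by
  intro y
  have hs : Function.Surjective (i.residueFieldMap y).hom := by
    have h1 : Function.Surjective (i.stalkMap y).hom := i.stalkMap_surjective y
    intro z
    obtain ⟨w, rfl⟩ := IsLocalRing.residue_surjective z
    obtain ⟨v, rfl⟩ := h1 w
    exact ⟨X.residue (i y) v, rfl⟩
  exact TD.iso (RingEquiv.ofBijective _ ⟨RingHom.injective _, hs⟩) (h (i y))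

/-- all schemes of finite type over `k` whose residue fields have transcendence degree at most `d`
over their prime fields -/
def ResSchG (𝒮 : (G : Type 1) → [AddCommGroup G] → Prop) (k : Type) [CommRing k] (d : ℕ) : Prop :=
  ∀ (X : Scheme.{0}) (f : X ⟶ Sp k) [LocallyOfFiniteType f] [QuasiCompact f],
    ResS d X → ∀ n : ℕ, 𝒮 (KX n X)

open Pool.Agent.KIN in
theorem res_sch (hH : St_HOMK) {𝒮 : (G : Type 1) → [AddCommGroup G] → Prop} (h𝒮 : Serre 𝒮)
    (k : Type) [CommRing k] [IsNoetherianRing k] (d : ℕ) :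
    ResG (fun R _ => ∀ n : ℕ, 𝒮 (KX n (Sp R))) k d ↔ ResSchG 𝒮 k d := by
  constructor
  · intro h X f _ _ hX
    obtain ⟨L, G, e1, e2, -⟩ := real hH
    haveI : IsNoetherian (Sp k) := inferInstance
    haveI : IsNoetherian X := h2_noeth f
    refine Pool.Agent.GQ.sch_ind (X := X) (fun Z => ∀ n : ℕ, 𝒮 (KX n Z))
      (fun Z W i j _ _ _ n => ?_) (fun Z' Z W _ i j _ _ hij h1 h2 n => ?_)
    · haveI hZ : IsNoetherian Z := h2_noeth i
      haveI : LocallyOfFiniteType (j ≫ i ≫ f) := inferInstance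
      haveI : QuasiCompact j := inferInstance
      haveI : IsNoetherian W := h2_noeth j
      obtain ⟨D, _, _, hD, ⟨e⟩⟩ := aff_alg (j ≫ i ≫ f)
      haveI : IsNoetherianRing D := Algebra.FiniteType.isNoetherianRing k D
      have hW : ResS d W := resS_open j (resS_closed i hX)
      have hD' : ResDimLE d D := (resS_spec d D).1 (resS_open e.inv hW)
      obtain ⟨a⟩ := e1 n W
      obtain ⟨b⟩ := e1 n (Sp D)
      obtain ⟨c⟩ := th_iso (L.th n) e
      exact (serre_iff h𝒮 (a.symm.trans (c.symm.trans b))).2 (h D hD' n)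
    · obtain ⟨a⟩ := e1 n Z'
      obtain ⟨b⟩ := e1 n Z
      obtain ⟨c⟩ := e1 n W
      rw [← serre_iff h𝒮 b]
      exact h𝒮.exact _ _ _ ((L.th n).push i) ((L.th n).pull j)
        (fun x => ⟨(L.th n).ex i j hij x, by
          rintro ⟨y, rfl⟩
          exact (L.th n).ex0 i j hij y⟩) ((serre_iff h𝒮 a).2 (h1 n)) ((serre_iff h𝒮 c).2 (h2 n))
  · intro h C _ _ _ hC n
    haveI := ft_Sm (k := k) (C := C)
    exact h (Sp C) (Sm (algebraMap k C)) ((resS_spec d C).2 hC) n

end Pool.Agent.KGT
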