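import Pool.Agent.KTX.R0
import Pool.Agent.KTX.Sq
import Pool.Agent.GTH.Defs

/-!
# KGT: the restriction of a graded theory on schemes to rings is a G-theory
-/

set_option autoImplicit false
set_option linter.style.haveILetI false

noncomputable section

namespace Pool.Agent.KGT

open CategoryTheory Function AlgebraicGeometry Pool.Agent.KTX

universe u

/-! ### pushouts -/

theorem po_surj {A A' C C' : Type} [CommRing A] [CommRing A'] [CommRing C] [CommRing C']
    (φ : A →+* A') (π : A →+* C) (hπ : Surjective π) (π' : A' →+* C') (hπ' : Surjective π')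
    (hk : RingHom.ker π' = (RingHom.ker π).map φ) (ψ : C →+* C') (h : ψ.comp π = π'.comp φ) :
    IsPushout (CommRingCat.ofHom π) (CommRingCat.ofHom φ) (CommRingCat.ofHom ψ)
      (CommRingCat.ofHom π') := by
  refine isPushout_of π φ ψ π' h (fun D _ a v hav => ?_) (fun D _ w w' h1 h2 => ?_)
  · have hv : RingHom.ker π' ≤ RingHom.ker v := by
      rw [hk, Ideal.map_le_iff_le_comap]
      intro x hx
      rw [Ideal.mem_comap, RingHom.mem_ker]
      have h3 := DFunLike.congr_fun hav x
      rw [RingHom.comp_apply, RingHom.comp_apply, (RingHom.mem_ker).1 hx, map_zero] at h3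
      exact h3.symm
    refine ⟨RingHom.liftOfSurjective π' hπ' ⟨v, hv⟩, RingHom.ext fun c => ?_,
      RingHom.ext fun x => RingHom.liftOfRightInverse_comp_apply _ _ (rightInverse_surjInv hπ')
        ⟨v, hv⟩ x⟩
    obtain ⟨x, rfl⟩ := hπ c
    have h3 := DFunLike.congr_fun h x
    have h4 := DFunLike.congr_fun hav x
    rw [RingHom.comp_apply, RingHom.comp_apply] at h3 h4
    rw [RingHom.comp_apply, h3, h4]
    exact RingHom.liftOfRightInverse_comp_apply _ _ (rightInverse_surjInv hπ') ⟨v, hv⟩ _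
  · refine RingHom.ext fun c => ?_
    obtain ⟨x, rfl⟩ := hπ' c
    exact DFunLike.congr_fun h2 x

theorem po_loc {A A' L L' : Type} [CommRing A] [CommRing A'] [CommRing L] [CommRing L']
    (s : A) (s' : A') (φ : A →+* A') (hs : φ s = s') (l : A →+* L) (hl : Pool.Agent.KTX.IsLoc s l)
    (l' : A' →+* L') (hl' : Pool.Agent.KTX.IsLoc s' l') (χ : L →+* L')
    (h : χ.comp l = l'.comp φ) :
    IsPushout (CommRingCat.ofHom l) (CommRingCat.ofHom φ) (CommRingCat.ofHom χ)
      (CommRingCat.ofHom l') := by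
  letI := l.toAlgebra
  letI := l'.toAlgebra
  haveI : IsLocalization.Away s L := hl
  haveI : IsLocalization.Away s' L' := hl'
  refine isPushout_of l φ χ l' h (fun D _ a v hav => ?_) (fun D _ w w' h1 h2 => ?_)
  · have hu : IsUnit (v s') := by
      rw [← hs]
      have h3 := DFunLike.congr_fun hav s
      rw [RingHom.comp_apply, RingHom.comp_apply] at h3
      rw [← h3]
      exact (IsLocalization.Away.algebraMap_isUnit (S := L) s).map a
    refine ⟨IsLocalization.Away.lift s' hu, ?_,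
      RingHom.ext fun x => IsLocalization.Away.lift_eq s' hu x⟩
    refine IsLocalization.ringHom_ext (Submonoid.powers s) (RingHom.ext fun x => ?_)
    have h3 := DFunLike.congr_fun h x
    have h4 := DFunLike.congr_fun hav x
    rw [RingHom.comp_apply, RingHom.comp_apply] at h3 h4
    change IsLocalization.Away.lift s' hu (χ (l x)) = a (l x)
    rw [h3, h4]
    exact IsLocalization.Away.lift_eq s' hu _
  · exact IsLocalization.ringHom_ext (Submonoid.powers s') h2

/-! ### the boundary with free degrees -/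

section

variable (L : LThy.{u})

open Classical in
/-- the boundary map, `m = n + 1` -/
def bdc (m n : ℤ) {A C V : Type} [CommRing A] [CommRing C] [CommRing V] (π : A →+* C)
    (l : A →+* V) : (L.th m).T (Sp V) →+ (L.th n).T (Sp C) :=
  if h : m = n + 1 then (by
    subst h
    exact R0.bd L n π l) else 0

theorem bdc_eq (n : ℤ) {A C V : Type} [CommRing A] [CommRing C] [CommRing V] (π : A →+* C)
    (l : A →+* V) : bdc L (n + 1) n π l = R0.bd L n π l := dif_pos rfl

/-- The G-theory of a graded theory on schemes for which the push-forward along `X = 0` vanishes. -/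
def gth (N : WithTop ℤ) (hz : ∀ (n : ℤ) (A : Type) [CommRing A] [IsNoetherianRing A]
    (x : (L.th n).T (Sp A)),
      R0.pu L n (Polynomial.constantCoeff : Polynomial A →+* A) x = 0) :
    Pool.Agent.GTH.GTheory.{u} N where
  T n A _ := AddCommGrpCat.of ((L.th n).T (Sp A))
  pull n A B _ _ φ := R0.pl L n φ
  push n A B _ _ φ := R0.pu L n φ
  bd m n A C V _ _ _ _ π l := bdc L m n π l
  pull_id n A _ _ x := R0.ax_pl_id L n A x
  pull_comp n A B C _ _ _ _ _ _ φ ψ hφ hψ x := R0.ax_pl_comp L n φ ψ hφ hψ x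
  push_id n A _ _ x := R0.ax_pu_id L n A x
  push_comp n A B C _ _ _ _ _ _ φ ψ hφ hψ x := R0.ax_pu_comp L n φ ψ
    (RingHom.Finite.of_surjective φ hφ) (RingHom.Finite.of_surjective ψ hψ) x
  base_change n A A' C C' _ _ _ _ _ _ _ _ φ hφ π hπ π' hπ' hk ψ hψ h x :=
    R0.ax_bc L n π φ ψ π' (RingHom.Finite.of_surjective π hπ) hφ
      (po_surj φ π hπ π' hπ' hk ψ h) x
  exA n A C V _ _ _ _ _ _ s π l h x := by
    haveI := R0.closed_Sm h.surj
    haveI := R0.open_Sm (show Pool.Agent.KTX.IsLoc s l from h.loc)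
    refine ⟨fun hx => R0.ax_ex L n s π l h.surj h.ker h.loc x hx, ?_⟩
    rintro ⟨y, rfl⟩
    rw [R0.pl_eq, R0.pu_eq]
    exact (L.th n).ex0 _ _ (R0.range_Sm h.surj h.ker h.loc) y
  exL m n hmn A C V _ _ _ _ _ _ s π l h x := by
    subst hmn
    haveI := R0.closed_Sm h.surj
    haveI := R0.open_Sm (show Pool.Agent.KTX.IsLoc s l from h.loc)
    rw [bdc_eq, R0.bd_eq, R0.pl_eq]
    refine ⟨fun hx => L.exU n _ _ (R0.range_Sm h.surj h.ker h.loc) x hx, ?_⟩
    rintro ⟨y, rfl⟩
    exact L.bd_pull n _ _ (R0.range_Sm h.surj h.ker h.loc) y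
  exC m n hmn _ A C V _ _ _ _ _ _ s π l h x := by
    subst hmn
    haveI := R0.closed_Sm h.surj
    haveI := R0.open_Sm (show Pool.Agent.KTX.IsLoc s l from h.loc)
    rw [bdc_eq, R0.bd_eq, R0.pu_eq]
    refine ⟨fun hx => L.exZ n _ _ (R0.range_Sm h.surj h.ker h.loc) x hx, ?_⟩
    rintro ⟨y, rfl⟩
    exact L.push_bd n _ _ (R0.range_Sm h.surj h.ker h.loc) y
  bd_pull m n hmn A C V _ _ _ _ _ _ s π l h A' C' V' _ _ _ _ _ _ s' π' l' h' φ hφ hs ψ hψ h1
      χ hχ h2 x := by
    subst hmn
    haveI := R0.closed_Sm h.surj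
    haveI := R0.open_Sm (show Pool.Agent.KTX.IsLoc s l from h.loc)
    haveI := R0.closed_Sm h'.surj
    haveI := R0.open_Sm (show Pool.Agent.KTX.IsLoc s' l' from h'.loc)
    haveI := R0.flat_Sm hφ
    haveI := R0.flat_Sm hψ
    haveI := R0.flat_Sm hχ
    rw [bdc_eq, bdc_eq, R0.bd_eq, R0.bd_eq, R0.pl_eq, R0.pl_eq]
    refine (L.nat n (Sm π) (Sm l) (Sm π') (Sm l') (Sm ψ) (Sm φ) (Sm χ)
      (R0.range_Sm h.surj h.ker h.loc) ?_ ?_ x).symm
    · refine isPullback_SpecMap_of_isPushout _ _ _ _ (po_surj φ π h.surj π' h'.surj ?_ ψ h1)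
      rw [h.ker, h'.ker, Ideal.map_span, Set.image_singleton, hs]
    · exact isPullback_SpecMap_of_isPushout _ _ _ _ (po_loc s s' φ hs l h.loc l' h'.loc χ h2)
  homotopy n A _ _ := R0.ax_hom L n A
  push_zero n A _ _ x := hz n A x

end

end Pool.Agent.KGT
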