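import Pool.Agent.KGT.Node

/-!
# KGT: the hypersurface `f + s w = 0`, `s = u v`
-/

set_option autoImplicit false
set_option linter.unusedSectionVars false

noncomputable section

namespace Pool.Agent.KGT

open Function Polynomial Pool.Agent.GTH

universe u

/-! ### the hypersurface `F + s w = 0` over a ring `Q` -/

section

variable {Q : Type} [CommRing Q] (F s : Q)

/-- the equation `F + s w` -/
def eqH : Q[X] := C F + C s * X

/-- the hypersurface `F + s w = 0` -/
def HR : Type := Q[X] ⧸ Ideal.span {eqH F s}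

instance : CommRing (HR F s) := Ideal.Quotient.commRing (Ideal.span {eqH F s})

/-- the class of a polynomial -/
def mkH : Q[X] →+* HR F s := Ideal.Quotient.mk (Ideal.span {eqH F s})

theorem mkH_surj : Surjective (mkH F s) := Ideal.Quotient.mk_surjective

theorem mkH_eq : mkH F s (C F) = - (mkH F s (C s) * mkH F s X) := by
  have h : mkH F s (eqH F s) = 0 :=
    Ideal.Quotient.eq_zero_iff_mem.2 (Ideal.mem_span_singleton_self (eqH F s))
  unfold eqH at h
  rw [map_add, map_mul] at h
  exact eq_neg_of_add_eq_zero_left h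

variable {K : Type} [CommRing K] (θ : Q →+* K)

theorem th_F (hk : RingHom.ker θ = Ideal.span {F, s}) : θ F = 0 := by
  have h : F ∈ RingHom.ker θ := by
    rw [hk]
    exact Ideal.subset_span (Or.inl rfl)
  exact h

theorem th_s (hk : RingHom.ker θ = Ideal.span {F, s}) : θ s = 0 := by
  have h : s ∈ RingHom.ker θ := by
    rw [hk]
    exact Ideal.subset_span (Or.inr rfl)
  exact h

/-- the closed subscheme `s = 0` -/
def piH (hk : RingHom.ker θ = Ideal.span {F, s}) : HR F s →+* K[X] :=
  Ideal.Quotient.lift (Ideal.span {eqH F s}) (mapRingHom θ) (by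
    intro a ha
    obtain ⟨b, rfl⟩ := Ideal.mem_span_singleton'.1 ha
    rw [map_mul]
    have h : mapRingHom θ (eqH F s) = 0 := by
      change Polynomial.map θ (C F + C s * X) = 0
      rw [Polynomial.map_add, Polynomial.map_mul, map_C, map_C, th_F F s θ hk, th_s F s θ hk, C_0,
        zero_mul, add_zero]
    rw [h, mul_zero])

variable (hk : RingHom.ker θ = Ideal.span {F, s})

theorem piH_mk (a : Q[X]) : piH F s θ hk (mkH F s a) = a.map θ := rfl

theorem piH_surj (hθ : Surjective θ) : Surjective (piH F s θ hk) := by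
  intro z
  obtain ⟨a, rfl⟩ := map_surjective θ hθ z
  exact ⟨mkH F s a, rfl⟩

theorem piH_zero (a : HR F s) : piH F s θ hk a = 0 ↔ ∃ b, a = mkH F s (C s) * b := by
  constructor
  · intro h
    obtain ⟨a, rfl⟩ := mkH_surj F s a
    rw [piH_mk] at h
    have h1 : a ∈ (RingHom.ker θ).map (C : Q →+* Q[X]) := by
      rw [← ker_mapRingHom]
      exact h
    rw [hk, Ideal.map_span, Set.image_pair, Ideal.mem_span_pair] at h1
    obtain ⟨x, y, rfl⟩ := h1
    refine ⟨mkH F s y - mkH F s x * mkH F s X, ?_⟩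
    rw [map_add, map_mul, map_mul, mkH_eq]
    ring
  · rintro ⟨b, rfl⟩
    rw [map_mul, piH_mk, map_C, th_s F s θ hk, C_0, zero_mul]

/-- the point `w = - F / s` -/
def wv : Localization.Away s :=
  - (algebraMap Q (Localization.Away s) F * IsLocalization.Away.invSelf s)

/-- the open subscheme `s ≠ 0` -/
def lH : HR F s →+* Localization.Away s := Ideal.Quotient.lift (Ideal.span {eqH F s})
  (eval₂RingHom (algebraMap Q (Localization.Away s)) (wv F s)) (by
    intro a ha
    obtain ⟨b, rfl⟩ := Ideal.mem_span_singleton'.1 ha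
    rw [map_mul]
    have h : eval₂RingHom (algebraMap Q (Localization.Away s)) (wv F s) (eqH F s) = 0 := by
      change eval₂ _ _ (C F + C s * X) = 0
      rw [eval₂_add, eval₂_mul, eval₂_C, eval₂_C, eval₂_X]
      have h1 : algebraMap Q (Localization.Away s) s * IsLocalization.Away.invSelf s = 1 :=
        IsLocalization.Away.mul_invSelf s
      unfold wv
      linear_combination (-algebraMap Q (Localization.Away s) F) * h1
    rw [h, mul_zero])

theorem lH_C (q : Q) : lH F s (mkH F s (C q)) = algebraMap Q (Localization.Away s) q :=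
  eval₂_C _ _

theorem exists_C (a : Q[X]) : ∃ (m : ℕ) (q : Q), mkH F s (C s) ^ m * mkH F s a = mkH F s (C q) := by
  induction a using Polynomial.induction_on' with
  | add p q hp hq =>
    obtain ⟨m, x, hx⟩ := hp
    obtain ⟨n, y, hy⟩ := hq
    refine ⟨m + n, s ^ n * x + s ^ m * y, ?_⟩
    rw [C_add, C_mul, C_mul, map_add, map_add, map_mul, map_mul, ← hx, ← hy, C_pow, C_pow,
      map_pow, map_pow]
    ring
  | monomial n b =>
    refine ⟨n, b * (-F) ^ n, ?_⟩
    rw [← C_mul_X_pow_eq_monomial, map_mul, map_pow, C_mul, map_mul, C_pow, map_pow, C_neg,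
      map_neg, mkH_eq]
    ring

theorem isLoc_H (hθ : Surjective θ) : IsLoc (mkH F s (C s)) (piH F s θ hk) (lH F s) := by
  have h := isLoc_std s
  refine isLoc_mk (piH_surj F s θ hk hθ) (piH_zero F s θ hk) ?_ (fun z => ?_) (fun a ha => ?_)
  · rw [lH_C]
    exact h.unit
  · obtain ⟨k, q, hq⟩ := h.surjL z
    refine ⟨k, mkH F s (C q), ?_⟩
    rw [lH_C, lH_C]
    exact hq
  · obtain ⟨a, rfl⟩ := mkH_surj F s a
    obtain ⟨m, q, hq⟩ := exists_C F s a
    have h1 : algebraMap Q (Localization.Away s) q = 0 := by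
      rw [← lH_C F s, ← hq, map_mul, ha, mul_zero]
    obtain ⟨j, hj⟩ := h.eqL q h1
    refine ⟨j + m, ?_⟩
    rw [pow_add, mul_assoc, hq, ← map_pow, ← C_pow, ← map_mul, ← C_mul, hj, C_0, map_zero]

end

/-! ### `s = u v` -/

section

variable {P : Type} [CommRing P] (f : P)

/-- the plane over `P` -/
abbrev Pl (P : Type) [CommRing P] : Type := P[X][X]

/-- the function `u v` on the plane over `P` -/
def uv (P : Type) [CommRing P] : Pl P := C X * X

/-- reduction modulo `f` -/
abbrev Pf : Type := P ⧸ Ideal.span {f}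

/-- the plane over `P` and the node over `P / f` -/
def toN : Pl P →+* Nd (Pf f) :=
  (mkN (Pf f)).comp (mapRingHom (mapRingHom (Ideal.Quotient.mk (Ideal.span {f}))))

theorem toN_surj : Surjective (toN f) :=
  (mkN_surj _).comp (map_surjective _ (map_surjective _ Ideal.Quotient.mk_surjective))

theorem toN_ker : RingHom.ker (toN f) = Ideal.span {C (C f), uv P} := by
  let g : Pl P →+* Pl (Pf f) :=
    mapRingHom (mapRingHom (Ideal.Quotient.mk (Ideal.span {f})))
  have hg : Surjective g := map_surjective _ (map_surjective _ Ideal.Quotient.mk_surjective)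
  have h1 : RingHom.ker g = ((Ideal.span {f}).map C).map C := by
    rw [ker_mapRingHom, ker_mapRingHom, Ideal.mk_ker]
  have h3 : RingHom.ker (mkN (Pf f)) = (Ideal.span {uv P}).map g := by
    rw [Ideal.map_span, Set.image_singleton]
    have h4 : g (uv P) = C X * X := by
      change Polynomial.map _ (C X * X) = _
      rw [Polynomial.map_mul, map_C, map_X]
      congr 2
      exact map_X _
    rw [h4]
    exact Ideal.mk_ker
  change RingHom.ker ((mkN (Pf f)).comp g) = _
  rw [← RingHom.comap_ker, h3, Ideal.comap_map_of_surjective g hg]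
  have h5 : Ideal.comap g ⊥ = ((Ideal.span {f}).map C).map C := h1
  rw [h5, Ideal.map_span, Set.image_singleton, Ideal.map_span, Set.image_singleton, sup_comm,
    ← Ideal.span_union]
  rfl

/-- the hypersurface `f + u v w = 0` -/
abbrev HT : Type := HR (C (C f)) (uv P)

variable [IsNoetherianRing P]

instance : IsNoetherianRing (HT f) :=
  isNoetherianRing_of_surjective _ _ (mkH (C (C f)) (uv P)) (mkH_surj _ _)

variable {N : WithTop ℤ} (𝒯 : GTheory.{u} N) {𝒮 : (G : Type u) → [AddCommGroup G] → Prop}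
  (h𝒮 : Serre 𝒮)

include h𝒮

/-- the plane minus the axes -/
theorem sfg_Qs (M : ℤ) (h : SFG 𝒯 𝒮 M P) : SFG 𝒯 𝒮 M (Localization.Away (uv P)) := by
  haveI : IsNoetherianRing (Lau P) := noeth_away (V := Lau P) (X : P[X])
  have h1 : SFG 𝒯 𝒮 M P[X] := (SFG.poly h𝒮).1 h
  have h2 : SFG 𝒯 𝒮 M (Pl P) := (SFG.poly h𝒮).1 h1
  have h3 : SFG 𝒯 𝒮 M (Lau P) := (SFG.lau h𝒮 SFG.isLau_std).2 h
  have h4 : SFG 𝒯 𝒮 M (Nd P) := SFG.of_loc h𝒮 (isLoc_u P) h1 h3
  haveI : IsNoetherianRing (Localization.Away (uv P)) :=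
    noeth_away (V := Localization.Away (uv P)) (uv P)
  have h5 : IsLoc (uv P) (mkN P) (algebraMap (Pl P) (Localization.Away (uv P))) := by
    have h6 := isLoc_std (uv P)
    exact ⟨mkN_surj P, Ideal.mk_ker, h6.loc⟩
  exact SFG.loc h𝒮 h5 h2 h4

/-- degree `n + 1` over the hypersurface `f + u v w = 0` gives degree `n` over `P / f` -/
theorem triNode (n : ℤ) (hn : ((n + 1 : ℤ) : WithTop ℤ) < N) (h0 : SFG 𝒯 𝒮 (n + 1 + 1) P)
    (h : 𝒮 (𝒯.T (n + 1) (HT f))) : 𝒮 (𝒯.T n (Pf f)) := by
  haveI : IsNoetherianRing (Localization.Away (uv P)) :=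
    noeth_away (V := Localization.Away (uv P)) (uv P)
  have h1 : 𝒮 (𝒯.T (n + 1) (Nd (Pf f))[X]) :=
    SFG.quot_deg h𝒮 (isLoc_H (C (C f)) (uv P) (toN f) (toN_ker f) (toN_surj f)) (n + 1) hn
      (sfg_Qs 𝒯 h𝒮 _ h0 _ le_rfl) h
  have h2 : 𝒮 (𝒯.T (n + 1) (Nd (Pf f))) := (h𝒮.of_bij _ (𝒯.homotopy (n + 1))).2 h1
  exact node 𝒯 h𝒮 n (lt_of_le_of_lt (WithTop.coe_le_coe.2 (by omega)) hn) h2

end

end Pool.Agent.KGT
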