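import Pool.Agent.KGT.TriNode
import Pool.Agent.KGT.NodeC

/-!
# KGT: the trilinear forms `F + u v w`
-/

set_option autoImplicit false
set_option linter.unusedSectionVars false

noncomputable section

namespace Pool.Agent.KGT

open Function Pool.Agent.GTH
open BassH (triF cubF cgj TriRing CubRing CompRing)

universe u

section

variable {k : Type} [CommRing k] {a b c : ℕ}

/-- the tensor of the form `F + u v w`, `u`, `v`, `w` the last variables -/
def tTr (t : Fin a → Fin b → Fin c → k) : Fin (a + 1) → Fin (b + 1) → Fin (c + 1) → k :=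
  fun i j l => Fin.lastCases (motive := fun _ => k)
    (Fin.lastCases (motive := fun _ => k)
      (Fin.lastCases (motive := fun _ => k) 1 (fun _ => 0) l) (fun _ => 0) j)
    (fun i => Fin.lastCases (motive := fun _ => k) 0
      (fun j => Fin.lastCases (motive := fun _ => k) 0 (fun l => t i j l) l) j) i

theorem tTr_lll (t : Fin a → Fin b → Fin c → k) :
    tTr t (Fin.last a) (Fin.last b) (Fin.last c) = 1 := by
  unfold tTr
  rw [Fin.lastCases_last, Fin.lastCases_last, Fin.lastCases_last]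

theorem tTr_llc (t : Fin a → Fin b → Fin c → k) (l : Fin c) :
    tTr t (Fin.last a) (Fin.last b) l.castSucc = 0 := by
  unfold tTr
  rw [Fin.lastCases_last, Fin.lastCases_last, Fin.lastCases_castSucc]

theorem tTr_lc (t : Fin a → Fin b → Fin c → k) (j : Fin b) (l : Fin (c + 1)) :
    tTr t (Fin.last a) j.castSucc l = 0 := by
  unfold tTr
  rw [Fin.lastCases_last, Fin.lastCases_castSucc]

theorem tTr_cl (t : Fin a → Fin b → Fin c → k) (i : Fin a) (l : Fin (c + 1)) :
    tTr t i.castSucc (Fin.last b) l = 0 := by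
  unfold tTr
  rw [Fin.lastCases_castSucc, Fin.lastCases_last]

theorem tTr_ccl (t : Fin a → Fin b → Fin c → k) (i : Fin a) (j : Fin b) :
    tTr t i.castSucc j.castSucc (Fin.last c) = 0 := by
  unfold tTr
  rw [Fin.lastCases_castSucc, Fin.lastCases_castSucc, Fin.lastCases_last]

theorem tTr_ccc (t : Fin a → Fin b → Fin c → k) (i : Fin a) (j : Fin b) (l : Fin c) :
    tTr t i.castSucc j.castSucc l.castSucc = t i j l := by
  unfold tTr
  rw [Fin.lastCases_castSucc, Fin.lastCases_castSucc, Fin.lastCases_castSucc]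

theorem tTr_is {t : Fin a → Fin b → Fin c → k} (ht : Is01 t) : Is01 (tTr t) := by
  intro i j l
  refine Fin.lastCases ?_ (fun i => ?_) i
  · refine Fin.lastCases ?_ (fun j => ?_) j
    · refine Fin.lastCases ?_ (fun l => ?_) l
      · exact Or.inr (tTr_lll t)
      · exact Or.inl (tTr_llc t l)
    · exact Or.inl (tTr_lc t j l)
  · refine Fin.lastCases ?_ (fun j => ?_) j
    · exact Or.inl (tTr_cl t i l)
    · refine Fin.lastCases ?_ (fun l => ?_) l
      · exact Or.inl (tTr_ccl t i j)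
      · rw [tTr_ccc]
        exact ht i j l

/-- the inclusion of the variables -/
def vr3 : Fin a ⊕ Fin b ⊕ Fin c → Fin (a + 1) ⊕ Fin (b + 1) ⊕ Fin (c + 1) :=
  Sum.map Fin.castSucc (Sum.map Fin.castSucc Fin.castSucc)

theorem triF_tTr (t : Fin a → Fin b → Fin c → k) : triF (tTr t) =
    MvPolynomial.rename vr3 (triF t) + MvPolynomial.X (Sum.inl (Fin.last a)) *
      MvPolynomial.X (Sum.inr (Sum.inl (Fin.last b))) *
      MvPolynomial.X (Sum.inr (Sum.inr (Fin.last c))) := by
  unfold triF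
  rw [Fin.sum_univ_castSucc]
  congr 1
  · rw [map_sum]
    refine Finset.sum_congr rfl fun i _ => ?_
    rw [Fin.sum_univ_castSucc]
    have h1 : ∀ l, MvPolynomial.C (tTr t i.castSucc (Fin.last b) l) *
        MvPolynomial.X (Sum.inl i.castSucc) * MvPolynomial.X (Sum.inr (Sum.inl (Fin.last b))) *
        MvPolynomial.X (Sum.inr (Sum.inr l)) =
        (0 : MvPolynomial (Fin (a + 1) ⊕ Fin (b + 1) ⊕ Fin (c + 1)) k) := fun l => by
      rw [tTr_cl, map_zero, zero_mul, zero_mul, zero_mul]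
    simp only [h1, Finset.sum_const_zero, add_zero]
    rw [map_sum]
    refine Finset.sum_congr rfl fun j _ => ?_
    rw [Fin.sum_univ_castSucc, tTr_ccl, map_zero, zero_mul, zero_mul, zero_mul, add_zero, map_sum]
    refine Finset.sum_congr rfl fun l _ => ?_
    rw [tTr_ccc, map_mul, map_mul, map_mul, MvPolynomial.rename_C, MvPolynomial.rename_X,
      MvPolynomial.rename_X, MvPolynomial.rename_X]
    rfl
  · rw [Fin.sum_univ_castSucc]
    have h1 : ∀ (j : Fin b) (l : Fin (c + 1)), MvPolynomial.C (tTr t (Fin.last a) j.castSucc l) *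
        MvPolynomial.X (Sum.inl (Fin.last a)) * MvPolynomial.X (Sum.inr (Sum.inl j.castSucc)) *
        MvPolynomial.X (Sum.inr (Sum.inr l)) =
        (0 : MvPolynomial (Fin (a + 1) ⊕ Fin (b + 1) ⊕ Fin (c + 1)) k) := fun j l => by
      rw [tTr_lc, map_zero, zero_mul, zero_mul, zero_mul]
    simp only [h1, Finset.sum_const_zero, zero_add]
    rw [Fin.sum_univ_castSucc]
    have h2 : ∀ l : Fin c, MvPolynomial.C (tTr t (Fin.last a) (Fin.last b) l.castSucc) *
        MvPolynomial.X (Sum.inl (Fin.last a)) * MvPolynomial.X (Sum.inr (Sum.inl (Fin.last b))) *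
        MvPolynomial.X (Sum.inr (Sum.inr l.castSucc)) =
        (0 : MvPolynomial (Fin (a + 1) ⊕ Fin (b + 1) ⊕ Fin (c + 1)) k) := fun l => by
      rw [tTr_llc, map_zero, zero_mul, zero_mul, zero_mul]
    simp only [h2, Finset.sum_const_zero, zero_add]
    rw [tTr_lll, map_one, one_mul]

/-- the variables -/
def eVr3 (a b c : ℕ) : Fin (a + 1) ⊕ Fin (b + 1) ⊕ Fin (c + 1) ≃
    Option (Option (Option (Fin a ⊕ Fin b ⊕ Fin c))) where
  toFun := Sum.elim
    (fun i => Fin.lastCases (motive := fun _ => Option (Option (Option (Fin a ⊕ Fin b ⊕ Fin c))))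
      (some none) (fun i => some (some (some (Sum.inl i)))) i)
    (Sum.elim
      (fun j => Fin.lastCases
        (motive := fun _ => Option (Option (Option (Fin a ⊕ Fin b ⊕ Fin c))))
        (some (some none)) (fun j => some (some (some (Sum.inr (Sum.inl j))))) j)
      (fun l => Fin.lastCases
        (motive := fun _ => Option (Option (Option (Fin a ⊕ Fin b ⊕ Fin c))))
        none (fun l => some (some (some (Sum.inr (Sum.inr l))))) l))
  invFun o := match o with
    | none => Sum.inr (Sum.inr (Fin.last c))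
    | some none => Sum.inl (Fin.last a)
    | some (some none) => Sum.inr (Sum.inl (Fin.last b))
    | some (some (some (Sum.inl i))) => Sum.inl i.castSucc
    | some (some (some (Sum.inr (Sum.inl j)))) => Sum.inr (Sum.inl j.castSucc)
    | some (some (some (Sum.inr (Sum.inr l)))) => Sum.inr (Sum.inr l.castSucc)
  left_inv := by
    rintro (i | j | l)
    · refine Fin.lastCases ?_ (fun i => ?_) i <;> simp
    · refine Fin.lastCases ?_ (fun j => ?_) j <;> simp
    · refine Fin.lastCases ?_ (fun l => ?_) l <;> simp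
  right_inv := by
    rintro (_ | _ | _ | i | j | l) <;> simp

theorem eVr3_vr (s : Fin a ⊕ Fin b ⊕ Fin c) : eVr3 a b c (vr3 s) = some (some (some s)) := by
  rcases s with i | j | l <;> simp [eVr3, vr3]

theorem eVr3_u : eVr3 a b c (Sum.inl (Fin.last a)) = some none := by simp [eVr3]

theorem eVr3_v : eVr3 a b c (Sum.inr (Sum.inl (Fin.last b))) = some (some none) := by simp [eVr3]

theorem eVr3_w : eVr3 a b c (Sum.inr (Sum.inr (Fin.last c))) = none := by simp [eVr3]

/-- one variable more -/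
abbrev oe (k σ : Type) [CommRing k] : MvPolynomial (Option σ) k →+*
    Polynomial (MvPolynomial σ k) := (MvPolynomial.optionEquivLeft k σ).toRingEquiv.toRingHom

variable (k) (a b c) in
/-- three more variables -/
def e3v : MvPolynomial (Fin (a + 1) ⊕ Fin (b + 1) ⊕ Fin (c + 1)) k ≃+*
    Polynomial (Pl (MvPolynomial (Fin a ⊕ Fin b ⊕ Fin c) k)) :=
  (((MvPolynomial.renameEquiv k (eVr3 a b c)).toRingEquiv.trans
    (MvPolynomial.optionEquivLeft k (Option (Option (Fin a ⊕ Fin b ⊕ Fin c)))).toRingEquiv).trans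
    (Polynomial.mapEquiv
      (MvPolynomial.optionEquivLeft k (Option (Fin a ⊕ Fin b ⊕ Fin c))).toRingEquiv)).trans
    (Polynomial.mapEquiv (Polynomial.mapEquiv
      (MvPolynomial.optionEquivLeft k (Fin a ⊕ Fin b ⊕ Fin c)).toRingEquiv))

theorem e3v_eq (p : MvPolynomial (Fin (a + 1) ⊕ Fin (b + 1) ⊕ Fin (c + 1)) k) :
    e3v k a b c p = ((MvPolynomial.optionEquivLeft k (Option (Option (Fin a ⊕ Fin b ⊕ Fin c)))
      (MvPolynomial.rename (eVr3 a b c) p)).map (oe k (Option (Fin a ⊕ Fin b ⊕ Fin c)))).map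
      (Polynomial.mapRingHom (oe k (Fin a ⊕ Fin b ⊕ Fin c))) := rfl

theorem e3v_w : e3v k a b c (MvPolynomial.X (Sum.inr (Sum.inr (Fin.last c)))) =
    Polynomial.X := by
  rw [e3v_eq, MvPolynomial.rename_X, eVr3_w, MvPolynomial.optionEquivLeft_X_none,
    Polynomial.map_X, Polynomial.map_X]

theorem e3v_u : e3v k a b c (MvPolynomial.X (Sum.inl (Fin.last a))) =
    Polynomial.C Polynomial.X := by
  rw [e3v_eq, MvPolynomial.rename_X, eVr3_u, MvPolynomial.optionEquivLeft_X_some,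
    Polynomial.map_C, Polynomial.map_C]
  congr 1
  have h : oe k (Option (Fin a ⊕ Fin b ⊕ Fin c))
      (MvPolynomial.X none) = Polynomial.X := MvPolynomial.optionEquivLeft_X_none ..
  rw [h]
  exact Polynomial.map_X _

theorem e3v_v : e3v k a b c (MvPolynomial.X (Sum.inr (Sum.inl (Fin.last b)))) =
    Polynomial.C (Polynomial.C Polynomial.X) := by
  rw [e3v_eq, MvPolynomial.rename_X, eVr3_v, MvPolynomial.optionEquivLeft_X_some,
    Polynomial.map_C, Polynomial.map_C]
  congr 1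
  have h : oe k (Option (Fin a ⊕ Fin b ⊕ Fin c))
      (MvPolynomial.X (some none)) = Polynomial.C (MvPolynomial.X none) :=
    MvPolynomial.optionEquivLeft_X_some ..
  rw [h]
  refine (Polynomial.map_C _).trans ?_
  congr 1
  exact MvPolynomial.optionEquivLeft_X_none ..

theorem e3v_C (p : MvPolynomial (Fin a ⊕ Fin b ⊕ Fin c) k) :
    e3v k a b c (MvPolynomial.rename vr3 p) =
      Polynomial.C (Polynomial.C (Polynomial.C p)) := by
  rw [e3v_eq, MvPolynomial.rename_rename]
  have h1 : eVr3 a b c ∘ vr3 = some ∘ (some ∘ some) := by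
    funext s
    exact eVr3_vr s
  rw [h1, ← MvPolynomial.rename_rename, opt_rename, Polynomial.map_C, Polynomial.map_C]
  congr 1
  have h2 : oe k (Option (Fin a ⊕ Fin b ⊕ Fin c))
      (MvPolynomial.rename (some ∘ some) p) = Polynomial.C (MvPolynomial.rename some p) := by
    rw [← MvPolynomial.rename_rename]
    exact opt_rename _
  rw [h2]
  refine (Polynomial.map_C _).trans ?_
  congr 1
  exact opt_rename p

/-- the hypersurface of the form `F + u v w` -/
def triHT (t : Fin a → Fin b → Fin c → k) : TriRing (tTr t) ≃+* HT (triF t) :=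
  Ideal.quotientEquiv (Ideal.span {triF (tTr t)})
    (Ideal.span {eqH (Polynomial.C (Polynomial.C (triF t)))
      (uv (MvPolynomial (Fin a ⊕ Fin b ⊕ Fin c) k))}) (e3v k a b c) (by
    rw [Ideal.map_span, Set.image_singleton]
    congr 2
    change _ = e3v k a b c (triF (tTr t))
    rw [triF_tTr, map_add, map_mul, map_mul, e3v_C, e3v_u, e3v_v, e3v_w]
    unfold eqH uv
    rw [Polynomial.C_mul]
    ring)

end

/-! ### one degree -/

section

variable (𝒯 : GTheory.{u} ⊤) {𝒮 : (G : Type u) → [AddCommGroup G] → Prop} (h𝒮 : Serre 𝒮)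

include h𝒮

variable {k : Type} [CommRing k] [IsNoetherianRing k]

/-- degree `n + 1` gives degree `n` -/
theorem tri_step {a b c : ℕ} (t : Fin a → Fin b → Fin c → k) (n : ℤ)
    (h0 : SFG 𝒯 𝒮 (n + 1 + 1) k) (h : 𝒮 (𝒯.T (n + 1) (TriRing (tTr t)))) :
    𝒮 (𝒯.T n (TriRing t)) := by
  have h1 : 𝒮 (𝒯.T (n + 1) (HT (triF t))) :=
    (h𝒮.of_bij _ (𝒯.pull_equiv_bijective (n + 1) (triHT t))).1 h
  exact triNode (triF t) 𝒯 h𝒮 n (WithTop.coe_lt_top _)
    ((SFG.mv h𝒮 (Fin a ⊕ Fin b ⊕ Fin c)).1 h0) h1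

/-- lower degrees -/
theorem tri_down (Q : ∀ a b c : ℕ, (Fin a → Fin b → Fin c → k) → Prop)
    (hQ : ∀ (a b c : ℕ) (t : Fin a → Fin b → Fin c → k), Q a b c t →
      Q (a + 1) (b + 1) (c + 1) (tTr t)) (M : ℤ) (h0 : SFG 𝒯 𝒮 (M + 1) k)
    (h : ∀ (a b c : ℕ) (t : Fin a → Fin b → Fin c → k), Q a b c t → 𝒮 (𝒯.T M (TriRing t)))
    (n : ℤ) (hn : n ≤ M) :
    ∀ (a b c : ℕ) (t : Fin a → Fin b → Fin c → k), Q a b c t → 𝒮 (𝒯.T n (TriRing t)) := by
  induction n, hn using Int.le_induction_down with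
  | base => exact h
  | pred n hn ih =>
    intro a b c t ht
    refine tri_step 𝒯 h𝒮 t (n - 1) (SFG.mono (by omega) h0) ?_
    rw [sub_add_cancel]
    exact ih _ _ _ _ (hQ a b c t ht)

/-- one degree: the complement and the hypersurface -/
theorem tri_of_comp (M : ℤ) (h0 : 𝒮 (𝒯.T M k)) {a b c : ℕ} (t : Fin a → Fin b → Fin c → k)
    (h : triF t ≠ 0 → 𝒮 (𝒯.T (M + 1) (CompRing t))) : 𝒮 (𝒯.T M (TriRing t)) := by
  have h1 : 𝒮 (𝒯.T M (MvPolynomial (Fin a ⊕ Fin b ⊕ Fin c) k)) :=
    (h𝒮.of_bij _ ((GTheory.HI.mvPolynomial (𝒯 := 𝒯) (Fin a ⊕ Fin b ⊕ Fin c) k).2 M)).1 h0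
  by_cases hF : triF t = 0
  · have h2 : Ideal.span {triF t} = ⊥ := by rw [hF, Ideal.span_singleton_eq_bot.2 rfl]
    have e : MvPolynomial (Fin a ⊕ Fin b ⊕ Fin c) k ≃+* TriRing t :=
      (RingEquiv.quotientBot _).symm.trans (Ideal.quotEquivOfEq h2.symm)
    exact (h𝒮.of_bij _ (𝒯.pull_equiv_bijective M e)).1 h1
  · haveI : IsNoetherianRing (CompRing t) := noeth_away (V := CompRing t) (triF t)
    exact SFG.quot_deg h𝒮 (isLoc_std (triF t)) M (WithTop.coe_lt_top _) (h hF) h1

/-- **(C)** one degree, coefficients `0`, `1`, quotients of the integers -/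
theorem degCk (hk : Surjective (Int.castRingHom k)) (M : ℤ) (h0 : SFG 𝒯 𝒮 (M + 1) k) :
    List.TFAE [
      ∀ (B : Type) [CommRing B] [Algebra k B] [Algebra.FiniteType k B], SFG 𝒯 𝒮 M B,
      ∀ (a b c : ℕ) (t : Fin a → Fin b → Fin c → k), Is01 t → 𝒮 (𝒯.T M (CubRing t)),
      ∀ (a b c : ℕ) (t : Fin a → Fin b → Fin c → k), Is01 t → 𝒮 (𝒯.T M (TriRing t)),
      ∀ (a b c : ℕ) (t : Fin a → Fin b → Fin c → k), Is01 t → triF t ≠ 0 →
        𝒮 (𝒯.T (M + 1) (CompRing t))] := by
  have h0' : SFG 𝒯 𝒮 M k := SFG.mono (by omega) h0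
  have key : (∀ (a b c : ℕ) (t : Fin a → Fin b → Fin c → k), Is01 t →
      𝒮 (𝒯.T M (TriRing t))) → ∀ (a b c : ℕ) (t : Fin a → Fin b → Fin c → k), Is01 t →
      SFG 𝒯 𝒮 (M + 1) (CompRing t) := by
    intro h a b c t ht
    refine sfg_comp h𝒮 𝒯 M k h0 t fun n hn => ?_
    exact tri_down 𝒯 h𝒮 (fun _ _ _ t => Is01 t) (fun _ _ _ _ h => tTr_is h) M h0 h n hn a b c t ht
  tfae_have 1 → 2 := fun h a b c t _ => h _ M le_rfl
  tfae_have 2 → 1 := fun h B _ _ _ => all_of_cubM01 𝒯 h𝒮 hk M h B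
  tfae_have 1 → 3 := fun h a b c t _ => h _ M le_rfl
  tfae_have 3 → 2 := fun h a b c t ht => sfg_cub_of_comp 𝒯 h𝒮 M (WithTop.coe_lt_top M) h0' t
    (fun _ => key h a b c t ht) M le_rfl
  tfae_have 3 → 4 := fun h a b c t ht _ => key h a b c t ht _ le_rfl
  tfae_have 4 → 3 := fun h a b c t ht => tri_of_comp 𝒯 h𝒮 M (h0' M le_rfl) t (h a b c t ht)
  tfae_finish

end

end Pool.Agent.KGT
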