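import Pool.Agent.KPR.KX

/-!
# Definitions for the theorem on smooth cubics, trilinear forms and Bass's question
-/

set_option autoImplicit false

noncomputable section

namespace Pool.Agent.KGT.W

open AlgebraicGeometry Pool.Agent.KPR

/-- A Serre class of abelian groups which contains `ℤ`: it contains the trivial groups, `ℤ`, and the
middle term of an exact sequence of three terms whose outer terms are in the class. (So it is closed
under isomorphisms, subgroups, quotients and extensions, and contains the finitely generated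
groups.) -/
structure SerreClass (𝒮 : (G : Type 1) → [AddCommGroup G] → Prop) : Prop where
  zero : ∀ (G : Type 1) [AddCommGroup G] [Subsingleton G], 𝒮 G
  int : 𝒮 (ULift.{1} ℤ)
  exact : ∀ (G G' G'' : Type 1) [AddCommGroup G] [AddCommGroup G'] [AddCommGroup G'']
    (f : G →+ G') (g : G' →+ G''), (∀ x, g x = 0 ↔ ∃ y, f y = x) → 𝒮 G → 𝒮 G'' → 𝒮 G'

/-- the scheme `X` is of finite type over the ring `k` (for some morphism `X → Spec k`) -/
def FinType (k : Type) [CommRing k] (X : Scheme.{0}) : Prop :=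
  ∃ f : X ⟶ Spec (CommRingCat.of k), LocallyOfFiniteType f ∧ QuasiCompact f

/-- all local rings of `X` are regular -/
def Regular (X : Scheme.{0}) : Prop := ∀ x : X, IsRegularLocalRing (X.presheaf.stalk x)

/-- all residue fields of `X` have transcendence degree at most `d` over their prime fields -/
def ResDim (d : ℕ) (X : Scheme.{0}) : Prop :=
  ∀ x : X, Algebra.trdeg (⊥ : Subfield (X.residueField x)) (X.residueField x) ≤ d

/-- `K'_n(X)` is in the class `𝒮` for all `n ≤ M` -/
def UpTo (𝒮 : (G : Type 1) → [AddCommGroup G] → Prop) (M : ℕ) (X : Scheme.{0}) : Prop :=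
  ∀ n : ℕ, n ≤ M → 𝒮 (KX n X)

/-- the closed subscheme of affine space given by the ideal `I` -/
def Closed {k : Type} [CommRing k] {ι : Type} (I : Ideal (MvPolynomial ι k)) : Scheme.{0} :=
  Spec (CommRingCat.of (MvPolynomial ι k ⧸ I))

/-- the hypersurface `f = 0` in affine space -/
def Hyp {k : Type} [CommRing k] {ι : Type} (f : MvPolynomial ι k) : Scheme.{0} :=
  Closed (Ideal.span {f})

/-- the open subscheme `f ≠ 0` of affine space -/
def Compl {k : Type} [CommRing k] {ι : Type} (f : MvPolynomial ι k) : Scheme.{0} :=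
  Spec (CommRingCat.of (Localization.Away f))

/-- `f` has degree at most three and the hypersurface `f = 0` is smooth over `k` -/
def SmoothCubic {k : Type} [CommRing k] {ι : Type} (f : MvPolynomial ι k) : Prop :=
  f.totalDegree ≤ 3 ∧ Algebra.Smooth k (MvPolynomial ι k ⧸ Ideal.span {f})

/-- The trilinear form `F = ∑ t i j l xᵢ yⱼ z_l`. -/
def form {k : Type} [CommRing k] {a b c : ℕ} (t : Fin a → Fin b → Fin c → k) :
    MvPolynomial (Fin a ⊕ Fin b ⊕ Fin c) k :=
  ∑ i, ∑ j, ∑ l, MvPolynomial.C (t i j l) * MvPolynomial.X (Sum.inl i) *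
    MvPolynomial.X (Sum.inr (Sum.inl j)) * MvPolynomial.X (Sum.inr (Sum.inr l))

/-- The polynomial `F - T² + T` of the cubic `F = T² - T`; the variable `T` is `none`. -/
def cubic {k : Type} [CommRing k] {a b c : ℕ} (t : Fin a → Fin b → Fin c → k) :
    MvPolynomial (Option (Fin a ⊕ Fin b ⊕ Fin c)) k :=
  MvPolynomial.rename some (form t) - MvPolynomial.X none ^ 2 + MvPolynomial.X none

/-- all coefficients are `0` or `1` -/
def Coeff01 {k : Type} [CommRing k] {a b c : ℕ} (t : Fin a → Fin b → Fin c → k) : Prop :=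
  ∀ i j l, t i j l = 0 ∨ t i j l = 1

/-- (A) A smooth cubic hypersurface `Y` over `k` with `K'_n(Y) ≅ K'_n(Spec k) ⊕ K'_n(Spec B)` for all
`n`. -/
def Encoded (k B : Type) [CommRing k] [CommRing B] : Prop :=
  ∃ (m : ℕ) (f : MvPolynomial (Fin m) k), SmoothCubic f ∧ ∀ n : ℕ,
    Nonempty (KX n (Hyp f) ≃+ KX n (Spec (CommRingCat.of k)) × KX n (Spec (CommRingCat.of B)))

/-- (B) The equivalences over a noetherian ring `k` in one degree `M`. -/
def OneDegree (𝒮 : (G : Type 1) → [AddCommGroup G] → Prop) (M : ℕ) (k : Type) [CommRing k] :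
    Prop :=
  List.TFAE [
    ∀ X : Scheme.{0}, FinType k X → UpTo 𝒮 M X,
    ∀ (m : ℕ) (f : MvPolynomial (Fin m) k), SmoothCubic f → 𝒮 (KX M (Hyp f)),
    ∀ (a b c : ℕ) (t : Fin a → Fin b → Fin c → k), 𝒮 (KX M (Hyp (cubic t)))]

/-- (B) Regular schemes and all schemes of finite type over `k`, one degree `M`. -/
def RegularBase (𝒮 : (G : Type 1) → [AddCommGroup G] → Prop) (M : ℕ) (k : Type) [CommRing k] :
    Prop :=
  (∀ X : Scheme.{0}, FinType k X → Regular X → 𝒮 (KX M X)) ↔
    ∀ X : Scheme.{0}, FinType k X → UpTo 𝒮 M X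

/-- (C) The equivalences over `k = ℤ` and `k = 𝔽_p` in one degree `M`. -/
def ZeroOne (𝒮 : (G : Type 1) → [AddCommGroup G] → Prop) (M : ℕ) (k : Type) [CommRing k] :
    Prop :=
  List.TFAE [
    ∀ X : Scheme.{0}, FinType k X → Regular X → 𝒮 (KX M X),
    ∀ X : Scheme.{0}, FinType k X → UpTo 𝒮 M X,
    ∀ (a b c : ℕ) (t : Fin a → Fin b → Fin c → k), Coeff01 t → 𝒮 (KX M (Hyp (cubic t))),
    ∀ (a b c : ℕ) (t : Fin a → Fin b → Fin c → k), Coeff01 t → 𝒮 (KX M (Hyp (form t))),
    ∀ (a b c : ℕ) (t : Fin a → Fin b → Fin c → k), Coeff01 t → form t ≠ 0 →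
      𝒮 (KX (M + 1) (Compl (form t)))]

/-- (D) The statements for the bound `d` over `k`. -/
def Level (𝒮 : (G : Type 1) → [AddCommGroup G] → Prop) (M : ℕ) (k : Type) [CommRing k]
    (d : ℕ) : List Prop :=
  [∀ X : Scheme.{0}, FinType k X → Regular X → ResDim d X → UpTo 𝒮 M X,
    ∀ X : Scheme.{0}, FinType k X → ResDim d X → UpTo 𝒮 M X,
    ∀ I : Ideal (MvPolynomial (Fin (d + 1)) k), UpTo 𝒮 M (Closed I),
    ∀ (b c : ℕ) (t : Fin (d + 2) → Fin b → Fin c → k), UpTo 𝒮 M (Hyp (form t)),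
    ∀ (b c : ℕ) (t : Fin (d + 2) → Fin b → Fin c → k), UpTo 𝒮 M (Hyp (cubic t)),
    ∀ (b c : ℕ) (t : Fin (d + 2) → Fin b → Fin c → k), form t ≠ 0 →
      UpTo 𝒮 (M + 1) (Compl (form t))]

end Pool.Agent.KGT.W
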