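import Pool.Agent.KGT.WFin
import Pool.Agent.KGT.SmReg
import Pool.Agent.KGT.TriNodeB

/-!
# KGT: regular base rings
-/

set_option autoImplicit false

noncomputable section

namespace Pool.Agent.KGT

open CategoryTheory Function AlgebraicGeometry Pool.Agent.KTX Pool.Agent.KPR Pool.Agent.GTH
open Pool.Agent.KQH

/-- **(B)**, regular base rings -/
theorem w_RB {𝒮 : (G : Type 1) → [AddCommGroup G] → Prop} (h𝒮 : Serre 𝒮) (M : ℕ) (k : Type)
    [CommRing k] [IsRegularRing k] : W.RegularBase 𝒮 M k := by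
  refine ⟨fun h => ?_, fun h X hX _ => h X hX M le_rfl⟩
  refine ((w_B h𝒮 M k).out 1 0 rfl rfl).1 fun m f hf => ?_
  haveI := hf.2
  haveI : IsRegularRing (MvPolynomial (Fin m) k ⧸ Ideal.span {f}) := smooth_reg (k := k)
  exact h _ w_ft (fun x => sp_regular _ x)

/-- prime fields and the integers are regular -/
theorem reg_zmod (m : ℕ) (hm : m = 0 ∨ m.Prime) : IsRegularRing (ZMod m) := by
  rcases hm with rfl | h
  · exact (inferInstance : IsRegularRing ℤ)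
  · haveI : Fact m.Prime := ⟨h⟩
    infer_instance

/-- **(C)** -/
theorem w_C {𝒮 : (G : Type 1) → [AddCommGroup G] → Prop} (h𝒮 : Serre 𝒮) (m : ℕ)
    (hm : m = 0 ∨ m.Prime) (hb : ∀ n : ℕ, 𝒮 (KX n (Sp (ZMod m)))) (M : ℕ) :
    W.ZeroOne 𝒮 M (ZMod m) := by
  haveI := reg_zmod m hm
  obtain ⟨L, G, k1, k2, k3⟩ := real_deg h𝒮
  have k4 := upTo_cast k3
  have k5 : ∀ (R : Type) [CommRing R], 𝒮 (G.T ((M : ℤ) + 1) R) ↔ 𝒮 (KX (M + 1) (Sp R)) := by
    intro R _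
    have h := k2 (M + 1) R
    rwa [Nat.cast_add, Nat.cast_one] at h
  have h0 : SFG G 𝒮 ((M : ℤ) + 1) (ZMod m) := (k4 M (ZMod m)).2 fun n _ => hb n
  have key := degCk G h𝒮 (k := ZMod m) (ZMod.ringHom_surjective _) M h0
  have hrs : (∀ X : Scheme.{0}, W.FinType (ZMod m) X → W.UpTo 𝒮 M X) ↔
      ∀ (B : Type) [CommRing B] [Algebra (ZMod m) B] [Algebra.FiniteType (ZMod m) B],
        SFG G 𝒮 M B :=
    ⟨fun h B _ _ _ => (k3 M B).2 (h _ w_ft), fun h X hX => w_sch h𝒮 M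
      (fun C _ _ _ => (k3 M C).1 (h C)) X hX⟩
  have hR := w_RB h𝒮 M (ZMod m)
  show List.TFAE _
  tfae_have 1 ↔ 2 := hR
  tfae_have 2 → 3 := fun h a b c t _ => h _ w_ft M le_rfl
  tfae_have 3 → 2 := fun h => hrs.2 ((key.out 1 0 rfl rfl).1 fun a b c t ht =>
    (k2 M _).2 (h a b c t ht))
  tfae_have 2 → 4 := fun h a b c t _ => h _ w_ft M le_rfl
  tfae_have 4 → 2 := fun h => hrs.2 ((key.out 2 0 rfl rfl).1 fun a b c t ht =>
    (k2 M _).2 (h a b c t ht))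
  tfae_have 2 → 5 := fun h a b c t ht h1 => (k5 _).1
    ((key.out 0 3 rfl rfl).1 (hrs.1 h) a b c t ht h1)
  tfae_have 5 → 2 := fun h => hrs.2 ((key.out 3 0 rfl rfl).1 fun a b c t ht h1 =>
    (k5 _).2 (h a b c t ht h1))
  tfae_finish

end Pool.Agent.KGT
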