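import Pool.Agent.KGT.WAll

/-!
# Bass's finiteness question: smooth cubics and trilinear forms, all `K'_n`
-/

set_option autoImplicit false

namespace Pool.Agent.KGT

open Pool.Agent.KGT.W

/-- `KX n X` is Quillen's group `K'_n(X)` of the scheme `X` (`π_{n+1}` of the Q-construction of the
category of coherent sheaves, here `π_{2n+3}` of a model by the iterated S-construction).
`FinType k X`: the scheme `X` is of finite type over the ring `k`. `SerreClass 𝒮`: `𝒮` is a class of
abelian groups closed under subgroups, quotients and extensions which contains `ℤ`, for instance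
the class of finitely generated groups. A cubic is a hypersurface `f = 0`, `f` of degree at most three,
in an affine space. For a tensor `t` of format `(a, b, c)` let `F = ∑ t i j l xᵢ yⱼ z_l`.

(A) Let `k` be a noetherian ring. For every finitely generated `k`-algebra `B` there is a smooth cubic
`Y` over `k` with `K'_n(Y) ≅ K'_n(Spec k) ⊕ K'_n(Spec B)` for all `n`. The cubic `F = T² - T` is smooth
over `k`.

(B) Let `k` be a noetherian ring, `𝒮` a Serre class, `M ≥ 0`. The following are equivalent:
`K'_n(X)` is in `𝒮` for all schemes `X` of finite type over `k` and all `n ≤ M`; `K'_M(Y)` is in `𝒮`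
for all smooth cubics `Y` over `k`; `K'_M` of the cubics `F = T² - T` is in `𝒮` for all trilinear
forms `F` over `k`. If `k` is regular, then this is the case if and only if `K'_M(X)` is in `𝒮` for
all regular schemes `X` of finite type over `k`.

Let now `k = ℤ` (`m = 0`) or `k = 𝔽_p` (`m = p`).

(C) The following are equivalent: `K'_M(X)` is in `𝒮` for all regular schemes `X` of finite type over
`k` (for `k = ℤ` and the finitely generated groups this is Bass's question in degree `M`);
`K'_n(X)` is in `𝒮` for all schemes of finite type over `k` and `n ≤ M`; `K'_M` of the smooth cubics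
`F = T² - T` is in `𝒮` for all trilinear forms `F` with coefficients `0` and `1`; `K'_M` of the
hypersurfaces `F = 0` is in `𝒮` for these forms; `K'_{M + 1}` of the complements `F ≠ 0` is in `𝒮`
for the nonzero forms among them.

(D) Let `d ≥ 0`. The following are equivalent, for `n ≤ M` (`n ≤ M + 1` in the last one): `K'_n` is in
`𝒮` for all regular schemes of finite type over `k` all of whose residue fields have transcendence
degree at most `d` over their prime fields; for all such schemes; for the closed subschemes of
affine `(d + 1)`-space over `k`; for the hypersurfaces `F = 0` of format `(d + 2, b, c)`; for the smooth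
cubics `F = T² - T` of this format; for the complements `F ≠ 0`, `F` a nonzero form of this format.

(E) For `k = ℤ`, `d = 0` and for `k = 𝔽_p`, `d ≤ 1` all groups `K'_n` in (D) are finitely generated. -/
theorem w_result :
    -- (A)
    (∀ (k : Type) [CommRing k] [IsNoetherianRing k],
      (∀ (B : Type) [CommRing B] [Algebra k B] [Algebra.FiniteType k B], Encoded k B) ∧
      ∀ (a b c : ℕ) (t : Fin a → Fin b → Fin c → k), SmoothCubic (cubic t)) ∧
    (∀ 𝒮 : (G : Type 1) → [AddCommGroup G] → Prop, SerreClass 𝒮 → ∀ M : ℕ,
      -- (B)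
      (∀ (k : Type) [CommRing k] [IsNoetherianRing k],
        OneDegree 𝒮 M k ∧ (IsRegularRing k → RegularBase 𝒮 M k)) ∧
      -- (C), (D)
      ∀ m : ℕ, m = 0 ∨ m.Prime →
        ZeroOne 𝒮 M (ZMod m) ∧ ∀ d : ℕ, (Level 𝒮 M (ZMod m) d).TFAE) ∧
    -- (E)
    ∀ m d : ℕ, (m = 0 ∧ d = 0) ∨ (m.Prime ∧ d ≤ 1) → ∀ M : ℕ,
      ∀ P ∈ Level (fun G _ => AddGroup.FG G) M (ZMod m) d, P :=
  ⟨fun k _ _ => ⟨fun B _ _ _ => w_A k B, fun _ _ _ t => cubic_smooth t⟩,
    fun _ h𝒮 M => ⟨fun k _ _ => ⟨w_B h𝒮.serre M k, fun h => @w_RB _ h𝒮.serre M k _ h⟩,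
      w_CD h𝒮 M⟩, fun m d h M => w_E all_NR all_GenReg m d h M⟩

end Pool.Agent.KGT
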