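import Pool.Agent.KGT.WDefs

/-!
# Bass's finiteness question, smooth cubics and trilinear forms: one list of statements for all bounds `d`

`d` is a natural number or `∞`.
-/

set_option autoImplicit false

open AlgebraicGeometry Pool.Agent.KPR

namespace Pool.Agent.KGT.W

/-- The degrees `n ≤ M`; if `d = ∞`, only `n = M`. -/
def Deg (d : ℕ∞) (M n : ℕ) : Prop := n ≤ M ∧ (d = ⊤ → n = M)

/-- All residue fields of `X` have transcendence degree at most `d` over their prime fields (no condition if
`d = ∞`). -/
def ResLe (d : ℕ∞) (X : Scheme.{0}) : Prop := ∀ e : ℕ, d = e → ResDim e X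

/-- The tensor `t` has a format `(d + 2, b, c)` if `d` is finite, and coefficients `0` and `1` if `d = ∞`. -/
def Admits (d : ℕ∞) {k : Type} [CommRing k] {a b c : ℕ} (t : Fin a → Fin b → Fin c → k) : Prop :=
  (∀ e : ℕ, d = e → a = e + 2) ∧ (d = ⊤ → Coeff01 t)

/-- The statements for the bound `d` over `k`: `K'_n` is in `𝒮` for
1. all regular schemes of finite type over `k` with residue fields of transcendence degree at most `d`;
2. all such schemes, regular or not (here for all `n ≤ M`, also if `d = ∞`);
3. all closed subschemes of affine `(d + 1)`-space (of all affine spaces if `d = ∞`);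
4. the hypersurfaces `F = 0`;
5. the cubics `F = T² - T`, and they are smooth over `k`;
6. the complements `F ≠ 0`, `F` nonzero, in degrees `n ≤ M + 1` (`n = M + 1` if `d = ∞`);
here `F` runs through the trilinear forms of a format `(d + 2, b, c)`, or, if `d = ∞`, those with
coefficients `0` and `1`, of any format, and `n` through the degrees `≤ M`, or, if `d = ∞`, `n = M`. -/
def Statements (𝒮 : (G : Type 1) → [AddCommGroup G] → Prop) (M : ℕ) (k : Type) [CommRing k]
    (d : ℕ∞) : List Prop :=
  [∀ X : Scheme.{0}, FinType k X → Regular X → ResLe d X → ∀ n, Deg d M n → 𝒮 (KX n X),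
    ∀ X : Scheme.{0}, FinType k X → ResLe d X → ∀ n, n ≤ M → 𝒮 (KX n X),
    ∀ (r : ℕ) (I : Ideal (MvPolynomial (Fin r) k)), (∀ e : ℕ, d = e → r = e + 1) →
      ∀ n, Deg d M n → 𝒮 (KX n (Closed I)),
    ∀ (a b c : ℕ) (t : Fin a → Fin b → Fin c → k), Admits d t →
      ∀ n, Deg d M n → 𝒮 (KX n (Hyp (form t))),
    ∀ (a b c : ℕ) (t : Fin a → Fin b → Fin c → k), Admits d t →
      SmoothCubic (cubic t) ∧ ∀ n, Deg d M n → 𝒮 (KX n (Hyp (cubic t))),
    ∀ (a b c : ℕ) (t : Fin a → Fin b → Fin c → k), Admits d t → form t ≠ 0 →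
      ∀ n, Deg d (M + 1) n → 𝒮 (KX n (Compl (form t)))]

end Pool.Agent.KGT.W
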