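import Pool.Agent.KGT.YDefs
import Pool.Agent.KGT.WAll

/-!
# Bass's finiteness question, smooth cubics and trilinear forms: the theorem for all bounds `d`
-/

set_option autoImplicit false

noncomputable section

namespace Pool.Agent.KGT

open CategoryTheory AlgebraicGeometry Pool.Agent.KQH Pool.Agent.KPR

namespace W

theorem deg_coe {e M n : ℕ} : Deg (e : ℕ∞) M n ↔ n ≤ M :=
  ⟨fun h => h.1, fun h => ⟨h, fun h1 => absurd h1 (ENat.coe_ne_top e)⟩⟩

theorem deg_top {M n : ℕ} : Deg ⊤ M n ↔ n = M :=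
  ⟨fun h => h.2 rfl, fun h => ⟨h.le, fun _ => h⟩⟩

theorem resLe_coe {e : ℕ} {X : Scheme.{0}} : ResLe (e : ℕ∞) X ↔ ResDim e X :=
  ⟨fun h => h e rfl, fun h e' he => by
    have h1 : e = e' := by exact_mod_cast he
    exact h1 ▸ h⟩

theorem resLe_top {X : Scheme.{0}} : ResLe ⊤ X :=
  fun e he => absurd he.symm (ENat.coe_ne_top e)

theorem admits_coe {e : ℕ} {k : Type} [CommRing k] {a b c : ℕ} {t : Fin a → Fin b → Fin c → k} :
    Admits (e : ℕ∞) t ↔ a = e + 2 :=
  ⟨fun h => h.1 e rfl, fun h => ⟨fun e' he => by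
    have h1 : e = e' := by exact_mod_cast he
    exact h1 ▸ h, fun h1 => absurd h1 (ENat.coe_ne_top e)⟩⟩

theorem admits_top {k : Type} [CommRing k] {a b c : ℕ} {t : Fin a → Fin b → Fin c → k} :
    Admits ⊤ t ↔ Coeff01 t :=
  ⟨fun h => h.2 rfl, fun h => ⟨fun e he => absurd he.symm (ENat.coe_ne_top e), fun _ => h⟩⟩

/-- the list for a finite bound -/
theorem statements_coe (𝒮 : (G : Type 1) → [AddCommGroup G] → Prop) (M : ℕ) (k : Type) [CommRing k]
    (e : ℕ) : Statements 𝒮 M k (e : ℕ∞) = Level 𝒮 M k e := by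
  unfold Statements Level
  congr 1
  · refine propext (forall_congr' fun X => forall_congr' fun _ => forall_congr' fun _ => ?_)
    rw [resLe_coe]
    exact forall_congr' fun _ => forall_congr' fun n => by rw [deg_coe]
  congr 1
  · refine propext (forall_congr' fun X => forall_congr' fun _ => ?_)
    rw [resLe_coe]
    exact Iff.rfl
  congr 1
  · refine propext ⟨fun h I n hn => h (e + 1) I (fun e' he => ?_) n (deg_coe.2 hn),
      fun h r I hr n hn => ?_⟩
    · have h1 : e = e' := by exact_mod_cast he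
      rw [h1]
    · obtain rfl := hr e rfl
      exact h I n (deg_coe.1 hn)
  congr 1
  · refine propext ⟨fun h b c t n hn => h _ b c t (admits_coe.2 rfl) n (deg_coe.2 hn),
      fun h a b c t ht n hn => ?_⟩
    obtain rfl := admits_coe.1 ht
    exact h b c t n (deg_coe.1 hn)
  congr 1
  · refine propext ⟨fun h b c t n hn => (h _ b c t (admits_coe.2 rfl)).2 n (deg_coe.2 hn),
      fun h a b c t ht => ⟨cubic_smooth t, fun n hn => ?_⟩⟩
    obtain rfl := admits_coe.1 ht
    exact h b c t n (deg_coe.1 hn)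
  congr 1
  refine propext ⟨fun h b c t h0 n hn => h _ b c t (admits_coe.2 rfl) h0 n (deg_coe.2 hn),
    fun h a b c t ht h0 n hn => ?_⟩
  obtain rfl := admits_coe.1 ht
  exact h b c t h0 n (deg_coe.1 hn)

/-- a hypersurface as a closed subscheme of the affine space with numbered variables -/
theorem hyp_closed {𝒮 : (G : Type 1) → [AddCommGroup G] → Prop} (h𝒮 : SerreClass 𝒮) {k : Type}
    [CommRing k] [IsNoetherianRing k] {ι : Type} [Fintype ι] (f : MvPolynomial ι k) (n : ℕ)
    (h : ∀ (r : ℕ) (I : Ideal (MvPolynomial (Fin r) k)), 𝒮 (KX n (Closed I))) :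
    𝒮 (KX n (Hyp f)) := by
  let e := Fintype.equivFin ι
  let E : (MvPolynomial ι k ⧸ Ideal.span {f}) ≃ₐ[k]
      (MvPolynomial (Fin (Fintype.card ι)) k ⧸ Ideal.span {MvPolynomial.rename e f}) :=
    Ideal.quotientEquivAlg _ _ (MvPolynomial.renameEquiv k e) (by
      rw [Ideal.map_span, Set.image_singleton]
      rfl)
  exact kx_iso all_HOMK h𝒮.serre n E.symm.toRingEquiv (h _ _)

/-- the list for `d = ∞` -/
theorem statements_top {𝒮 : (G : Type 1) → [AddCommGroup G] → Prop} (h𝒮 : SerreClass 𝒮) (M m : ℕ)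
    (hm : m = 0 ∨ m.Prime) : (Statements 𝒮 M (ZMod m) ⊤).TFAE := by
  have : IsNoetherianRing (ZMod m) := isNoetherianRing_of_surjective ℤ (ZMod m)
    (Int.castRingHom (ZMod m)) (ZMod.ringHom_surjective _)
  have key := (w_CD h𝒮 M m hm).1
  have k12 := key.out 0 1 rfl rfl
  have k23 := key.out 1 2 rfl rfl
  have k24 := key.out 1 3 rfl rfl
  have k25 := key.out 1 4 rfl rfl
  unfold Statements
  tfae_have 1 ↔ 2 := by
    refine Iff.trans ?_ (k12.trans ?_)
    · exact ⟨fun h X hX hR => h X hX hR resLe_top M (deg_top.2 rfl),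
        fun h X hX hR _ n hn => deg_top.1 hn ▸ h X hX hR⟩
    · exact ⟨fun h X hX _ n hn => h X hX n hn, fun h X hX n hn => h X hX resLe_top n hn⟩
  tfae_have 2 → 3 := fun h r I _ n hn => h _ w_ft resLe_top n hn.1
  tfae_have 3 → 4 := fun h a b c t _ n hn => hyp_closed h𝒮 _ n fun r I =>
    h r I (fun e he => absurd he.symm (ENat.coe_ne_top e)) n hn
  tfae_have 4 → 2 := fun h X hX _ n hn => k24.2
    (fun a b c t ht => h a b c t (admits_top.2 ht) M (deg_top.2 rfl)) X hX n hn
  tfae_have 2 ↔ 5 := by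
    refine Iff.trans ?_ (k23.trans ?_)
    · exact ⟨fun h X hX n hn => h X hX resLe_top n hn, fun h X hX _ n hn => h X hX n hn⟩
    · exact ⟨fun h a b c t ht => ⟨cubic_smooth t, fun n hn =>
          deg_top.1 hn ▸ h a b c t (admits_top.1 ht)⟩,
        fun h a b c t ht => (h a b c t (admits_top.2 ht)).2 M (deg_top.2 rfl)⟩
  tfae_have 2 ↔ 6 := by
    refine Iff.trans ?_ (k25.trans ?_)
    · exact ⟨fun h X hX n hn => h X hX resLe_top n hn, fun h X hX _ n hn => h X hX n hn⟩
    · exact ⟨fun h a b c t ht h0 n hn => deg_top.1 hn ▸ h a b c t (admits_top.1 ht) h0,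
        fun h a b c t ht h0 => h a b c t (admits_top.2 ht) h0 (M + 1) (deg_top.2 rfl)⟩
  tfae_finish

/-- all bounds -/
theorem statements_tfae {𝒮 : (G : Type 1) → [AddCommGroup G] → Prop} (h𝒮 : SerreClass 𝒮) (M m : ℕ)
    (hm : m = 0 ∨ m.Prime) (d : ℕ∞) : (Statements 𝒮 M (ZMod m) d).TFAE := by
  rcases eq_or_ne d ⊤ with rfl | hd
  · exact statements_top h𝒮 M m hm
  · obtain ⟨e, rfl⟩ := ENat.ne_top_iff_exists.1 hd
    rw [statements_coe]
    exact (w_CD h𝒮 M m hm).2 e

/-- the known bounds -/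
theorem statements_base (M m d : ℕ) (h : (m = 0 ∧ d = 0) ∨ (m.Prime ∧ d ≤ 1)) :
    ∀ P ∈ Statements (fun G _ => AddGroup.FG G) M (ZMod m) (d : ℕ∞), P := by
  rw [statements_coe]
  exact w_E all_NR all_GenReg m d h M

end W

end Pool.Agent.KGT
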