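import Pool.Agent.KQG.KInt

/-!
# KGT: the push-forward along `X = 0` vanishes (rings)
-/

set_option autoImplicit false

noncomputable section

namespace Pool.Agent.KGT

open CategoryTheory CategoryTheory.Limits Function Pool.Agent.KQ Pool.Agent.KQG
open scoped TensorProduct Polynomial

universe u

section lin

variable {A B : Type} [CommRing A] [CommRing B] [Algebra A B] (x : B) (π : B →+* A)
  (hπ : ∀ a, π (algebraMap A B a) = a) (r : B →ₗ[A] B)
  (h1 : ∀ b, b = algebraMap A B (π b) + x * r b) (h2 : π x = 0) (h3 : ∀ b, r (x * b) = b)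
  (M : Type) [AddCommGroup M] [Module A M]

/-- evaluation `B ⊗ M → M` -/
def ev (hπ : ∀ a, π (algebraMap A B a) = a) : TensorProduct A B M →ₗ[A] M :=
  TensorProduct.lift (LinearMap.mk₂ A (fun p m => π p • m)
    (fun p q m => by rw [map_add, add_smul])
    (fun a p m => by rw [Algebra.smul_def, map_mul, hπ, mul_smul])
    (fun p m n => smul_add _ _ _)
    (fun a p m => smul_comm _ _ _))

theorem ev_tmul (p : B) (m : M) : ev π M hπ (p ⊗ₜ[A] m) = π p • m := rfl

/-- division by `x` -/
def dv : TensorProduct A B M →ₗ[A] TensorProduct A B M := LinearMap.rTensor M r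

theorem dv_tmul (p : B) (m : M) : dv r M (p ⊗ₜ[A] m) = r p ⊗ₜ[A] m := rfl

include h1 in
theorem dec (t : TensorProduct A B M) :
    t = (1 : B) ⊗ₜ[A] ev π M hπ t + x • dv r M t := by
  induction t using TensorProduct.induction_on with
  | zero => rw [map_zero, map_zero, TensorProduct.tmul_zero, smul_zero, add_zero]
  | tmul p m =>
    rw [ev_tmul, dv_tmul, TensorProduct.smul_tmul', ← TensorProduct.smul_tmul,
      ← TensorProduct.add_tmul]
    congr 1
    rw [smul_eq_mul, ← Algebra.algebraMap_eq_smul_one]
    exact h1 p
  | add y z hy hz =>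
    rw [map_add, map_add, TensorProduct.tmul_add, smul_add]
    nth_rw 1 [hy, hz]
    abel

include h2 in
theorem ev_X (t : TensorProduct A B M) : ev π M hπ (x • t) = 0 := by
  induction t using TensorProduct.induction_on with
  | zero => rw [smul_zero, map_zero]
  | tmul p m =>
    rw [TensorProduct.smul_tmul', ev_tmul, smul_eq_mul, map_mul, h2, zero_mul, zero_smul]
  | add y z hy hz => rw [smul_add, map_add, hy, hz, add_zero]

include h3 in
theorem dv_X (t : TensorProduct A B M) : dv r M (x • t) = t := by
  induction t using TensorProduct.induction_on with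
  | zero => rw [smul_zero, map_zero]
  | tmul p m => rw [TensorProduct.smul_tmul', dv_tmul, smul_eq_mul, h3]
  | add y z hy hz => rw [smul_add, map_add, hy, hz]

theorem ev_smul (p : B) (t : TensorProduct A B M) :
    ev π M hπ (p • t) = π p • ev π M hπ t := by
  induction t using TensorProduct.induction_on with
  | zero => rw [smul_zero, map_zero, smul_zero]
  | tmul q m => rw [TensorProduct.smul_tmul', ev_tmul, ev_tmul, smul_eq_mul, map_mul, mul_smul]
  | add y z hy hz => rw [smul_add, map_add, hy, hz, map_add, smul_add]

theorem ev_nat {N : Type} [AddCommGroup N] [Module A N] (f : M →ₗ[A] N)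
    (t : TensorProduct A B M) : ev π N hπ (LinearMap.lTensor B f t) = f (ev π M hπ t) := by
  induction t using TensorProduct.induction_on with
  | zero => simp only [map_zero]
  | tmul p m => exact (map_smul f (π p) m).symm
  | add y z hy hz => rw [map_add, map_add, map_add, map_add, hy, hz]

end lin

section fct

variable {A B : Type} [CommRing A] [CommRing B] (φ : A →+* B) (x : B) (π : B →+* A)
  (hπ : ∀ a, π (φ a) = a)

/-- the map `B ⊗ M → M` -/
def evM (M : ModuleCat.{0} A) : (ModuleCat.extendScalars.{0, 0, 0} φ).obj M ⟶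
    (ModuleCat.restrictScalars.{0, 0, 0} π).obj M :=
  letI := φ.toAlgebra
  ModuleCat.ofHom (X := TensorProduct A B M) (Y := (ModuleCat.restrictScalars.{0, 0, 0} π).obj M)
    { toFun := fun t => (ev π M hπ t : M)
      map_add' := fun s t => map_add _ s t
      map_smul' := fun b t => ev_smul π hπ M b t }

theorem evM_nat {M N : ModuleCat.{0} A} (f : M ⟶ N) :
    (ModuleCat.extendScalars.{0, 0, 0} φ).map f ≫ evM φ π hπ N =
      evM φ π hπ M ≫ (ModuleCat.restrictScalars.{0, 0, 0} π).map f := by
  letI := φ.toAlgebra
  apply ModuleCat.hom_ext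
  apply LinearMap.ext
  intro t
  exact ev_nat π hπ M f.hom t

/-- multiplication by `x` -/
def mulM (N : ModuleCat.{0} B) : N ⟶ N := ModuleCat.ofHom (LinearMap.lsmul B N x)

theorem mulM_nat {M N : ModuleCat.{0} B} (f : M ⟶ N) : f ≫ mulM x N = mulM x M ≫ f := by
  apply ModuleCat.hom_ext
  apply LinearMap.ext
  intro t
  exact (map_smul f.hom x t).symm

theorem ses_ev (r : B →+ B) (hr : ∀ a b, r (φ a * b) = φ a * r b)
    (h1 : ∀ b, b = φ (π b) + x * r b) (h2 : π x = 0) (h3 : ∀ b, r (x * b) = b)
    (M : ModuleCat.{0} A) :
    SES (mulM x ((ModuleCat.extendScalars.{0, 0, 0} φ).obj M)) (evM φ π hπ M) := by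
  letI := φ.toAlgebra
  let r' : B →ₗ[A] B := { toFun := r, map_add' := map_add r, map_smul' := fun a b => hr a b }
  rw [ses_mod]
  refine ⟨fun s t hst => ?_, fun t => ⟨fun ht => ⟨dv r' M t, ?_⟩, ?_⟩, fun m => ⟨?_, ?_⟩⟩
  · have hs : dv r' M (x • (show TensorProduct A B M from s)) = s := dv_X x r' h3 M s
    have ht : dv r' M (x • (show TensorProduct A B M from t)) = t := dv_X x r' h3 M t
    have hst' : x • (show TensorProduct A B M from s) = x • (show TensorProduct A B M from t) := hst
    rw [← hs, ← ht, hst']
  · have h4 := dec x π hπ r' h1 M t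
    have h5 : ev π M hπ t = 0 := ht
    rw [h5, TensorProduct.tmul_zero, zero_add] at h4
    exact h4.symm
  · rintro ⟨s, rfl⟩
    exact ev_X x π hπ h2 M s
  · exact ((1 : B) ⊗ₜ[A] (show M from m) : TensorProduct A B M)
  · change π 1 • (show M from m) = m
    rw [map_one, one_smul]

end fct

theorem cc_finite (A : Type) [CommRing A] :
    (Polynomial.constantCoeff : A[X] →+* A).Finite :=
  RingHom.Finite.of_surjective _ fun a => ⟨Polynomial.C a, by simp⟩

/-- the push-forward along `X = 0` vanishes -/
theorem res_zero (K : KInt.{u}) (n : ℕ) (A : Type) [CommRing A]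
    (h : (Polynomial.C : A →+* A[X]).Flat) (hf : (Polynomial.constantCoeff : A[X] →+* A).Finite)
    (y : K.K n (MA A)) : K.map n (resE Polynomial.constantCoeff hf) y = 0 := by
  have hπ : ∀ a : A, Polynomial.constantCoeff (Polynomial.C a) = a := fun a => by simp
  let r : A[X] →+ A[X] :=
    { toFun := Polynomial.divX, map_zero' := Polynomial.divX_zero
      map_add' := fun p q => Polynomial.divX_add }
  have key := K.add n (bcE Polynomial.C h) (bcE Polynomial.C h) (resE Polynomial.constantCoeff hf)
    { app := fun M => ObjectProperty.homMk (mulM (Polynomial.X : A[X]) _)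
      naturality := fun M N f => by
        apply ObjectProperty.hom_ext
        exact mulM_nat (Polynomial.X : A[X]) _ }
    { app := fun M => ObjectProperty.homMk (evM Polynomial.C Polynomial.constantCoeff hπ M.obj)
      naturality := fun M N f => by
        apply ObjectProperty.hom_ext
        exact evM_nat Polynomial.C Polynomial.constantCoeff hπ f.hom }
    (fun M => ses_ev (B := A[X]) Polynomial.C Polynomial.X Polynomial.constantCoeff hπ r
      (fun a b => Polynomial.divX_C_mul)
      (fun b => by
        change b = Polynomial.C (Polynomial.constantCoeff b) + Polynomial.X * b.divX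
        rw [mul_comm, add_comm]
        exact (Polynomial.divX_mul_X_add b).symm)
      (by simp)
      (fun b => by
        change (Polynomial.X * b).divX = b
        ext n
        rw [Polynomial.coeff_divX, Polynomial.coeff_X_mul])
      M.obj) y
  exact (left_eq_add.1 key)

end Pool.Agent.KGT
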